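import Pool.Agent.LibRD47.HomD
import Pool.Agent.LibDehn83.Loops

set_option autoImplicit false

namespace Pool.Agent.LibRD47.RF7

open Pool.Agent.LibZIS Pool.Agent.LibCod83 Pool.Agent.LibQF83 Pool.Agent.LibDehn83
open Pool.Agent.LibRD47 Filter Topology
open scoped Pointwise

variable {G : Type} [Group G]

/-- the vertices of a path, without the last one. -/
def vl : List G → G → List G
  | [], _ => []
  | s :: w, x => x :: vl w (s⁻¹ * x)

lemma mem_vl (w : List G) (x y : G) (h : y ∈ vl w x) :
    ∃ w1 w2 : List G, w = w1 ++ w2 ∧ w2 ≠ [] ∧ y = w1.prod⁻¹ * x := by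
  induction w generalizing x with
  | nil => simp [vl] at h
  | cons s w ih =>
    rw [vl, List.mem_cons] at h
    rcases h with h | h
    · exact ⟨[], s :: w, rfl, List.cons_ne_nil _ _, by simp [h]⟩
    · obtain ⟨w1, w2, h1, h2, h3⟩ := ih _ h
      refine ⟨s :: w1, w2, by rw [h1, List.cons_append], h2, ?_⟩
      rw [h3, List.prod_cons, mul_inv_rev, mul_assoc]

lemma exists_split (w : List G) (x : G) (h : ¬ (vl w x).Nodup) :
    ∃ u v z : List G, w = u ++ v ++ z ∧ v ≠ [] ∧ z ≠ [] ∧ v.prod = 1 := by
  induction w generalizing x with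
  | nil => exact absurd List.nodup_nil h
  | cons s w ih =>
    rw [vl, List.nodup_cons, not_and_or, not_not] at h
    rcases h with h | h
    · obtain ⟨w1, w2, h1, h2, h3⟩ := mem_vl _ _ _ h
      refine ⟨[], s :: w1, w2, by rw [h1]; rfl, List.cons_ne_nil _ _, h2, ?_⟩
      have h4 : (s * w1.prod)⁻¹ * x = x := by
        rw [mul_inv_rev, mul_assoc]
        exact h3.symm
      rw [List.prod_cons, ← inv_eq_one]
      exact mul_eq_right.1 h4
    · obtain ⟨u, v, z, h1, h2, h3, h4⟩ := ih _ h
      exact ⟨s :: u, v, z, by rw [h1]; rfl, h2, h3, h4⟩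

lemma sq_chn (w : List G) (x : G) (h : (vl w x).Nodup) :
    sq (chn w x) ≤ w.length ∧ ∀ q ∈ (chn w x).support, q.2 ∈ vl w x := by
  classical
  induction w generalizing x with
  | nil =>
    constructor
    · simp [LibDehn83.sq, chn_nil]
    · intro q hq
      simp [chn_nil] at hq
  | cons s w ih =>
    rw [vl, List.nodup_cons] at h
    obtain ⟨h1, h2⟩ := ih _ h.2
    have h3 : (s, x) ∉ (chn w (s⁻¹ * x)).support := fun h4 => h.1 (h2 _ h4)
    constructor
    · rw [chn_cons]
      have h5 : sq (Finsupp.single (s, x) (1 : ℤ) + chn w (s⁻¹ * x)) =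
          ∑ p ∈ insert (s, x) (chn w (s⁻¹ * x)).support,
            (((Finsupp.single (s, x) (1 : ℤ) + chn w (s⁻¹ * x)) p : ℤ) : ℝ) ^ 2 := by
        refine P1_sq _ _ ?_
        refine (Finsupp.support_add).trans ?_
        intro p hp
        rcases Finset.mem_union.1 hp with hp | hp
        · have := Finsupp.support_single_subset hp
          rw [Finset.mem_singleton] at this
          rw [this]
          exact Finset.mem_insert_self _ _
        · exact Finset.mem_insert_of_mem hp
      rw [h5, Finset.sum_insert h3]
      have h6 : (((Finsupp.single (s, x) (1 : ℤ) + chn w (s⁻¹ * x)) (s, x) : ℤ) : ℝ) ^ 2 = 1 := by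
        rw [Finsupp.add_apply, Finsupp.single_eq_same, Finsupp.notMem_support_iff.1 h3]
        norm_num
      have h7 : ∑ p ∈ (chn w (s⁻¹ * x)).support,
          (((Finsupp.single (s, x) (1 : ℤ) + chn w (s⁻¹ * x)) p : ℤ) : ℝ) ^ 2 =
          sq (chn w (s⁻¹ * x)) := by
        refine Finset.sum_congr rfl fun p hp => ?_
        have h8 : p ≠ (s, x) := fun h9 => h3 (h9 ▸ hp)
        rw [Finsupp.add_apply, Finsupp.single_eq_of_ne h8, zero_add]
      rw [h6, h7, List.length_cons]
      push_cast
      linarith
    · intro q hq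
      rw [chn_cons] at hq
      rw [vl, List.mem_cons]
      rcases Finset.mem_union.1 (Finsupp.support_add hq) with hq | hq
      · have := Finsupp.support_single_subset hq
        rw [Finset.mem_singleton] at this
        left
        rw [this]
      · right
        exact h2 _ hq

/-- the Dehn function is linear. -/
theorem lin_dehn [DecidableEq G] {S : Finset G} (hS : Sys S)
    (h : ∃ C : ℝ, ∀ T : Tri G →₀ ℤ, InS S T → ∃ T' : Tri G →₀ ℤ, InS S T' ∧ bdry T' = bdry T ∧
      sq T' ≤ C * sq (bdry T)) :
    ∃ C : ℝ, ∀ w, Loop S w → Ar S w (C * w.length) := by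
  obtain ⟨C, hC⟩ := h
  refine ⟨max C 0, ?_⟩
  have key : ∀ (n : ℕ) (w : List G), w.length = n → Loop S w → Ar S w (max C 0 * w.length) := by
    intro n
    induction n using Nat.strong_induction_on with
    | _ n ih =>
      intro w hn hw
      by_cases hnd : (vl w 1).Nodup
      · obtain ⟨T, h1, h2⟩ := hS.fill w hw
        obtain ⟨T', h3, h4, h5⟩ := hC T h1
        refine ⟨T', h3, h4.trans h2, (mass_le_sq T').trans ?_⟩
        have h6 := (sq_chn w 1 hnd).1
        rw [h2] at h5
        have h7 : 0 ≤ sq (chn w (1 : G)) := Finset.sum_nonneg fun _ _ => sq_nonneg _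
        calc ∑ p ∈ T'.support, ((T' p : ℤ) : ℝ) ^ 2 ≤ C * sq (chn w (1 : G)) := h5
          _ ≤ max C 0 * sq (chn w (1 : G)) := mul_le_mul_of_nonneg_right (le_max_left _ _) h7
          _ ≤ max C 0 * w.length := mul_le_mul_of_nonneg_left h6 (le_max_right _ _)
      · obtain ⟨u, v, z, h1, h2, h3, h4⟩ := exists_split w 1 hnd
        have hlen : w.length = u.length + v.length + z.length := by
          rw [h1, List.length_append, List.length_append]
        have hv : 0 < v.length := List.length_pos_of_ne_nil h2
        have hz : 0 < z.length := List.length_pos_of_ne_nil h3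
        have hpr : (u ++ z).prod = 1 := by
          have h5 := hw.2
          rw [h1, List.prod_append, List.prod_append, h4, mul_one] at h5
          rw [List.prod_append]
          exact h5
        have hlv : Loop S v := ⟨fun s hs => hw.1 s (by
          rw [h1]
          simp [hs]), h4⟩
        have hluz : Loop S (u ++ z) := ⟨fun s hs => hw.1 s (by
          rw [h1]
          rw [List.mem_append] at hs
          rcases hs with hs | hs <;> simp [hs]), hpr⟩
        have a1 := ih v.length (by omega) v rfl hlv
        have a2 := ih (u ++ z).length (by rw [List.length_append]; omega) (u ++ z) rfl hluz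
        have a3 := Ar.two h4 a1 a2
        rw [h1]
        refine a3.mono (le_of_eq ?_)
        rw [← mul_add]
        congr 1
        simp only [List.length_append]
        push_cast
        ring
  exact fun w hw => key w.length w rfl hw

end Pool.Agent.LibRD47.RF7
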