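import Pool.Agent.LibRD47.Base

set_option autoImplicit false

namespace Pool.Agent.LibRD47.RA3

open Pool.Agent.LibZIS Pool.Agent.LibCod83 Pool.Agent.LibQF83 Pool.Agent.LibRD47 Filter Topology

universe v

variable {G B : Type} [Group G] [Group B] {c : CE G B}


theorem tv_of (h : ∀ (s : ACoc c) (b : G → V c), (∀ g h, b (g * h) = b g + opV s g (b h)) →
    ∃ v, ∀ g, b g = opV s g v - v) : TV c := by
  intro s n hn hc
  choose b hb e using fun g => (hn g).exists_loc
  have hbc : ∀ g h, Nul (b (g * h) - (b g + opB s g (b h))) := fun g h => by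
    refine nul_of_dn (hc g h) fun r x => ?_
    have h2 : (b (g * h) - (b g + opB s g (b h))) r x =
      b (g * h) r x - (b g r x + s.σ g r x * b h r (g⁻¹ * x)) := rfl
    rw [h2, ← e, ← e, ← e]
    ring
  obtain ⟨v', hv0⟩ := h s (fun g => cl c (b g) (hb g)) (fun g k => by
    rw [opV_cl, cl_add, cl_eq_iff']
    exact hbc g k)
  obtain ⟨v, hv, rfl⟩ := cl_surj c v'
  have hv' : ∀ g, Nul (b g - (opB s g v - v)) := fun g => by
    have h2 := hv0 g
    rw [opV_cl, cl_sub, cl_eq_iff'] at h2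
    exact h2
  refine ⟨fun r x => ((√(c.a r) : ℝ) : ℂ) * v r x, DL.of_loc hv, fun g => ?_⟩
  have h3 := DN.of_nul (c := c) (hv' g)
  have h4 : (fun r x => ((√(c.a r) : ℝ) : ℂ) * (b g - (opB s g v - v)) r x) =
      fun r x => n g r x - (s.σ g r x * (((√(c.a r) : ℝ) : ℂ) * v r (g⁻¹ * x)) -
        ((√(c.a r) : ℝ) : ℂ) * v r x) := by
    funext r x
    have h2 : (b g - (opB s g v - v)) r x =
      b g r x - (s.σ g r x * v r (g⁻¹ * x) - v r x) := rfl
    rw [h2, ← e]
    ring
  rw [h4] at h3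
  exact h3

end Pool.Agent.LibRD47.RA3
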