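import Pool.Agent.LibRD47.TwD

set_option autoImplicit false

namespace Pool.Agent.LibRD47.RT2

open Pool.Agent.LibZIS Pool.Agent.LibCod83 Pool.Agent.LibQF83 Pool.Agent.LibDehn83
open Pool.Agent.LibRD47 Filter Topology
open scoped Pointwise

universe v

variable {G : Type} [Group G]


/-- commuting subgroups. -/
private lemma rt2_comm {W : Type} [NormedAddCommGroup W] [NormedSpace ℂ W]
    [CompleteSpace W] (ρ : G →* (W →L[ℂ] W)) {H K : Subgroup G} (hH : NonAm H)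
    (hcomm : ∀ h ∈ H, ∀ k ∈ K, h * k = k * h)
    (hK : ∀ (F : Finset G) (p : G → ℝ) (q : ℝ), (∀ g ∈ F, 0 ≤ p g) →
      (∀ ξ : Raw.L2 G, ‖∑ g ∈ F, ((p g : ℝ) : ℂ) • (Raw.tr g ξ : Raw.L2 G)‖ ≤ q * ‖ξ‖) →
      ∀ v : W, ‖∑ g ∈ F, ((p g : ℝ) : ℂ) • ρ g v‖ ≤ q * ‖v‖)
    (b : G → W) (hb : ∀ g h, b (g * h) = b g + ρ g (b h)) :
    ∃ v, ∀ k ∈ K, b k = ρ k v - v := by
  obtain ⟨F, p, q, hF, hp, hsum, hq, hξ⟩ := hH
  have h1 := hK F p q hp hξ
  let P : W →L[ℂ] W := ∑ g ∈ F, ((p g : ℝ) : ℂ) • ρ g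
  have hP : ∀ v, P v = ∑ g ∈ F, ((p g : ℝ) : ℂ) • ρ g v := by
    intro v
    show (∑ g ∈ F, ((p g : ℝ) : ℂ) • ρ g) v = _
    rw [ContinuousLinearMap.sum_apply]
    rfl
  have hPn : ‖P‖ ≤ max q 0 := by
    refine ContinuousLinearMap.opNorm_le_bound _ (le_max_right _ _) fun v => ?_
    rw [hP]
    exact (h1 v).trans (mul_le_mul_of_nonneg_right (le_max_left _ _) (norm_nonneg _))
  have hPlt : ‖P‖ < 1 := lt_of_le_of_lt hPn (max_lt hq one_pos)
  obtain ⟨U, hU⟩ := isUnit_one_sub_of_norm_lt_one hPlt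
  let bμ : W := ∑ g ∈ F, ((p g : ℝ) : ℂ) • b g
  have hsumC : ∑ g ∈ F, ((p g : ℝ) : ℂ) = 1 := by
    rw [← Complex.ofReal_sum, hsum, Complex.ofReal_one]
  have key : ∀ k ∈ K, b k - P (b k) = bμ - ρ k bμ := by
    intro k hk
    have h2 : ∀ h ∈ F, b k - ρ h (b k) = b h - ρ k (b h) := by
      intro h hh
      have h3 : b h + ρ h (b k) = b k + ρ k (b h) := by
        rw [← hb, ← hb, hcomm h (hF h hh) k hk]
      have h4 : b k - ρ h (b k) - (b h - ρ k (b h)) = (b k + ρ k (b h)) - (b h + ρ h (b k)) := by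
        abel
      rw [← sub_eq_zero, h4, h3, sub_self]
    have h5 : ∑ g ∈ F, ((p g : ℝ) : ℂ) • (b k - ρ g (b k)) = b k - P (b k) := by
      rw [hP]
      simp only [smul_sub, Finset.sum_sub_distrib]
      rw [← Finset.sum_smul, hsumC, one_smul]
    have h6 : ∑ g ∈ F, ((p g : ℝ) : ℂ) • (b g - ρ k (b g)) = bμ - ρ k bμ := by
      simp only [smul_sub, Finset.sum_sub_distrib]
      show bμ - _ = bμ - ρ k (∑ g ∈ F, ((p g : ℝ) : ℂ) • b g)
      rw [map_sum]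
      simp only [map_smul]
    rw [← h5, ← h6]
    exact Finset.sum_congr rfl fun g hg => by rw [h2 g hg]
  have hcm : ∀ k ∈ K, Commute (ρ k) ((↑U⁻¹ : W →L[ℂ] W)) := by
    intro k hk
    have h2 : Commute (ρ k) P := by
      refine Commute.sum_right _ _ _ fun g hg => ?_
      refine Commute.smul_right ?_ _
      show ρ k * ρ g = ρ g * ρ k
      rw [← map_mul, ← map_mul, hcomm g (hF g hg) k hk]
    have h3 : Commute (ρ k) (U : W →L[ℂ] W) := by
      rw [hU]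
      exact (Commute.one_right _).sub_right h2
    exact h3.units_inv_right
  refine ⟨-((↑U⁻¹ : W →L[ℂ] W) bμ), fun k hk => ?_⟩
  have h2 : (U : W →L[ℂ] W) (b k) = bμ - ρ k bμ := by
    rw [hU, ← key k hk]
    rfl
  have h3 : b k = (↑U⁻¹ : W →L[ℂ] W) ((U : W →L[ℂ] W) (b k)) := by
    have h4 : (↑U⁻¹ : W →L[ℂ] W) * (U : W →L[ℂ] W) = 1 := U.inv_mul
    have h5 := congrArg (fun A : W →L[ℂ] W => A (b k)) h4
    exact h5.symm
  have h6 : (↑U⁻¹ : W →L[ℂ] W) (ρ k bμ) = ρ k ((↑U⁻¹ : W →L[ℂ] W) bμ) := by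
    have h7 : ρ k * (↑U⁻¹ : W →L[ℂ] W) = (↑U⁻¹ : W →L[ℂ] W) * ρ k := hcm k hk
    have h8 := congrArg (fun A : W →L[ℂ] W => A bμ) h7
    exact h8.symm
  rw [h3, h2, map_sub, h6, map_neg]
  abel

/-- propagation. -/
private lemma rt2_prop {W : Type} [NormedAddCommGroup W] [NormedSpace ℂ W]
    (ρ : G →* (W →L[ℂ] W)) {K : Subgroup G}
    (hK : ∀ (F : Finset G) (p : G → ℝ) (q : ℝ), (∀ g ∈ F, 0 ≤ p g) →
      (∀ ξ : Raw.L2 G, ‖∑ g ∈ F, ((p g : ℝ) : ℂ) • (Raw.tr g ξ : Raw.L2 G)‖ ≤ q * ‖ξ‖) →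
      ∀ v : W, ‖∑ g ∈ F, ((p g : ℝ) : ℂ) • ρ g v‖ ≤ q * ‖v‖)
    (b : G → W) (hb : ∀ g h, b (g * h) = b g + ρ g (b h)) (h0 : ∀ k ∈ K, b k = 0)
    {L : Subgroup G} (hL : Reach K L) : ∀ k ∈ L, b k = 0 := by
  have hb1 : b 1 = 0 := by
    have h1 := hb 1 1
    rw [mul_one, map_one] at h1
    have h2 : b 1 = b 1 + b 1 := h1
    exact left_eq_add.mp h2
  induction hL with
  | base => exact h0
  | step L g hL hg ih =>
    have hgz : b g = 0 := by
      obtain ⟨F, p, q, hF, hp, hsum, hq, hξ⟩ := hg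
      have h1 : ∀ c ∈ F, ρ c (b g) = b g := by
        intro c hc
        obtain ⟨hc1, hc2⟩ := hF c hc
        obtain ⟨d, hd, hdc⟩ := hc2
        have hdc' : g * d * g⁻¹ = c := hdc
        have h2 : c * g = g * d := by
          rw [← hdc']
          group
        have h3 : b (c * g) = b (g * d) := by rw [h2]
        rw [hb, hb, ih c hc1, ih d hd, map_zero, zero_add, add_zero] at h3
        exact h3
      have h2 := hK F p q hp hξ (b g)
      have h3 : ∑ c ∈ F, ((p c : ℝ) : ℂ) • ρ c (b g) = b g := by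
        have h4 : ∑ c ∈ F, ((p c : ℝ) : ℂ) • ρ c (b g) = ∑ c ∈ F, ((p c : ℝ) : ℂ) • b g :=
          Finset.sum_congr rfl fun c hc => by rw [h1 c hc]
        rw [h4, ← Finset.sum_smul, ← Complex.ofReal_sum, hsum, Complex.ofReal_one, one_smul]
      rw [h3] at h2
      have h5 : ‖b g‖ = 0 := by
        by_contra h6
        have h7 : 0 < ‖b g‖ := lt_of_le_of_ne (norm_nonneg _) (Ne.symm h6)
        nlinarith
      exact norm_eq_zero.1 h5
    let M : Subgroup G :=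
      { carrier := {x | b x = 0}
        one_mem' := hb1
        mul_mem' := by
          intro x y hx hy
          have hx' : b x = 0 := hx
          have hy' : b y = 0 := hy
          show b (x * y) = 0
          rw [hb, hx', hy', map_zero, add_zero]
        inv_mem' := by
          intro x hx
          have hx' : b x = 0 := hx
          show b x⁻¹ = 0
          have h1 := hb x⁻¹ x
          rw [inv_mul_cancel, hb1, hx', map_zero, add_zero] at h1
          exact h1.symm }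
    have hM : L ⊔ Subgroup.zpowers g ≤ M := by
      refine sup_le ?_ ?_
      · exact fun x hx => ih x hx
      · rw [Subgroup.zpowers_le]
        exact hgz
    exact fun k hk => hM hk

theorem cob_of_comm {W : Type} [NormedAddCommGroup W] [NormedSpace ℂ W]
    [CompleteSpace W] (ρ : G →* (W →L[ℂ] W)) (hG : Comm G)
    (hK : ∀ (F : Finset G) (p : G → ℝ) (q : ℝ), (∀ g ∈ F, 0 ≤ p g) →
      (∀ ξ : Raw.L2 G, ‖∑ g ∈ F, ((p g : ℝ) : ℂ) • (Raw.tr g ξ : Raw.L2 G)‖ ≤ q * ‖ξ‖) →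
      ∀ v : W, ‖∑ g ∈ F, ((p g : ℝ) : ℂ) • ρ g v‖ ≤ q * ‖v‖)
    (b : G → W) (hb : ∀ g h, b (g * h) = b g + ρ g (b h)) :
    ∃ v, ∀ g, b g = ρ g v - v := by
  obtain ⟨H, K, hH, -, hcomm, hreach⟩ := hG
  obtain ⟨v, hv⟩ := rt2_comm ρ hH hcomm hK b hb
  refine ⟨v, fun g => ?_⟩
  let b' : G → W := fun g => b g - (ρ g v - v)
  have hb' : ∀ g h, b' (g * h) = b' g + ρ g (b' h) := by
    intro g h
    show b (g * h) - (ρ (g * h) v - v) = b g - (ρ g v - v) + ρ g (b h - (ρ h v - v))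
    rw [hb, map_mul]
    have h1 : (ρ g * ρ h) v = ρ g (ρ h v) := rfl
    rw [h1, map_sub, map_sub]
    abel
  have h0 : ∀ k ∈ K, b' k = 0 := fun k hk => sub_eq_zero.2 (hv k hk)
  have h2 := rt2_prop ρ hK b' hb' h0 hreach g (Subgroup.mem_top g)
  exact sub_eq_zero.1 h2

end Pool.Agent.LibRD47.RT2
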