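import Pool.Agent.LibRD47.TwD

set_option autoImplicit false

namespace Pool.Agent.LibRD47.RT3

open Pool.Agent.LibZIS Pool.Agent.LibCod83 Pool.Agent.LibQF83 Pool.Agent.LibDehn83
open Pool.Agent.LibRD47 Filter Topology
open scoped Pointwise

universe v

variable {G : Type} [Group G]


/-- the absolute value. -/
private lemma rt3_abs (ξ : Raw.L2 G) : ∃ ζ : Raw.L2 G, ∀ x, ζ x = ((‖ξ x‖ : ℝ) : ℂ) := by
  have hs : Memℓp (fun x => ((‖ξ x‖ : ℝ) : ℂ)) 2 := by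
    refine memℓp_gen ?_
    have h1 : Summable fun x => ‖ξ x‖ ^ 2 := Raw.summable_sq ξ
    refine h1.congr fun x => ?_
    simp
  exact ⟨⟨_, hs⟩, fun x => rfl⟩

private lemma rt3_sum (F : Finset G) (f : G → Raw.L2 G) (x : G) :
    (∑ g ∈ F, f g : Raw.L2 G) x = ∑ g ∈ F, f g x := by
  classical
  induction F using Finset.induction_on with
  | empty => rfl
  | insert a F ha ih =>
    rw [Finset.sum_insert ha, Finset.sum_insert ha, ← ih]
    rfl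

private lemma rt3_op {B : Type} [Group B] {c : CE G B} (s : ACoc c) (F : Finset G) (p : G → ℝ)
    (q : ℝ) (hp : ∀ g ∈ F, 0 ≤ p g)
    (h : ∀ ξ : Raw.L2 G, ‖∑ g ∈ F, ((p g : ℝ) : ℂ) • (Raw.tr g ξ : Raw.L2 G)‖ ≤ q * ‖ξ‖)
    (r : ℕ) (ξ : Raw.L2 G) : ‖∑ g ∈ F, ((p g : ℝ) : ℂ) • opL s g r ξ‖ ≤ q * ‖ξ‖ := by
  obtain ⟨ζ, hζ⟩ := rt3_abs ξ
  have h1 : ‖ζ‖ = ‖ξ‖ := by
    refine le_antisymm (norm_le_of_le fun x => ?_) (norm_le_of_le fun x => ?_)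
    · rw [hζ]; simp
    · rw [hζ]; simp
  rw [← h1]
  refine le_trans (norm_le_of_le fun x => ?_) (h ζ)
  rw [rt3_sum, rt3_sum]
  have h2 : ∀ g ∈ F, ((((p g : ℝ) : ℂ) • (Raw.tr g ζ : Raw.L2 G) : Raw.L2 G)) x =
      ((p g * ‖ξ (g⁻¹ * x)‖ : ℝ) : ℂ) := by
    intro g _
    show ((p g : ℝ) : ℂ) * (Raw.tr g ζ : Raw.L2 G) x = _
    have h3 : (Raw.tr g ζ : Raw.L2 G) x = ζ (g⁻¹ * x) := rfl
    rw [h3, hζ]
    push_cast
    ring
  rw [Finset.sum_congr rfl h2, ← Complex.ofReal_sum]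
  have h4 : 0 ≤ ∑ g ∈ F, p g * ‖ξ (g⁻¹ * x)‖ :=
    Finset.sum_nonneg fun g hg => mul_nonneg (hp g hg) (norm_nonneg _)
  rw [Complex.norm_real, Real.norm_of_nonneg h4]
  refine (norm_sum_le _ _).trans (Finset.sum_le_sum fun g hg => ?_)
  have h5 : ((((p g : ℝ) : ℂ) • opL s g r ξ : Raw.L2 G)) x =
      ((p g : ℝ) : ℂ) * (s.σ g r x * ξ (g⁻¹ * x)) := rfl
  rw [h5, norm_mul, norm_mul, s.norm, one_mul, Complex.norm_real, Real.norm_of_nonneg (hp g hg)]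

theorem kato {B : Type} [Group B] {c : CE G B} (s : ACoc c) (F : Finset G) (p : G → ℝ) (q : ℝ)
    (hp : ∀ g ∈ F, 0 ≤ p g)
    (h : ∀ ξ : Raw.L2 G, ‖∑ g ∈ F, ((p g : ℝ) : ℂ) • (Raw.tr g ξ : Raw.L2 G)‖ ≤ q * ‖ξ‖)
    (v : V c) : ‖∑ g ∈ F, ((p g : ℝ) : ℂ) • opHom s g v‖ ≤ q * ‖v‖ := by
  classical
  obtain ⟨u, hu, rfl⟩ := cl_surj c v
  have hop := rt3_op s F p q hp h
  -- the sequence
  let w : BB G := ∑ g ∈ F, ((p g : ℝ) : ℂ) • opB s g u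
  have hw : Loc c w := (locS c).sum_mem fun g _ => (locS c).smul_mem _ (hu.op s g)
  have hwr : ∀ r, w r = ∑ g ∈ F, ((p g : ℝ) : ℂ) • opL s g r (u r) := by
    intro r
    have h3 : ((∑ g ∈ F, ((p g : ℝ) : ℂ) • opB s g u : BB G) : ∀ _ : ℕ, Raw.L2 G) =
        ∑ g ∈ F, ((((p g : ℝ) : ℂ) • opB s g u : BB G) : ∀ _ : ℕ, Raw.L2 G) :=
      map_sum (lp.coeFnAddMonoidHom (fun _ : ℕ => Raw.L2 G) ⊤) _ _
    show ((∑ g ∈ F, ((p g : ℝ) : ℂ) • opB s g u : BB G) : ∀ _ : ℕ, Raw.L2 G) r = _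
    rw [h3, Finset.sum_apply]
    rfl
  have h1 : ∑ g ∈ F, ((p g : ℝ) : ℂ) • opHom s g (cl c u hu) = cl c w hw := by
    have h2 : cl c w hw = (nul c).mkQ (∑ g ∈ F, ((p g : ℝ) : ℂ) • opS s g ⟨u, hu⟩) := by
      show (nul c).mkQ ⟨w, hw⟩ = _
      congr 1
      apply Subtype.ext
      rw [Submodule.coe_sum]
      rfl
    rw [h2, map_sum]
    refine Finset.sum_congr rfl fun g _ => ?_
    rw [map_smul]
    rfl
  rw [h1]
  by_cases hq : 0 ≤ q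
  · refine le_of_forall_pos_le_add fun η hη => ?_
    have hη' : 0 < η / (q + 1) := by positivity
    refine norm_cl_le c hw (by positivity) ?_
    filter_upwards [eventually_le c hu hη'] with r h4
    rw [hwr]
    refine (hop r (u r)).trans ?_
    have h5 : q * ‖u r‖ ≤ q * (‖cl c u hu‖ + η / (q + 1)) := mul_le_mul_of_nonneg_left h4 hq
    have h6 : q * (η / (q + 1)) ≤ η := by
      rw [mul_div_assoc', div_le_iff₀ (by linarith)]
      nlinarith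
    rw [mul_add] at h5
    linarith
  · push Not at hq
    have hu0 : ∀ r, ‖u r‖ = 0 := by
      intro r
      have h2 := (norm_nonneg _).trans (hop r (u r))
      by_contra h3
      have h4 : 0 < ‖u r‖ := lt_of_le_of_ne (norm_nonneg _) (Ne.symm h3)
      nlinarith
    have h2 : ‖cl c u hu‖ ≤ 0 :=
      norm_cl_le c hu le_rfl (Eventually.of_forall fun r => (hu0 r).le)
    have h3 : ‖cl c u hu‖ = 0 := le_antisymm h2 (norm_nonneg _)
    have h4 : ‖cl c w hw‖ ≤ 0 := by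
      refine norm_cl_le c hw le_rfl (Eventually.of_forall fun r => ?_)
      rw [hwr]
      refine (hop r (u r)).trans ?_
      rw [hu0, mul_zero]
    rw [h3, mul_zero]
    exact h4

end Pool.Agent.LibRD47.RT3
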