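import Pool.Agent.LibRD47.Base

set_option autoImplicit false

namespace Pool.Agent.LibRD47.RA1

open Pool.Agent.LibZIS Pool.Agent.LibCod83 Pool.Agent.LibQF83 Pool.Agent.LibRD47 Filter Topology

universe v

variable {G B : Type} [Group G] [Group B] {c : CE G B}


theorem norm_TW_le_of (s : ACoc c) (φ : MonoidAlgebra ℂ G) {M : ℝ} (hM : 0 ≤ M)
    (h : ∀ (K : Finset G) (C : ℝ) (u : BB G), Bd c K C u → ∀ η : ℝ, 0 < η →
      ∀ᶠ r in atTop, ‖∑ g ∈ φ.coeff.support, φ.coeff g • opL s g r (u r)‖ ≤ M * ‖u r‖ + η)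
    (v : V c) : ‖TW (opHom s) φ v‖ ≤ M * ‖v‖ := by
  classical
  obtain ⟨u, hu, rfl⟩ := cl_surj c v
  set S := φ.coeff.support with hS
  set A : ℝ := ∑ g ∈ S, ‖φ.coeff g‖ with hA
  have hA0 : 0 ≤ A := Finset.sum_nonneg fun g _ => norm_nonneg _
  have hT0 : 0 ≤ M := hM
  -- the sequence
  let w : BB G := ∑ g ∈ S, φ.coeff g • opB s g u
  have hw : Loc c w := (locS c).sum_mem fun g _ => (locS c).smul_mem _ (hu.op s g)
  have hwr : ∀ r, w r = ∑ g ∈ S, φ.coeff g • opL s g r (u r) := by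
    intro r
    have h3 : ((∑ g ∈ S, φ.coeff g • opB s g u : BB G) : ∀ _ : ℕ, Raw.L2 G) =
        ∑ g ∈ S, ((φ.coeff g • opB s g u : BB G) : ∀ _ : ℕ, Raw.L2 G) :=
      map_sum (lp.coeFnAddMonoidHom (fun _ : ℕ => Raw.L2 G) ⊤) _ _
    show ((∑ g ∈ S, φ.coeff g • opB s g u : BB G) : ∀ _ : ℕ, Raw.L2 G) r = _
    rw [h3, Finset.sum_apply]
    rfl
  have h1 : TW (opHom s) φ (cl c u hu) = cl c w hw := by
    rw [TW_apply]
    have h2 : cl c w hw = (nul c).mkQ (∑ g ∈ S, φ.coeff g • opS s g ⟨u, hu⟩) := by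
      show (nul c).mkQ ⟨w, hw⟩ = _
      congr 1
      apply Subtype.ext
      rw [Submodule.coe_sum]
      rfl
    rw [h2, map_sum]
    refine Finset.sum_congr rfl fun g _ => ?_
    rw [map_smul]
    rfl
  rw [h1]
  refine le_of_forall_pos_le_add fun η hη => ?_
  -- approximation
  set ε : ℝ := η / (4 * (A + M + 1)) with hε
  have hε0 : 0 < ε := by positivity
  obtain ⟨K, C, u', hu', hu1⟩ := hu ε hε0
  refine norm_cl_le c hw (by positivity) ?_
  filter_upwards [hu1, h K C u' hu' (η / 4) (by positivity),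
    eventually_le c hu hε0] with r h2 h3 h4
  rw [hwr]
  have e1 : ∑ g ∈ S, φ.coeff g • opL s g r (u r) =
      ∑ g ∈ S, φ.coeff g • opL s g r (u r - u' r) + ∑ g ∈ S, φ.coeff g • opL s g r (u' r) := by
    rw [← Finset.sum_add_distrib]
    refine Finset.sum_congr rfl fun g _ => ?_
    rw [← smul_add, ← map_add, sub_add_cancel]
  have e2 : ‖∑ g ∈ S, φ.coeff g • opL s g r (u r - u' r)‖ ≤ A * ε := by
    refine (norm_sum_le _ _).trans ?_
    rw [hA, Finset.sum_mul]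
    refine Finset.sum_le_sum fun g _ => ?_
    rw [norm_smul, norm_opL]
    exact mul_le_mul_of_nonneg_left h2 (norm_nonneg _)
  have e3 : ‖u' r‖ ≤ ‖u r‖ + ε := by
    have : u' r = u r - (u r - u' r) := by abel
    rw [this]
    exact (norm_sub_le _ _).trans (by linarith)
  have e4 : M * ‖u' r‖ ≤ M * ‖cl c u hu‖ + M * (2 * ε) := by
    rw [← mul_add]
    exact mul_le_mul_of_nonneg_left (by linarith) hT0
  have e5 : A * ε + M * (2 * ε) ≤ η / 2 := by
    calc A * ε + M * (2 * ε) ≤ 2 * ((A + M + 1) * ε) := by nlinarith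
      _ = η / 2 := by rw [hε]; field_simp; ring
  rw [e1]
  refine (norm_add_le _ _).trans ?_
  linarith

end Pool.Agent.LibRD47.RA1
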