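import Pool.Agent.LibRD47.TwD
import Pool.Agent.LibRD47.RA1

set_option autoImplicit false

namespace Pool.Agent.LibRD47.RT4

open Pool.Agent.LibRD47.RA1
open Pool.Agent.LibZIS Pool.Agent.LibCod83 Pool.Agent.LibQF83 Pool.Agent.LibDehn83
open Pool.Agent.LibRD47 Filter Topology
open scoped Pointwise

universe v

variable {G : Type} [Group G]


/-- one twisted translation. -/
noncomputable def mt (σ : G → G → ℂ) (hσ : ∀ g x, ‖σ g x‖ = 1) (g : G) :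
    Raw.L2 G →L[ℂ] Raw.L2 G :=
  (mulU (σ g) (hσ g)).toContinuousLinearMap * Raw.tr g

lemma mt_apply (σ : G → G → ℂ) (hσ : ∀ g x, ‖σ g x‖ = 1) (g : G) (ξ : Raw.L2 G) (x : G) :
    mt σ hσ g ξ x = σ g x * ξ (g⁻¹ * x) := rfl

lemma norm_mt (σ : G → G → ℂ) (hσ : ∀ g x, ‖σ g x‖ = 1) (g : G) (ξ : Raw.L2 G) :
    ‖mt σ hσ g ξ‖ = ‖ξ‖ := by
  have h1 : ‖mt σ hσ g ξ‖ =
      ‖(Raw.tr g ξ : Raw.L2 G)‖ := (mulU (σ g) (hσ g)).norm_map (Raw.tr g ξ)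
  rw [h1, Raw.norm_tr]

lemma twO_apply' (σ : G → G → ℂ) (hσ : ∀ g x, ‖σ g x‖ = 1) (f : MA G) (ξ : Raw.L2 G) :
    twO σ hσ f ξ = ∑ g ∈ f.coeff.support,
      f.coeff g • mt σ hσ g ξ := by
  rw [twO, sum_apply]
  rfl

lemma norm_twO_le (σ : G → G → ℂ) (hσ : ∀ g x, ‖σ g x‖ = 1) (f : MA G) (ξ : Raw.L2 G) :
    ‖twO σ hσ f ξ‖ ≤ l1 f * ‖ξ‖ := by
  rw [twO_apply', l1, Finset.sum_mul]
  refine (norm_sum_le _ _).trans (Finset.sum_le_sum fun g _ => ?_)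
  rw [norm_smul, norm_mt]

/-- local norms: the cocycle is almost a coboundary on the translates of `B`. -/
lemma local_norm (σ : G → G → ℂ) (hσ : ∀ g x, ‖σ g x‖ = 1) (f : MA G) (B : Finset G) {δ : ℝ}
    (hδ : 0 ≤ δ) (D : Set G)
    (hD : ∀ y ∈ D, ∀ g ∈ f.coeff.support, ∀ b ∈ B,
      ‖σ (g * b) (g * y) - σ g (g * y) * σ b y‖ ≤ δ) (x : G) (ξ : Raw.L2 G) :
    ‖twO σ hσ f (cut (D ∩ {y | y * x⁻¹ ∈ B}) ξ)‖ ≤ (‖Raw.T G G f‖ + δ * l1 f) * ‖ξ‖ := by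
  set D' : Set G := D ∩ {y | y * x⁻¹ ∈ B} with hD'
  set ζ : Raw.L2 G := cut D' ξ with hζ
  have hζn : ‖ζ‖ ≤ ‖ξ‖ := norm_cut_le _ _
  set φ : G → ℂ := fun z => σ (z * x⁻¹) z with hφ
  have hφ1 : ∀ z, ‖φ z‖ = 1 := fun z => hσ _ _
  have hφ2 : ∀ z, ‖(starRingEnd ℂ) (φ z)‖ = 1 := fun z => by
    rw [RCLike.norm_conj]; exact hσ _ _
  set U := mulU φ hφ1 with hU
  set U' := mulU (fun z => (starRingEnd ℂ) (φ z)) hφ2 with hU'
  have h1 : ∀ g ∈ f.coeff.support,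
      ‖mt σ hσ g ζ -
        U (Raw.tr g (U' ζ))‖ ≤ δ * ‖ζ‖ := by
    intro g hg
    have h2 : δ * ‖ζ‖ = ‖((δ : ℝ) : ℂ) • (Raw.tr g ζ : Raw.L2 G)‖ := by
      rw [norm_smul, Complex.norm_real, Real.norm_eq_abs, abs_of_nonneg hδ, Raw.norm_tr]
    rw [h2]
    refine norm_le_of_le fun z => ?_
    show ‖σ g z * ζ (g⁻¹ * z) - φ z * ((starRingEnd ℂ) (φ (g⁻¹ * z)) * ζ (g⁻¹ * z))‖ ≤
      ‖((δ : ℝ) : ℂ) * ζ (g⁻¹ * z)‖
    have h3 : σ g z * ζ (g⁻¹ * z) - φ z * ((starRingEnd ℂ) (φ (g⁻¹ * z)) * ζ (g⁻¹ * z)) =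
      (σ g z - φ z * (starRingEnd ℂ) (φ (g⁻¹ * z))) * ζ (g⁻¹ * z) := by ring
    rw [h3, norm_mul, norm_mul, Complex.norm_real, Real.norm_eq_abs, abs_of_nonneg hδ]
    by_cases hy : g⁻¹ * z ∈ D'
    · refine mul_le_mul_of_nonneg_right ?_ (norm_nonneg _)
      set y := g⁻¹ * z with hyz
      have hz : z = g * y := by rw [hyz, mul_inv_cancel_left]
      have h4 := hD y hy.1 g hg (y * x⁻¹) hy.2
      have h5 : φ z = σ (g * (y * x⁻¹)) (g * y) := by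
        show σ (z * x⁻¹) z = _
        rw [hz, mul_assoc]
      have h6 : φ y = σ (y * x⁻¹) y := rfl
      rw [← h5, ← h6, ← hz] at h4
      have h7 : φ y * (starRingEnd ℂ) (φ y) = 1 := by
        rw [Complex.mul_conj, Complex.normSq_eq_norm_sq, hφ1]
        norm_num
      have h8 : σ g z - φ z * (starRingEnd ℂ) (φ y) =
          -((φ z - σ g z * φ y) * (starRingEnd ℂ) (φ y)) := by
        have : σ g z = σ g z * (φ y * (starRingEnd ℂ) (φ y)) := by rw [h7, mul_one]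
        calc σ g z - φ z * (starRingEnd ℂ) (φ y)
            = σ g z * (φ y * (starRingEnd ℂ) (φ y)) - φ z * (starRingEnd ℂ) (φ y) := by
              rw [h7, mul_one]
          _ = _ := by ring
      rw [h8, norm_neg, norm_mul, hφ2, mul_one]
      exact h4
    · rw [hζ, cut_of_not_mem hy, norm_zero, mul_zero, mul_zero]
  have h2 : twO σ hσ f ζ - U (Raw.T G G f (U' ζ)) = ∑ g ∈ f.coeff.support, f.coeff g •
      (mt σ hσ g ζ - U (Raw.tr g (U' ζ))) := by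
    rw [twO_apply', Raw.T_apply, map_sum, ← Finset.sum_sub_distrib]
    refine Finset.sum_congr rfl fun g _ => ?_
    rw [map_smul, smul_sub]
  have h3 : ‖twO σ hσ f ζ - U (Raw.T G G f (U' ζ))‖ ≤ δ * l1 f * ‖ζ‖ := by
    rw [h2]
    refine (norm_sum_le _ _).trans ?_
    have h4 : δ * l1 f * ‖ζ‖ = ∑ g ∈ f.coeff.support, ‖f.coeff g‖ * (δ * ‖ζ‖) := by
      rw [← Finset.sum_mul]
      show _ = l1 f * (δ * ‖ζ‖)
      ring
    rw [h4]
    refine Finset.sum_le_sum fun g hg => ?_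
    rw [norm_smul]
    exact mul_le_mul_of_nonneg_left (h1 g hg) (norm_nonneg _)
  have h4 : ‖U (Raw.T G G f (U' ζ))‖ ≤ ‖Raw.T G G f‖ * ‖ζ‖ := by
    rw [U.norm_map]
    refine ((Raw.T G G f).le_opNorm _).trans ?_
    rw [U'.norm_map]
  have h5 : twO σ hσ f ζ = (twO σ hσ f ζ - U (Raw.T G G f (U' ζ))) +
      U (Raw.T G G f (U' ζ)) := by abel
  have hl := l1_nonneg f
  calc ‖twO σ hσ f ζ‖ ≤ δ * l1 f * ‖ζ‖ + ‖Raw.T G G f‖ * ‖ζ‖ := by
        rw [h5]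
        exact (norm_add_le _ _).trans (add_le_add h3 h4)
    _ = (‖Raw.T G G f‖ + δ * l1 f) * ‖ζ‖ := by ring
    _ ≤ (‖Raw.T G G f‖ + δ * l1 f) * ‖ξ‖ := by
        refine mul_le_mul_of_nonneg_left hζn ?_
        positivity

/-- the part of a bounded sequence on which the cocycle identity fails is null. -/
lemma compl_le {a : ℕ → ℝ} {ha : ∀ r, 0 < a r} (s : ACoc (ce G a ha)) (F B : Finset G)
    {δ C₀ : ℝ} (hδ : 0 < δ) (r : ℕ) (u : Raw.L2 G) (hu : ∀ x, ‖u x‖ * √(a r) ≤ C₀)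
    (D : Set G) (hD : ∀ y, y ∉ D → ∃ g ∈ F, ∃ b ∈ B,
      δ < ‖s.σ (g * b) r (g * y) - s.σ g r (g * y) * s.σ b r y‖) :
    ‖u - cut D u‖ ^ 2 ≤ (C₀ / δ) ^ 2 * ∑ g ∈ F, ∑ b ∈ B, ‖s.δ g b r‖ ^ 2 := by
  have hC₀ : 0 ≤ C₀ := (mul_nonneg (norm_nonneg _) (Real.sqrt_nonneg _)).trans (hu 1)
  have hsum : ∀ g b, Summable fun y => ‖s.δ g b r (g * y)‖ ^ 2 := fun g b => by
    have := Raw.summable_sq (Raw.tr g⁻¹ (s.δ g b r) : Raw.L2 G)
    refine this.congr fun y => ?_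
    show ‖s.δ g b r ((g⁻¹)⁻¹ * y)‖ ^ 2 = _
    rw [inv_inv]
  have htsum : ∀ g b, ∑' y, ‖s.δ g b r (g * y)‖ ^ 2 = ‖s.δ g b r‖ ^ 2 := fun g b => by
    rw [← Raw.norm_tr g⁻¹ (s.δ g b r), Raw.norm_sq_eq]
    refine tsum_congr fun y => ?_
    show _ = ‖s.δ g b r ((g⁻¹)⁻¹ * y)‖ ^ 2
    rw [inv_inv]
  have hS : Summable fun y => (C₀ / δ) ^ 2 * ∑ g ∈ F, ∑ b ∈ B, ‖s.δ g b r (g * y)‖ ^ 2 :=
    (summable_sum fun g _ => summable_sum fun b _ => hsum g b).mul_left _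
  have hle : ∀ y, ‖(u - cut D u) y‖ ^ 2 ≤
      (C₀ / δ) ^ 2 * ∑ g ∈ F, ∑ b ∈ B, ‖s.δ g b r (g * y)‖ ^ 2 := by
    intro y
    by_cases hy : y ∈ D
    · have h0 : (u - cut D u) y = 0 := by
        show u y - cut D u y = 0
        rw [cut_of_mem hy, sub_self]
      rw [h0, norm_zero]
      have : 0 ≤ (C₀ / δ) ^ 2 * ∑ g ∈ F, ∑ b ∈ B, ‖s.δ g b r (g * y)‖ ^ 2 :=
        mul_nonneg (sq_nonneg _) (Finset.sum_nonneg fun g _ => Finset.sum_nonneg fun b _ =>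
          sq_nonneg _)
      simpa using this
    · obtain ⟨g, hg, b, hb, h1⟩ := hD y hy
      have h0 : (u - cut D u) y = u y := by
        show u y - cut D u y = u y
        rw [cut_of_not_mem hy, sub_zero]
      rw [h0]
      have h2 := s.mul g b r (g * y)
      rw [inv_mul_cancel_left] at h2
      have h3 : δ ≤ √(a r) * ‖s.δ g b r (g * y)‖ := h1.le.trans h2
      have h4 : ‖u y‖ ≤ C₀ / δ * ‖s.δ g b r (g * y)‖ := by
        rw [div_mul_eq_mul_div, le_div_iff₀ hδ]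
        calc ‖u y‖ * δ ≤ ‖u y‖ * (√(a r) * ‖s.δ g b r (g * y)‖) := by gcongr
          _ = (‖u y‖ * √(a r)) * ‖s.δ g b r (g * y)‖ := by ring
          _ ≤ C₀ * ‖s.δ g b r (g * y)‖ := by
            have := hu y
            gcongr
      calc ‖u y‖ ^ 2 ≤ (C₀ / δ * ‖s.δ g b r (g * y)‖) ^ 2 := by gcongr
        _ = (C₀ / δ) ^ 2 * ‖s.δ g b r (g * y)‖ ^ 2 := by ring
        _ ≤ (C₀ / δ) ^ 2 * ∑ g ∈ F, ∑ b ∈ B, ‖s.δ g b r (g * y)‖ ^ 2 := by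
          refine mul_le_mul_of_nonneg_left ?_ (sq_nonneg _)
          refine le_trans ?_ (Finset.single_le_sum
            (f := fun g => ∑ b ∈ B, ‖s.δ g b r (g * y)‖ ^ 2)
            (fun g _ => Finset.sum_nonneg fun b _ => sq_nonneg _) hg)
          exact Finset.single_le_sum (f := fun b => ‖s.δ g b r (g * y)‖ ^ 2)
            (fun b _ => sq_nonneg _) hb
  rw [Raw.norm_sq_eq]
  calc ∑' y, ‖(u - cut D u) y‖ ^ 2
      ≤ ∑' y, (C₀ / δ) ^ 2 * ∑ g ∈ F, ∑ b ∈ B, ‖s.δ g b r (g * y)‖ ^ 2 :=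
        (Raw.summable_sq (u - cut D u)).tsum_le_tsum hle hS
    _ = (C₀ / δ) ^ 2 * ∑ g ∈ F, ∑ b ∈ B, ‖s.δ g b r‖ ^ 2 := by
        rw [tsum_mul_left]
        congr 1
        rw [Summable.tsum_finsetSum fun g _ => summable_sum fun b _ => hsum g b]
        refine Finset.sum_congr rfl fun g _ => ?_
        rw [Summable.tsum_finsetSum fun b _ => hsum g b]
        exact Finset.sum_congr rfl fun b _ => htsum g b

theorem norm_of_subLoc [DecidableEq G] {S : Finset G} (hL : SubLoc S) (a : ℕ → ℝ)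
    (ha : ∀ r, 0 < a r) (s : ACoc (ce G a ha)) (ε : ℝ) (hε : 0 < ε) :
    ∃ C : ℝ, ∀ (n : ℕ) (f : MA G), f.coeff.support ⊆ S ^ n → ∀ v : V (ce G a ha),
      ‖TW (opHom s) f v‖ ≤ C * Real.exp (ε * n) * ‖Raw.T G G f‖ * ‖v‖ := by
  classical
  obtain ⟨C, hC⟩ := hL ε hε
  refine ⟨|C|, fun n f hf => ?_⟩
  obtain ⟨B, hB⟩ := hC n
  have hB' := hB f hf
  set E : ℝ := Real.exp (ε * n) with hE
  have hE0 : 0 < E := Real.exp_pos _
  have hA := l1_nonneg f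
  set A : ℝ := l1 f with hAdef
  refine norm_TW_le_of s f (by positivity) ?_
  intro K C₀ u hu η hη
  set δ : ℝ := η / (2 * (|C| * E * A * ‖u‖ + 1)) with hδdef
  have hun : 0 ≤ ‖u‖ := norm_nonneg _
  have hδ : 0 < δ := by positivity
  have hδ2 : |C| * E * (δ * A) * ‖u‖ ≤ η / 2 := by
    have h1 : |C| * E * (δ * A) * ‖u‖ = (|C| * E * A * ‖u‖) / (|C| * E * A * ‖u‖ + 1) * (η / 2) := by
      rw [hδdef]
      field_simp
    rw [h1]
    have h2 : (|C| * E * A * ‖u‖) / (|C| * E * A * ‖u‖ + 1) ≤ 1 := by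
      rw [div_le_one (by positivity)]
      linarith
    calc _ ≤ 1 * (η / 2) := by gcongr
      _ = η / 2 := one_mul _
  let D : ℕ → Set G := fun r => {y | ∀ g ∈ f.coeff.support, ∀ b ∈ B,
    ‖s.σ (g * b) r (g * y) - s.σ g r (g * y) * s.σ b r y‖ ≤ δ}
  have hlim : Tendsto (fun r => (C₀ / δ) ^ 2 *
      ∑ g ∈ f.coeff.support, ∑ b ∈ B, ‖s.δ g b r‖ ^ 2) atTop (𝓝 0) := by
    have h1 : Tendsto (fun r => ∑ g ∈ f.coeff.support, ∑ b ∈ B, ‖s.δ g b r‖ ^ 2) atTop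
        (𝓝 (∑ g ∈ f.coeff.support, ∑ b ∈ B, (0 : ℝ) ^ 2)) :=
      tendsto_finsetSum _ fun g _ => tendsto_finsetSum _ fun b _ => (s.lim g b).pow 2
    have h2 := h1.const_mul ((C₀ / δ) ^ 2)
    simpa using h2
  have hev := hlim.eventually (gt_mem_nhds (show 0 < (η / (2 * (A + 1))) ^ 2 by positivity))
  filter_upwards [hev] with r hr
  have hur : ∀ x, ‖u r x‖ * √(a r) ≤ C₀ := fun x => (hu r x).1
  have h1 : ‖u r - cut (D r) (u r)‖ ^ 2 ≤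
      (C₀ / δ) ^ 2 * ∑ g ∈ f.coeff.support, ∑ b ∈ B, ‖s.δ g b r‖ ^ 2 := by
    refine compl_le s f.coeff.support B hδ r (u r) hur (D r) fun y hy => ?_
    by_contra hcon
    push Not at hcon
    exact hy fun g hg b hb => hcon g hg b hb
  have h2 : ‖u r - cut (D r) (u r)‖ ≤ η / (2 * (A + 1)) :=
    le_of_sq_le_sq (h1.trans hr.le) (by positivity)
  have h3 : ∑ g ∈ f.coeff.support, f.coeff g • opL s g r (u r) =
      twO (fun g => s.σ g r) (fun g => s.norm g r) f (u r) := by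
    rw [twO_apply']
    rfl
  rw [h3]
  set T := twO (fun g => s.σ g r) (fun g => s.norm g r) f with hT
  have h4 : ‖T (u r - cut (D r) (u r))‖ ≤ η / 2 := by
    refine (norm_twO_le _ _ f _).trans ?_
    calc A * ‖u r - cut (D r) (u r)‖ ≤ (A + 1) * (η / (2 * (A + 1))) := by
          gcongr
          linarith
      _ = η / 2 := by field_simp
  have h5 := hB' (fun g => s.σ g r) (fun g => s.norm g r) (D r)
    (‖Raw.T G G f‖ + δ * A) (by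
      have : 0 ≤ δ * A := by positivity
      linarith)
    (fun x ξ => local_norm (fun g => s.σ g r) (fun g => s.norm g r) f B hδ.le (D r)
      (fun y hy g hg b hb => hy g hg b hb) x ξ) (u r)
  have h6 : C * E * (‖Raw.T G G f‖ + δ * A) * ‖u r‖ ≤
      |C| * E * (‖Raw.T G G f‖ + δ * A) * ‖u r‖ := by
    have := le_abs_self C
    gcongr
  have h7 : ‖u r‖ ≤ ‖u‖ := bb_apply_le u r
  have h8 : |C| * E * (δ * A) * ‖u r‖ ≤ η / 2 := by
    refine le_trans ?_ hδ2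
    gcongr
  have h9 : T (u r) = T (cut (D r) (u r)) + T (u r - cut (D r) (u r)) := by
    rw [map_sub]; abel
  rw [h9]
  refine (norm_add_le _ _).trans ?_
  have h10 : |C| * E * (‖Raw.T G G f‖ + δ * A) * ‖u r‖ =
      |C| * E * ‖Raw.T G G f‖ * ‖u r‖ + |C| * E * (δ * A) * ‖u r‖ := by ring
  linarith

end Pool.Agent.LibRD47.RT4
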