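import Pool.Agent.LibRD47.TwD

set_option autoImplicit false

namespace Pool.Agent.LibRD47.RT5

open Pool.Agent.LibZIS Pool.Agent.LibCod83 Pool.Agent.LibQF83 Pool.Agent.LibDehn83
open Pool.Agent.LibRD47 Filter Topology
open scoped Pointwise

universe v

variable {G : Type} [Group G]


theorem twO_apply (σ : G → G → ℂ) (hσ : ∀ g x, ‖σ g x‖ = 1) (f : MA G) (ξ : Raw.L2 G) (x : G) :
    twO σ hσ f ξ x = ∑ g ∈ f.coeff.support, f.coeff g * (σ g x * ξ (g⁻¹ * x)) := by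
  unfold twO
  rw [sum_apply]
  have h1 : ((∑ g ∈ f.coeff.support,
      (f.coeff g • ((mulU (σ g) (hσ g)).toContinuousLinearMap * Raw.tr g) :
        Raw.L2 G →L[ℂ] Raw.L2 G) ξ : Raw.L2 G) :
      ∀ _ : G, ℂ) = ∑ g ∈ f.coeff.support,
      (((f.coeff g • ((mulU (σ g) (hσ g)).toContinuousLinearMap * Raw.tr g) :
        Raw.L2 G →L[ℂ] Raw.L2 G) ξ : Raw.L2 G) :
        ∀ _ : G, ℂ) := by
    exact map_sum (lp.coeFnAddMonoidHom (fun _ : G => ℂ) 2) _ _
  rw [h1, Finset.sum_apply]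
  rfl

theorem two_le [DecidableEq G] (σ : G → G → ℂ) (hσ : ∀ g x, ‖σ g x‖ = 1) (f : MA G) (y : G) :
    √(∑ g ∈ f.coeff.support, ‖f.coeff g‖ ^ 2) ≤
      ‖twO σ hσ f (lp.single 2 y (1 : ℂ) : Raw.L2 G)‖ := by
  rw [Real.sqrt_le_left (norm_nonneg _), Raw.norm_sq_eq]
  have h1 : ∀ g ∈ f.coeff.support,
      ‖twO σ hσ f (lp.single 2 y (1 : ℂ) : Raw.L2 G) (g * y)‖ = ‖f.coeff g‖ := by
    intro g hg
    rw [twO_apply, Finset.sum_eq_single g]
    · rw [inv_mul_cancel_left, lp.single_apply_self, mul_one, norm_mul, hσ, mul_one]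
    · intro g' _ hne
      rw [lp.single_apply_ne, mul_zero, mul_zero]
      intro h
      apply hne
      have h2 : g' * (g'⁻¹ * (g * y)) = g' * y := by rw [h]
      rw [mul_inv_cancel_left] at h2
      exact (mul_right_cancel h2).symm
    · intro h
      exact absurd hg h
  have h2 : ∑ x ∈ f.coeff.support.image (fun g => g * y),
      ‖twO σ hσ f (lp.single 2 y (1 : ℂ) : Raw.L2 G) x‖ ^ 2 =
      ∑ g ∈ f.coeff.support, ‖f.coeff g‖ ^ 2 := by
    rw [Finset.sum_image (fun a _ b _ h => mul_right_cancel h)]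
    exact Finset.sum_congr rfl fun g hg => by rw [h1 g hg]
  rw [← h2]
  exact (Raw.summable_sq _).sum_le_tsum _ fun x _ => by positivity

/-- the element of the group algebra with the coefficients `‖f g‖`. -/
noncomputable def absM (f : MA G) : MA G :=
  ⟨f.coeff.mapRange (fun z : ℂ => ((‖z‖ : ℝ) : ℂ)) (by simp)⟩

theorem absM_coeff (f : MA G) (g : G) : (absM f).coeff g = ((‖f.coeff g‖ : ℝ) : ℂ) := by
  unfold absM
  simp only [Finsupp.mapRange_apply]

theorem absM_support (f : MA G) : (absM f).coeff.support = f.coeff.support := by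
  ext g
  rw [Finsupp.mem_support_iff, Finsupp.mem_support_iff, absM_coeff]
  simp

omit [Group G] in
theorem exists_abs (ξ : Raw.L2 G) : ∃ η : Raw.L2 G, (∀ x, η x = ((‖ξ x‖ : ℝ) : ℂ)) ∧
    ‖η‖ = ‖ξ‖ := by
  have h : Memℓp (fun x : G => ((‖ξ x‖ : ℝ) : ℂ)) 2 := memℓp_gen (by
    have h := (memℓp_gen_iff (by simp)).1 (lp.memℓp ξ)
    refine h.congr fun y => ?_
    simp)
  refine ⟨⟨_, h⟩, fun x => rfl, le_antisymm ?_ ?_⟩
  · refine norm_le_of_le fun x => ?_
    show ‖((‖ξ x‖ : ℝ) : ℂ)‖ ≤ ‖ξ x‖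
    simp
  · refine norm_le_of_le fun x => ?_
    show ‖ξ x‖ ≤ ‖((‖ξ x‖ : ℝ) : ℂ)‖
    simp

theorem norm_twO_le (σ : G → G → ℂ) (hσ : ∀ g x, ‖σ g x‖ = 1) (f : MA G) (D : Set G)
    (ξ η : Raw.L2 G) (hη : ∀ x, η x = ((‖ξ x‖ : ℝ) : ℂ)) :
    ‖twO σ hσ f (cut D ξ)‖ ≤ ‖Raw.T G G (absM f) η‖ := by
  refine norm_le_of_le fun x => ?_
  rw [twO_apply, Raw.T_apply_apply, absM_support]
  have h1 : ∑ g ∈ f.coeff.support, (absM f).coeff g * η (g⁻¹ • x) =
      ((∑ g ∈ f.coeff.support, ‖f.coeff g‖ * ‖ξ (g⁻¹ * x)‖ : ℝ) : ℂ) := by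
    rw [Complex.ofReal_sum]
    refine Finset.sum_congr rfl fun g _ => ?_
    rw [absM_coeff, hη, smul_eq_mul, Complex.ofReal_mul]
  rw [h1, Complex.norm_real, Real.norm_of_nonneg (Finset.sum_nonneg fun g _ => by positivity)]
  refine (norm_sum_le _ _).trans (Finset.sum_le_sum fun g _ => ?_)
  rw [norm_mul, norm_mul, hσ, one_mul]
  refine mul_le_mul_of_nonneg_left ?_ (norm_nonneg _)
  rw [cut_apply]
  split_ifs
  · exact le_rfl
  · rw [norm_zero]
    exact norm_nonneg _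

theorem len_le [DecidableEq G] {S : Finset G} {l : G → ℝ} (hl : ∀ g h, l (g * h) ≤ l g + l h)
    (n : ℕ) : ∀ g ∈ S ^ n, l g ≤ n * (∑ s ∈ S, |l s|) + |l 1| := by
  induction n with
  | zero =>
    intro g hg
    rw [pow_zero, Finset.mem_one] at hg
    rw [hg, Nat.cast_zero, zero_mul, zero_add]
    exact le_abs_self _
  | succ n ih =>
    intro g hg
    rw [pow_succ, Finset.mem_mul] at hg
    obtain ⟨a, ha, b, hb, rfl⟩ := hg
    have h1 := ih a ha
    have h2 := hl a b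
    have h3 : |l b| ≤ ∑ s ∈ S, |l s| :=
      Finset.single_le_sum (f := fun s => |l s|) (fun _ _ => abs_nonneg _) hb
    have h4 := le_abs_self (l b)
    rw [Nat.cast_succ]
    linarith

theorem subLoc_of_subRD [DecidableEq G] {S : Finset G} (h : SubRD G) : SubLoc S := by
  obtain ⟨l, hl, h⟩ := h
  intro ε hε
  set Λ : ℝ := ∑ s ∈ S, |l s| with hΛ
  have hΛ0 : 0 ≤ Λ := Finset.sum_nonneg fun _ _ => abs_nonneg _
  obtain ⟨C', hC'⟩ := h (ε / (Λ + 1)) (by positivity)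
  set ε' : ℝ := ε / (Λ + 1) with hε'
  have hε'0 : 0 < ε' := by positivity
  have hεΛ : ε' * Λ ≤ ε := by
    rw [hε', div_mul_eq_mul_div, div_le_iff₀ (by positivity)]
    nlinarith
  refine ⟨|C'| * Real.exp (ε' * |l 1|), fun n => ⟨{1}, ?_⟩⟩
  intro f hf σ hσ D N hN hloc ξ
  have hN0 : 0 ≤ N := (norm_nonneg _).trans hN
  rcases Set.eq_empty_or_nonempty D with hD | ⟨y, hy⟩
  · have h0 : cut D ξ = 0 := by
      ext x
      rw [cut_apply, if_neg]
      · rfl
      · rw [hD]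
        exact Set.notMem_empty x
    rw [h0, map_zero, norm_zero]
    positivity
  · have h1 : √(∑ g ∈ f.coeff.support, ‖f.coeff g‖ ^ 2) ≤ N := by
      have h2 := hloc y (lp.single 2 y (1 : ℂ) : Raw.L2 G)
      have h3 : cut (D ∩ {y' | y' * y⁻¹ ∈ ({1} : Finset G)}) (lp.single 2 y (1 : ℂ) : Raw.L2 G) =
          (lp.single 2 y (1 : ℂ) : Raw.L2 G) := by
        ext x
        rw [cut_apply]
        by_cases hx : x = y
        · rw [if_pos]
          rw [hx]
          refine ⟨hy, ?_⟩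
          show y * y⁻¹ ∈ ({1} : Finset G)
          rw [mul_inv_cancel]
          exact Finset.mem_singleton_self 1
        · rw [lp.single_apply_ne _ _ _ hx]
          split_ifs <;> rfl
      rw [h3, lp.norm_single (by norm_num), norm_one, mul_one] at h2
      exact (two_le σ hσ f y).trans h2
    obtain ⟨η, hη1, hη2⟩ := exists_abs ξ
    have h4 := norm_twO_le σ hσ f D ξ η hη1
    have hr : 0 ≤ (n : ℝ) * Λ + |l 1| := by positivity
    have h5 := hC' ((n : ℝ) * Λ + |l 1|) (absM f) hr (fun g hg => by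
      rw [absM_support] at hg
      exact len_le hl n g (hf hg)) η
    have h6 : ∑ g ∈ (absM f).coeff.support, ‖(absM f).coeff g‖ ^ 2 =
        ∑ g ∈ f.coeff.support, ‖f.coeff g‖ ^ 2 := by
      rw [absM_support]
      refine Finset.sum_congr rfl fun g _ => ?_
      rw [absM_coeff, Complex.norm_real, norm_norm]
    rw [h6, hη2] at h5
    have h7 : Real.exp (ε' * ((n : ℝ) * Λ + |l 1|)) ≤
        Real.exp (ε' * |l 1|) * Real.exp (ε * n) := by
      rw [← Real.exp_add, Real.exp_le_exp]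
      have h8 : (0 : ℝ) ≤ n := Nat.cast_nonneg n
      nlinarith
    calc ‖twO σ hσ f (cut D ξ)‖ ≤ ‖Raw.T G G (absM f) η‖ := h4
      _ ≤ C' * Real.exp (ε' * ((n : ℝ) * Λ + |l 1|)) *
            √(∑ g ∈ f.coeff.support, ‖f.coeff g‖ ^ 2) * ‖ξ‖ := h5
      _ ≤ |C'| * (Real.exp (ε' * |l 1|) * Real.exp (ε * n)) * N * ‖ξ‖ := by
          gcongr
          exact le_abs_self C'
      _ = |C'| * Real.exp (ε' * |l 1|) * Real.exp (ε * n) * N * ‖ξ‖ := by ring

end Pool.Agent.LibRD47.RT5
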