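import Pool.Agent.LibRD47.RT1
import Pool.Agent.LibRD47.RT2
import Pool.Agent.LibRD47.RT3
import Pool.Agent.LibRD47.RT4
import Pool.Agent.LibRD47.RT5
import Pool.Agent.LibRD47.RA3

/-!
Sufficient conditions for the twisted vanishing in degree one.
-/

set_option autoImplicit false

namespace Pool.Agent.LibRD47

open Pool.Agent.LibZIS Pool.Agent.LibCod83 Pool.Agent.LibQF83 Pool.Agent.LibDehn83 Filter Topology
open RT1 RT2 RT3 RT4 RT5 RA3
open scoped Pointwise

universe v

variable {G : Type} [Group G]

variable {E : Type v} [TopologicalSpace E] [PathConnectedSpace E]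
  [MulAction G E] [ContinuousConstSMul G E]

/-- twisted vanishing. -/
theorem tv_main [DecidableEq G] {S : Finset G} (hS : Sys S)
    (hfree : ∀ (g : G) (e : E), g • e = e → g = 1)
    (h0 : ¬ Nontrivial (Hgy (lam G) E 0)) (h1 : ¬ Nontrivial (Hgy (lam G) E 1))
    (h : SubRD G ∨ SubLoc S ∨ Comm G) (a : ℕ → ℝ) (ha : ∀ r, 0 < a r) : TV (ce G a ha) := by
  have key : SubLoc S ∨ Comm G := by
    rcases h with h | h | h
    · exact Or.inl (subLoc_of_subRD h)
    · exact Or.inl h
    · exact Or.inr h
  refine tv_of fun s b hb => ?_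
  rcases key with h | h
  · exact cob_of_norm (opHom s) hS
      (fun ε hε => agap1 (gap1 (E := E) hS hfree h0 h1) hε)
      (fun ε hε => norm_of_subLoc h a ha s ε hε) b hb
  · exact cob_of_comm (opHom s) h (kato s) b hb

end Pool.Agent.LibRD47
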