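import Pool.Agent.LibRD47.VanD

set_option autoImplicit false

namespace Pool.Agent.LibRD47.RM2

open Pool.Agent.LibZIS Pool.Agent.LibCod83 Pool.Agent.LibQF83 Pool.Agent.LibRD47 Filter Topology

variable {G B : Type} [Group G] [Group B] {c : CE G B}

/-- the second cohomology of the module vanishes if the approximate two-cocycles are
coboundaries. -/
theorem coh2_of (A : AddSubgroup ℝ)
    (h : ∀ u : G → G → ℕ → G → ℝ, (∀ g h, DL c (u g h)) → (∀ g h r x, u g h r x ∈ A) →
      (∀ g h k, DN c (fun r x => u h k r (g⁻¹ * x) - u (g * h) k r x + u g (h * k) r x -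
        u g h r x)) →
      ∃ m : G → ℕ → G → ℝ, (∀ g, DL c (m g)) ∧ (∀ g r x, m g r x ∈ A) ∧
        ∀ g h, DN c (fun r x => u g h r x - (m h r (g⁻¹ * x) - m (g * h) r x + m g r x))) :
    ¬ Nontrivial (groupCohomology (RA c A) 2) := by
  rw [not_nontrivial_iff_subsingleton]
  have key : ∀ x : groupCohomology (RA c A) 2, x = 0 := by
    intro x
    refine groupCohomology.H2_induction_on (A := RA c A) (C := fun x => x = 0) x fun f => ?_
    rw [groupCohomology.H2π_eq_zero_iff]
    have hf : ∀ g h k : G, repA c A g (f.1 (h, k)) - f.1 (g * h, k) + f.1 (g, h * k) -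
      f.1 (g, h) = 0 := (groupCohomology.mem_cocycles₂_def f.1).1 f.2
    choose u hu using fun g h => qm_surj A (f.1 (g, h))
    obtain ⟨m, hm1, hm2, hm3⟩ := h (fun g h => (u g h).1) (fun g h => (u g h).2.1)
      (fun g h => (u g h).2.2) (fun g h k => by
        have h3 := hf g h k
        rw [← hu, ← hu, ← hu, ← hu, repA_qm, ← map_sub, ← map_add, ← map_sub, qm_eq_zero] at h3
        exact h3)
    refine ⟨fun g => qm c A ⟨m g, hm1 g, hm2 g⟩, ?_⟩
    funext ⟨g, h⟩
    show repA c A g (qm c A ⟨m h, hm1 h, hm2 h⟩) - qm c A ⟨m (g * h), hm1 (g * h), hm2 (g * h)⟩ +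
      qm c A ⟨m g, hm1 g, hm2 g⟩ = f.1 (g, h)
    rw [← hu, repA_qm, ← map_sub, ← map_add, ← sub_eq_zero, ← neg_eq_zero, neg_sub, ← map_sub,
      qm_eq_zero]
    exact hm3 g h
  exact ⟨fun a b => by rw [key a, key b]⟩

end Pool.Agent.LibRD47.RM2
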