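import Pool.Agent.LibRD47.RV1
import Pool.Agent.LibRD47.RM2

/-!
Vanishing of the second cohomology of the modules of sequences.
-/

set_option autoImplicit false

namespace Pool.Agent.LibRD47

open Pool.Agent.LibZIS Pool.Agent.LibCod83 Pool.Agent.LibQF83 Filter Topology
open RV1 RM2

universe v

variable {G B : Type} [Group G] [Group B] {c : CE G B}

variable {E : Type v} [TopologicalSpace E] [PathConnectedSpace E]
  [MulAction G E] [ContinuousConstSMul G E]

/-- the second cohomology of the integral sequences. -/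
theorem coh2_int (hT : TV c) (hfree : ∀ (g : G) (e : E), g • e = e → g = 1) (hE : H1Zero E)
    (h0 : ¬ Nontrivial (Hgy (lam G) E 0)) (h1 : ¬ Nontrivial (Hgy (lam G) E 1))
    (h2 : ¬ Nontrivial (Hgy (lam G) E 2)) : ¬ Nontrivial (groupCohomology (RA c ZI) 2) := by
  refine coh2_of ZI fun u hu hi huc => ?_
  obtain ⟨m, e1, e2, e3⟩ := rvan2 hT hfree hE h0 h1 h2 u hu
    (fun g h r x => (mem_ZI _).1 (hi g h r x)) huc
  exact ⟨m, e1, fun g r x => (mem_ZI _).2 (e2 g r x), e3⟩

/-- the second cohomology of the real sequences. -/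
theorem coh2_real (hfree : ∀ (g : G) (e : E), g • e = e → g = 1) (hE : H1Zero E)
    (h0 : ¬ Nontrivial (Hgy (lam G) E 0)) (h1 : ¬ Nontrivial (Hgy (lam G) E 1))
    (h2 : ¬ Nontrivial (Hgy (lam G) E 2)) : ¬ Nontrivial (groupCohomology (RA c ⊤) 2) := by
  refine coh2_of ⊤ fun u hu _ huc => ?_
  obtain ⟨m, e1, e3⟩ := rreal2 hfree hE h0 h1 h2 u hu huc
  exact ⟨m, e1, fun g r x => AddSubgroup.mem_top _, e3⟩

end Pool.Agent.LibRD47
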