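import Pool.Agent.LibRD47.RF6
import Pool.Agent.LibRD47.RF7
import Pool.Agent.LibRD47.Tw
import Pool.Agent.LibRD47.Van

/-!
Four dimensional duality groups with rapid decay.
-/

set_option autoImplicit false

namespace Pool.Agent.LibRD47

open Pool.Agent.LibZIS Pool.Agent.LibCod83 Pool.Agent.LibQF83 Pool.Agent.LibDehn83 Filter Topology
open RF6 RF7
open scoped Pointwise CategoryTheory

universe v

variable {G : Type} [Group G] [DecidableEq G] {E : Type v} [TopologicalSpace E]
  [PathConnectedSpace E] [MulAction G E] [ContinuousConstSMul G E]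

/-- the main theorem. -/
theorem main (hfree : ∀ (g : G) (e : E), g • e = e → g = 1) (hE : H1Zero E)
    (hG : ∀ M : Rep.{0} ℤ G, Nonempty (groupCohomology M 2 ≅ groupHomology M 2))
    (S : Finset G) (hS : Sys S) (h : SubRD G ∨ SubLoc S ∨ Comm G)
    (hlin : ¬ ∃ C : ℝ, ∀ w, Loop S w → Ar S w (C * w.length)) :
    ∃ i, i ≤ 2 ∧ Nontrivial (Hgy (lam G) E i) := by
  by_contra hcon
  push Not at hcon
  have hz : ∀ i, i ≤ 2 → ¬ Nontrivial (Hgy (lam G) E i) := fun i hi => by
    rw [not_nontrivial_iff_subsingleton]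
    exact hcon i hi
  have h0 := hz 0 (by norm_num)
  have h1 := hz 1 (by norm_num)
  have h2 := hz 2 le_rfl
  have hd : ∀ M : Rep.{0} ℤ G, ¬ Nontrivial (groupCohomology M 2) →
      ¬ Nontrivial (groupHomology M 2) := by
    intro M hM hM'
    obtain ⟨e⟩ := hG M
    have e' := (CategoryTheory.forget (ModuleCat ℤ)).mapIso e
    exact hM (e'.toEquiv.nontrivial)
  apply hlin
  refine lin_dehn hS (lin_two hS (hd _ (coh2_real hfree hE h0 h1 h2)) fun a ha => hd _ ?_)
  exact coh2_int (tv_main hS hfree h0 h1 h a ha) hfree hE h0 h1 h2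

end Pool.Agent.LibRD47
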