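import Pool.Agent.LibRD47.LocD
import Pool.Agent.LibRD47.Main

/-!
The elementary forms of rapid decay and of localisation.
-/

set_option autoImplicit false

namespace Pool.Agent.LibRD47

open Pool.Agent.LibZIS Pool.Agent.LibCod83 Pool.Agent.LibQF83 Pool.Agent.LibDehn83 Filter Topology
open scoped Pointwise

variable {G : Type} [Group G]

/-- a finitely supported function in `ℓ²(G)`. -/
noncomputable def toL (ξ : G →₀ ℂ) : Raw.L2 G :=
  ⟨fun x => ξ x, memℓp_gen (by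
    refine summable_of_ne_finset_zero (s := ξ.support) fun x hx => ?_
    rw [Finsupp.notMem_support_iff.1 hx]
    simp)⟩

omit [Group G] in
lemma toL_apply (ξ : G →₀ ℂ) (x : G) : toL ξ x = ξ x := rfl

omit [Group G] in
lemma norm_toL (ξ : G →₀ ℂ) : ‖toL ξ‖ ^ 2 = nsq ξ := by
  rw [Raw.norm_sq_eq, tsum_eq_sum (s := ξ.support)]
  · rfl
  · intro x hx
    rw [toL_apply, Finsupp.notMem_support_iff.1 hx]
    simp

omit [Group G] in
lemma nsq_nonneg (ξ : G →₀ ℂ) : 0 ≤ nsq ξ := Finset.sum_nonneg fun _ _ => sq_nonneg _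

lemma norm_twO_toL (σ : G → G → ℂ) (hσ : ∀ g x, ‖σ g x‖ = 1) (f : MA G) (ξ : G →₀ ℂ) :
    ‖twO σ hσ f (toL ξ)‖ ^ 2 = tsq f.coeff σ ξ := by
  rw [Raw.norm_sq_eq, tsq]
  refine tsum_congr fun x => ?_
  rw [RT5.twO_apply]
  congr 2
  refine Finset.sum_congr rfl fun g _ => ?_
  rw [toL_apply, mul_assoc]

lemma T_eq_twO (f : MA G) (ξ : Raw.L2 G) :
    Raw.T G G f ξ = twO (fun _ _ => 1) (fun _ _ => norm_one) f ξ := by
  refine lp.ext (funext fun x => ?_)
  rw [RT5.twO_apply, Raw.T_apply_apply]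
  refine Finset.sum_congr rfl fun g _ => ?_
  rw [one_mul]
  rfl

lemma norm_T_toL (f : MA G) (ξ : G →₀ ℂ) :
    ‖Raw.T G G f (toL ξ)‖ ^ 2 = tsq f.coeff (fun _ _ => 1) ξ := by
  rw [T_eq_twO, norm_twO_toL]

lemma csq_eq (f ξ : G →₀ ℂ) : csq f ξ = tsq f (fun _ _ => 1) ξ := by
  unfold csq tsq
  simp only [mul_one]

omit [Group G] in
/-- a bound on the finitely supported functions is a bound. -/
lemma bound_of_toL (A : Raw.L2 G →L[ℂ] Raw.L2 G) (M : ℝ)
    (h : ∀ ξ : G →₀ ℂ, ‖A (toL ξ)‖ ≤ M * ‖toL ξ‖) (ξ : Raw.L2 G) : ‖A ξ‖ ≤ M * ‖ξ‖ := by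
  classical
  have h1 : HasSum (fun x => (lp.single 2 x (ξ x) : Raw.L2 G)) ξ := lp.hasSum_single (by simp) ξ
  have hcl : IsClosed {η : Raw.L2 G | ‖A η‖ ≤ M * ‖η‖} :=
    isClosed_le A.continuous.norm (continuous_const.mul continuous_norm)
  refine hcl.mem_of_tendsto h1 (Eventually.of_forall fun F => ?_)
  have h2 : ∑ x ∈ F, (lp.single 2 x (ξ x) : Raw.L2 G) =
      toL (Finsupp.onFinset F (fun x => if x ∈ F then ξ x else 0) (fun x hx => by
        by_contra hc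
        exact hx (if_neg hc))) := by
    refine lp.ext (funext fun y => ?_)
    rw [toL_apply, Finsupp.onFinset_apply]
    have h3 : ((∑ x ∈ F, (lp.single 2 x (ξ x) : Raw.L2 G) : Raw.L2 G) : ∀ _ : G, ℂ) =
        ∑ x ∈ F, ((lp.single 2 x (ξ x) : Raw.L2 G) : ∀ _ : G, ℂ) :=
      map_sum (lp.coeFnAddMonoidHom (fun _ : G => ℂ) 2) _ _
    rw [h3, Finset.sum_apply]
    have h4 : ∀ x, (lp.single 2 x (ξ x) : Raw.L2 G) y = if y = x then ξ x else 0 := by
      intro x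
      split_ifs with hyx
      · subst hyx
        rw [lp.single_apply_self]
      · rw [lp.single_apply_ne]
        exact hyx
    have h5 : ∑ x ∈ F, (lp.single 2 x (ξ x) : Raw.L2 G) y =
        ∑ x ∈ F, if y = x then ξ x else 0 := Finset.sum_congr rfl fun x _ => h4 x
    refine h5.trans ?_
    rw [Finset.sum_ite_eq]
  show ‖A (∑ x ∈ F, (lp.single 2 x (ξ x) : Raw.L2 G))‖ ≤
    M * ‖∑ x ∈ F, (lp.single 2 x (ξ x) : Raw.L2 G)‖
  rw [h2]
  exact h _

lemma le_of_sq {a b M : ℝ} (hM : 0 ≤ M) (hb : 0 ≤ b) (h : a ^ 2 ≤ M ^ 2 * b ^ 2) : a ≤ M * b := by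
  refine le_of_sq_le_sq ?_ (mul_nonneg hM hb)
  rw [mul_pow]
  exact h

theorem subRD_of (h : RD G) : SubRD G := by
  obtain ⟨l, hl, h⟩ := h
  refine ⟨l, hl, fun ε hε => ?_⟩
  obtain ⟨C, hC⟩ := h (2 * ε) (by positivity)
  refine ⟨√|C|, fun r f hr hf => bound_of_toL _ _ fun ξ => ?_⟩
  refine le_of_sq (by positivity) (norm_nonneg _) ?_
  have h1 := hC r hr f.coeff ξ hf
  rw [csq_eq] at h1
  rw [norm_T_toL, norm_toL, mul_pow, mul_pow, Real.sq_sqrt (abs_nonneg _),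
    Real.sq_sqrt (Finset.sum_nonneg fun _ _ => sq_nonneg _), ← Real.exp_nat_mul]
  refine h1.trans ?_
  have h2 : ((2 : ℕ) : ℝ) * (ε * r) = 2 * ε * r := by push_cast; ring
  rw [h2]
  have h3 := nsq_nonneg f.coeff
  have h4 := nsq_nonneg ξ
  have h5 := Real.exp_pos (2 * ε * r)
  have h6 := le_abs_self C
  show C * Real.exp (2 * ε * r) * nsq f.coeff * nsq ξ ≤
    |C| * Real.exp (2 * ε * r) * nsq f.coeff * nsq ξ
  gcongr

theorem subLoc_of [DecidableEq G] {S : Finset G} (h : Loc G) : SubLoc S := by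
  obtain ⟨l, hl, h⟩ := h
  intro ε hε
  set Λ : ℝ := ∑ s ∈ S, |l s| with hΛ
  have hΛ0 : 0 ≤ Λ := Finset.sum_nonneg fun _ _ => abs_nonneg _
  set ε' : ℝ := 2 * ε / (Λ + 1) with hε'
  have hε'0 : 0 < ε' := by positivity
  have hεΛ : ε' * Λ ≤ 2 * ε := by
    rw [hε', div_mul_eq_mul_div, div_le_iff₀ (by positivity)]
    nlinarith
  obtain ⟨C', hC'⟩ := h ε' hε'0
  refine ⟨√(|C'| * Real.exp (ε' * |l 1|)), fun n => ?_⟩
  have hr : 0 ≤ (n : ℝ) * Λ + |l 1| := by positivity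
  obtain ⟨B, hB⟩ := hC' ((n : ℝ) * Λ + |l 1|) hr
  refine ⟨B, fun f hf σ hσ D N hN hloc => ?_⟩
  have hN0 : 0 ≤ N := (norm_nonneg _).trans hN
  have key := hB f.coeff σ D (N ^ 2) (fun g hg => RT5.len_le hl n g (hf hg)) hσ (fun ξ => by
      rw [← norm_T_toL, ← norm_toL, ← mul_pow]
      refine pow_le_pow_left₀ (norm_nonneg _) ?_ 2
      exact ((Raw.T G G f).le_opNorm _).trans (mul_le_mul_of_nonneg_right hN (norm_nonneg _)))
    (fun z ξ hξ => by
      rw [← norm_twO_toL σ hσ, ← norm_toL, ← mul_pow]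
      refine pow_le_pow_left₀ (norm_nonneg _) ?_ 2
      have h1 := hloc z (toL ξ)
      have h2 : cut (D ∩ {y | y * z⁻¹ ∈ B}) (toL ξ) = toL ξ := by
        refine lp.ext (funext fun x => ?_)
        rw [cut_apply]
        split_ifs with hx
        · rfl
        · rw [toL_apply]
          by_contra hne
          exact hx (hξ x (Finsupp.mem_support_iff.2 (Ne.symm hne)))
      rw [h2] at h1
      exact h1)
  have h3 : ∀ ξ : G →₀ ℂ, ‖(twO σ hσ f * cut D) (toL ξ)‖ ≤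
      √(|C'| * Real.exp (ε' * |l 1|)) * Real.exp (ε * n) * N * ‖toL ξ‖ := by
    intro ξ
    classical
    have h4 : cut D (toL ξ) = toL (ξ.filter fun x => x ∈ D) := by
      refine lp.ext (funext fun x => ?_)
      rw [cut_apply]
      show _ = (ξ.filter fun x => x ∈ D) x
      rw [Finsupp.filter_apply]
      rfl
    have h5 : ‖toL (ξ.filter fun x => x ∈ D)‖ ≤ ‖toL ξ‖ := by
      rw [← h4]
      exact norm_cut_le D _
    show ‖twO σ hσ f (cut D (toL ξ))‖ ≤ _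
    rw [h4]
    have h6 := key (ξ.filter fun x => x ∈ D) (fun y hy => by
      rw [Finsupp.support_filter, Finset.mem_filter] at hy
      exact hy.2)
    rw [← norm_twO_toL σ hσ, ← norm_toL] at h6
    refine (le_of_sq (M := √(|C'| * Real.exp (ε' * |l 1|)) * Real.exp (ε * n) * N)
      (by positivity) (norm_nonneg (toL (ξ.filter fun x => x ∈ D))) ?_).trans
      (mul_le_mul_of_nonneg_left h5 (by positivity))
    refine h6.trans ?_
    rw [mul_pow, mul_pow, Real.sq_sqrt (by positivity), ← Real.exp_nat_mul]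
    have h7 : Real.exp (ε' * ((n : ℝ) * Λ + |l 1|)) ≤
        Real.exp (ε' * |l 1|) * Real.exp (((2 : ℕ) : ℝ) * (ε * n)) := by
      rw [← Real.exp_add, Real.exp_le_exp]
      have h8 : (0 : ℝ) ≤ n := Nat.cast_nonneg n
      push_cast
      nlinarith
    calc C' * Real.exp (ε' * ((n : ℝ) * Λ + |l 1|)) * N ^ 2 *
          ‖toL (ξ.filter fun x => x ∈ D)‖ ^ 2
        ≤ |C'| * (Real.exp (ε' * |l 1|) * Real.exp (((2 : ℕ) : ℝ) * (ε * n))) * N ^ 2 *
          ‖toL (ξ.filter fun x => x ∈ D)‖ ^ 2 := by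
          gcongr
          exact le_abs_self C'
      _ = _ := by ring
  exact fun ξ => bound_of_toL _ _ h3 ξ

end Pool.Agent.LibRD47
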