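import Pool.Agent.LibRD47.HomD

set_option autoImplicit false

namespace Pool.Agent.LibRD47.RF1

open Pool.Agent.LibZIS Pool.Agent.LibCod83 Pool.Agent.LibQF83 Pool.Agent.LibDehn83
open Pool.Agent.LibRD47 Filter Topology
open scoped Pointwise

variable {G : Type} [Group G]


private lemma rf1_tsum (a : ℝ) (n : G → ℝ) (ξ : Raw.L2 G) (ha : 0 < a)
    (h : ∀ x, ‖n x‖ ≤ √a * ‖ξ x‖) :
    (Summable fun x => n x ^ 2) ∧ ∑' x, n x ^ 2 ≤ a * ‖ξ‖ ^ 2 := by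
  have h1 : ∀ x, n x ^ 2 ≤ a * ‖ξ x‖ ^ 2 := by
    intro x
    have h2 : ‖n x‖ ^ 2 ≤ (√a * ‖ξ x‖) ^ 2 := by
      have := h x
      have h3 : 0 ≤ ‖n x‖ := norm_nonneg _
      gcongr
    rw [mul_pow, Real.sq_sqrt ha.le, Real.norm_eq_abs, sq_abs] at h2
    exact h2
  have h4 : Summable fun x => a * ‖ξ x‖ ^ 2 := (Raw.summable_sq ξ).mul_left a
  have h5 : Summable fun x => n x ^ 2 := Summable.of_nonneg_of_le (fun _ => by positivity) h1 h4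
  refine ⟨h5, ?_⟩
  rw [Raw.norm_sq_eq, ← tsum_mul_left]
  exact h5.tsum_le_tsum h1 h4

theorem dn_of_sq (a : ℕ → ℝ) (ha : ∀ r, 0 < a r) (n : ℕ → G → ℝ)
    (hs : ∀ r, Summable fun x => n r x ^ 2)
    (h : Tendsto (fun r => (∑' x, n r x ^ 2) / a r) atTop (𝓝 0)) : DN (ce G a ha) n := by
  obtain ⟨C0, hC0⟩ := h.bddAbove_range
  let w : ℕ → G → ℂ := fun r x => ((n r x / √(a r) : ℝ) : ℂ)
  have hw : ∀ r x, ‖w r x‖ ^ 2 = n r x ^ 2 / a r := by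
    intro r x
    show ‖((n r x / √(a r) : ℝ) : ℂ)‖ ^ 2 = _
    rw [Complex.norm_real, Real.norm_eq_abs, sq_abs, div_pow, Real.sq_sqrt (ha r).le]
  have hsum : ∀ r, ∑' x, ‖w r x‖ ^ 2 = (∑' x, n r x ^ 2) / a r := by
    intro r
    simp only [hw]
    rw [tsum_div_const]
  set C : ℝ := |C0| + 1 with hC
  have hCpos : 0 ≤ C := by positivity
  have hb : ∀ r, (Summable fun x => ‖w r x‖ ^ 2) ∧ ∑' x, ‖w r x‖ ^ 2 ≤ C ^ 2 := by
    intro r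
    refine ⟨?_, ?_⟩
    · simp only [hw]
      exact (hs r).div_const _
    · rw [hsum]
      have h1 : (∑' x, n r x ^ 2) / a r ≤ C0 := hC0 ⟨r, rfl⟩
      have h2 : C0 ≤ |C0| := le_abs_self _
      have h3 : 0 ≤ |C0| := abs_nonneg _
      rw [hC]
      nlinarith
  refine ⟨mkB w C hb hCpos, ?_, fun r x => ?_⟩
  · have h1 : ∀ r, ‖mkB w C hb hCpos r‖ = √((∑' x, n r x ^ 2) / a r) := by
      intro r
      have h2 : ‖mkB w C hb hCpos r‖ ^ 2 = (∑' x, n r x ^ 2) / a r := by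
        rw [Raw.norm_sq_eq, ← hsum]
        rfl
      rw [← h2, Real.sqrt_sq (norm_nonneg _)]
    show Tendsto (fun r => ‖mkB w C hb hCpos r‖) atTop (𝓝 0)
    simp only [h1]
    have h2 := (Real.continuous_sqrt.tendsto 0).comp h
    rw [Real.sqrt_zero] at h2
    exact h2
  · rw [mkB_apply]
    show ‖n r x‖ ≤ √(a r) * ‖((n r x / √(a r) : ℝ) : ℂ)‖
    have h1 : 0 < √(a r) := Real.sqrt_pos.2 (ha r)
    rw [Complex.norm_real, norm_div, Real.norm_of_nonneg h1.le, mul_div_cancel₀ _ h1.ne']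

theorem sq_of_dn (a : ℕ → ℝ) (ha : ∀ r, 0 < a r) (n : ℕ → G → ℝ) (h : DN (ce G a ha) n) :
    (∀ r, Summable fun x => n r x ^ 2) ∧
      Tendsto (fun r => (∑' x, n r x ^ 2) / a r) atTop (𝓝 0) := by
  obtain ⟨w, hw, h1⟩ := h
  have h2 := fun r => rf1_tsum (a r) (n r) (w r) (ha r) (h1 r)
  refine ⟨fun r => (h2 r).1, ?_⟩
  have h3 : Tendsto (fun r => ‖w r‖ ^ 2) atTop (𝓝 0) := by
    have h4 : Tendsto (fun r => ‖w r‖) atTop (𝓝 0) := hw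
    simpa using h4.pow 2
  refine squeeze_zero (fun r => ?_) (fun r => ?_) h3
  · exact div_nonneg (tsum_nonneg fun x => by positivity) (ha r).le
  · rw [div_le_iff₀ (ha r), mul_comm]
    exact (h2 r).2

theorem dl_of_sq (n : ℕ → G → ℝ) (C : ℝ) (hs : ∀ r, Summable fun x => n r x ^ 2)
    (h : ∀ r, ∑' x, n r x ^ 2 ≤ C) : DL (ce G (fun _ => 1) fun _ => one_pos) n := by
  let w : ℕ → G → ℂ := fun r x => ((n r x : ℝ) : ℂ)
  have hw : ∀ r x, ‖w r x‖ ^ 2 = n r x ^ 2 := by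
    intro r x
    show ‖((n r x : ℝ) : ℂ)‖ ^ 2 = _
    rw [Complex.norm_real, Real.norm_eq_abs, sq_abs]
  have hCpos : 0 ≤ |C| + 1 := by positivity
  have hb : ∀ r, (Summable fun x => ‖w r x‖ ^ 2) ∧ ∑' x, ‖w r x‖ ^ 2 ≤ (|C| + 1) ^ 2 := by
    intro r
    simp only [hw]
    refine ⟨hs r, ?_⟩
    have h1 := h r
    have h2 : C ≤ |C| := le_abs_self _
    have h3 : 0 ≤ |C| := abs_nonneg _
    nlinarith
  refine ⟨mkB w (|C| + 1) hb hCpos, loc_one _, fun r x => ?_⟩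
  rw [mkB_apply]
  show ‖n r x‖ ≤ √(1 : ℝ) * ‖((n r x : ℝ) : ℂ)‖
  rw [Real.sqrt_one, one_mul, Complex.norm_real]

theorem sq_of_dl (a : ℕ → ℝ) (ha : ∀ r, 0 < a r) (n : ℕ → G → ℝ) (h : DL (ce G a ha) n) :
    ∃ C : ℝ, ∀ r, (Summable fun x => n r x ^ 2) ∧ ∑' x, n r x ^ 2 ≤ C * a r := by
  obtain ⟨w, -, h1⟩ := h
  refine ⟨‖w‖ ^ 2, fun r => ?_⟩
  have h2 := rf1_tsum (a r) (n r) (w r) (ha r) (h1 r)
  refine ⟨h2.1, h2.2.trans ?_⟩
  rw [mul_comm]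
  have h3 := bb_apply_le w r
  have h4 := (ha r).le
  have h5 : 0 ≤ ‖w r‖ := norm_nonneg _
  gcongr

end Pool.Agent.LibRD47.RF1
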