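import Pool.Agent.LibRD47.HomD

set_option autoImplicit false

namespace Pool.Agent.LibRD47.RF2

open Pool.Agent.LibZIS Pool.Agent.LibCod83 Pool.Agent.LibQF83 Pool.Agent.LibDehn83
open Pool.Agent.LibRD47 Filter Topology
open scoped Pointwise

variable {G : Type} [Group G]


theorem dl_frac (a : ℕ → ℝ) (ha : ∀ r, 0 < a r) (n : ℕ → G → ℝ)
    (h : DL (ce G (fun _ => 1) fun _ => one_pos) n) :
    DL (ce G a ha) (fun r x => √(a r) * n r x - (round (√(a r) * n r x) : ℝ)) := by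
  obtain ⟨w, -, hw⟩ := h
  have hw1 : ∀ r x, |n r x| ≤ ‖w r x‖ := by
    intro r x
    have h1 := hw r x
    have h2 : √((ce G (fun _ => (1 : ℝ)) fun _ => one_pos).a r) = 1 := Real.sqrt_one
    rw [h2, one_mul, Real.norm_eq_abs] at h1
    exact h1
  have hpos : ∀ r, 0 < √(a r) := fun r => Real.sqrt_pos.2 (ha r)
  obtain ⟨e, he⟩ : ∃ e : ℕ → G → ℝ, ∀ r x,
      e r x = √(a r) * n r x - (round (√(a r) * n r x) : ℝ) := ⟨_, fun _ _ => rfl⟩
  have he1 : ∀ r x, |e r x| ≤ 1 / 2 := fun r x => by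
    rw [he]
    exact abs_sub_round _
  have he2 : ∀ r x, |e r x| ≤ √(a r) * |n r x| := fun r x => by
    have h1 := round_le (√(a r) * n r x) 0
    rw [Int.cast_zero, sub_zero, abs_mul, abs_of_pos (hpos r)] at h1
    rw [he]
    exact h1
  obtain ⟨v, hv⟩ := exists_dom w (fun r x => ((e r x / √(a r) : ℝ) : ℂ)) (fun r x => by
    rw [Complex.norm_real, Real.norm_eq_abs, abs_div, abs_of_pos (hpos r), div_le_iff₀ (hpos r)]
    calc |e r x| ≤ √(a r) * |n r x| := he2 r x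
      _ ≤ √(a r) * ‖w r x‖ := mul_le_mul_of_nonneg_left (hw1 r x) (hpos r).le
      _ = ‖w r x‖ * √(a r) := mul_comm _ _)
  have hv1 : ∀ r x, ‖v r x‖ * √(a r) = |e r x| := by
    intro r x
    rw [hv, Complex.norm_real, Real.norm_eq_abs, abs_div, abs_of_pos (hpos r),
      div_mul_cancel₀ _ (hpos r).ne']
  refine ⟨v, loc_ce a ha v fun ε hε => ⟨1 / 2, v, fun r x => ?_, Eventually.of_forall fun r => ?_⟩,
    fun r x => ?_⟩
  · rw [hv1]
    exact he1 r x
  · rw [sub_self, norm_zero]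
    exact hε.le
  · have h1 : √((ce G a ha).a r) * ‖v r x‖ = |e r x| := by
      rw [mul_comm]
      exact hv1 r x
    rw [h1, he r x, Real.norm_eq_abs]

theorem dn_scale (a : ℕ → ℝ) (ha : ∀ r, 0 < a r) (n : ℕ → G → ℝ)
    (h : DN (ce G (fun _ => 1) fun _ => one_pos) n) :
    DN (ce G a ha) (fun r x => √(a r) * n r x) := by
  obtain ⟨w, hw, h1⟩ := h
  refine ⟨w, hw, fun r x => ?_⟩
  have h2 := h1 r x
  have h3 : √((ce G (fun _ => (1 : ℝ)) fun _ => one_pos).a r) = 1 := Real.sqrt_one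
  rw [h3, one_mul] at h2
  rw [norm_mul, Real.norm_of_nonneg (Real.sqrt_nonneg _)]
  exact mul_le_mul_of_nonneg_left h2 (Real.sqrt_nonneg _)

theorem exists_chain {α : Type} (Λ : Finset α) (n : α → G → ℝ) (hΛ : ∀ p, p ∉ Λ → n p = 0)
    (hi : ∀ p x, ∃ k : ℤ, n p x = k) (hs : ∀ p, Summable fun x => n p x ^ 2) :
    ∃ Y : α × G →₀ ℤ, ∀ p x, ((Y (p, x) : ℤ) : ℝ) = n p x := by
  classical
  have h1 : ∀ p, ∃ m : G →₀ ℤ, ∀ x, n p x = m x := by
    intro p
    refine integral_finsupp (n p) ?_ (hi p)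
    have h2 : (fun x => |n p x| ^ 2) = fun x => n p x ^ 2 := by
      funext x
      rw [sq_abs]
    rw [h2]
    exact hs p
  choose m hm using h1
  have hfin : (Function.support fun q : α × G => m q.1 q.2).Finite := by
    refine Set.Finite.subset (Finset.finite_toSet
      (Λ.biUnion fun p => (m p).support.image fun x => (p, x))) ?_
    rintro ⟨p, x⟩ hq
    rw [Function.mem_support] at hq
    rw [Finset.mem_coe, Finset.mem_biUnion]
    refine ⟨p, ?_, Finset.mem_image.2 ⟨x, Finsupp.mem_support_iff.2 hq, rfl⟩⟩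
    by_contra hp
    apply hq
    have h3 := hm p x
    rw [hΛ p hp, Pi.zero_apply] at h3
    exact_mod_cast h3.symm
  refine ⟨Finsupp.ofSupportFinite (fun q : α × G => m q.1 q.2) hfin, fun p x => ?_⟩
  rw [Finsupp.ofSupportFinite_coe]
  exact (hm p x).symm

end Pool.Agent.LibRD47.RF2
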