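import Pool.Agent.LibQF83.Van
import Pool.Agent.LibDehn83.Gap

/-!
Bounded sequences of square summable functions on a group: the case without support conditions.
-/

set_option autoImplicit false

namespace Pool.Agent.LibRD47

open Pool.Agent.LibZIS Pool.Agent.LibCod83 Pool.Agent.LibQF83 Filter Topology

variable {G B : Type} [Group G] [Group B]

/-- The sequences with the normalisation `a` and no condition on the supports. -/
noncomputable def ce (G : Type) [Group G] (a : ℕ → ℝ) (ha : ∀ r, 0 < a r) : CE G G where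
  f := id
  a := a
  pos := ha
  steps := fun b => by
    refine (Set.finite_singleton b).subset ?_
    rintro _ ⟨p, rfl⟩
    simp
  inj := fun g => by
    refine (Set.finite_singleton g).subset ?_
    rintro d ⟨p, hp⟩
    simpa using hp

lemma KS_ce (a : ℕ → ℝ) (ha : ∀ r, 0 < a r) (K : Finset G) (hK : K.Nonempty) (x : G) :
    x ∈ KS (ce G a ha) K := by
  obtain ⟨k, hk⟩ := hK
  exact ⟨k, hk, x⁻¹ * k, by simp [ce]⟩

/-- a sequence at small distance from sequences with bounded values is concentrated. -/
lemma loc_ce (a : ℕ → ℝ) (ha : ∀ r, 0 < a r) (u : BB G)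
    (h : ∀ ε : ℝ, 0 < ε → ∃ (C : ℝ) (u' : BB G), (∀ r x, ‖u' r x‖ * √(a r) ≤ C) ∧
      ∀ᶠ r in atTop, ‖u r - u' r‖ ≤ ε) : Loc (ce G a ha) u := by
  intro ε hε
  obtain ⟨C, u', h1, h2⟩ := h ε hε
  exact ⟨{1}, C, u', fun r x => ⟨h1 r x, fun _ => KS_ce a ha _ (Finset.singleton_nonempty 1) x⟩, h2⟩

/-- all bounded sequences are concentrated for the normalisation one. -/
lemma loc_one (u : BB G) : Loc (ce G (fun _ => 1) fun _ => one_pos) u := by
  refine loc_ce _ _ u fun ε hε => ⟨‖u‖, u, fun r x => ?_, Eventually.of_forall fun r => ?_⟩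
  · rw [Real.sqrt_one, mul_one]
    exact (l2_apply_le (u r) x).trans (bb_apply_le u r)
  · rw [sub_self, norm_zero]
    exact hε.le

variable {c : CE G B}

/-- Twisted vanishing in degree one: for every approximate unimodular cocycle, the approximate
one-cocycles with values in the concentrated sequences are approximate coboundaries. -/
def TV (c : CE G B) : Prop :=
  ∀ (s : ACoc c) (n : G → ℕ → G → ℂ), (∀ g, DL c (n g)) →
    (∀ g h, DN c (fun r x => n (g * h) r x - (n g r x + s.σ g r x * n h r (g⁻¹ * x)))) →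
    ∃ v : ℕ → G → ℂ, DL c v ∧
      ∀ g, DN c (fun r x => n g r x - (s.σ g r x * v r (g⁻¹ * x) - v r x))

end Pool.Agent.LibRD47
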