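import Mathlib

/-!
Property RD for a discrete group, in elementary terms.
-/

set_option autoImplicit false

namespace Pool.Agent.LibRD47

variable {G : Type} [Group G]

/-- The square of the norm of a finitely supported function. -/
noncomputable def nsq (ξ : G →₀ ℂ) : ℝ := ∑ x ∈ ξ.support, ‖ξ x‖ ^ 2

/-- The square of the norm of the convolution of two finitely supported functions. -/
noncomputable def csq (f ξ : G →₀ ℂ) : ℝ := ∑' x, ‖∑ g ∈ f.support, f g * ξ (g⁻¹ * x)‖ ^ 2

/-- Property RD, with a subexponential factor `C exp (ε r)` in the place of a polynomial in `r`: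
for a length function `l`, the square of the norm of the convolution by a function `f` which is
supported in `{l ≤ r}` is at most `C exp (ε r)` times the sum of the squares of the values. -/
def RD (G : Type) [Group G] : Prop :=
  ∃ l : G → ℝ, (∀ g h, l (g * h) ≤ l g + l h) ∧ ∀ ε : ℝ, 0 < ε → ∃ C : ℝ, ∀ r : ℝ, 0 ≤ r →
    ∀ f ξ : G →₀ ℂ, (∀ g ∈ f.support, l g ≤ r) → csq f ξ ≤ C * Real.exp (ε * r) * nsq f * nsq ξ

end Pool.Agent.LibRD47
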