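import Pool.Agent.LibRD47.VanD
import Pool.Agent.LibDehn83.Hom2

/-!
The differentials of chains with coefficients.
-/

set_option autoImplicit false

namespace Pool.Agent.LibRD47

open Pool.Agent.LibZIS Pool.Agent.LibCod83 Pool.Agent.LibQF83 Pool.Agent.LibDehn83 Filter Topology
open scoped Pointwise

variable {G : Type} [Group G]

section diff

variable {A A' : Type} [AddCommGroup A] [AddCommGroup A']

/-- the differential in degree two. -/
noncomputable def D2 (τ : G → A →+ A) : (G × G →₀ A) →+ (G →₀ A) :=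
  Finsupp.liftAddHom fun g =>
    (Finsupp.singleAddHom g.2).comp (τ g.1⁻¹) - Finsupp.singleAddHom (g.1 * g.2) +
      Finsupp.singleAddHom g.1

/-- the differential in degree three. -/
noncomputable def D3 (τ : G → A →+ A) : (G × G × G →₀ A) →+ (G × G →₀ A) :=
  Finsupp.liftAddHom fun g =>
    (Finsupp.singleAddHom (g.2.1, g.2.2)).comp (τ g.1⁻¹) -
      Finsupp.singleAddHom (g.1 * g.2.1, g.2.2) + Finsupp.singleAddHom (g.1, g.2.1 * g.2.2) -
      Finsupp.singleAddHom (g.1, g.2.1)

lemma D2_single (τ : G → A →+ A) (g : G × G) (u : A) : D2 τ (Finsupp.single g u) =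
    Finsupp.single g.2 (τ g.1⁻¹ u) - Finsupp.single (g.1 * g.2) u + Finsupp.single g.1 u := by
  simp [D2]

lemma D3_single (τ : G → A →+ A) (g : G × G × G) (u : A) : D3 τ (Finsupp.single g u) =
    Finsupp.single (g.2.1, g.2.2) (τ g.1⁻¹ u) - Finsupp.single (g.1 * g.2.1, g.2.2) u +
      Finsupp.single (g.1, g.2.1 * g.2.2) u - Finsupp.single (g.1, g.2.1) u := by
  simp [D3]

/-- the change of the coefficients. -/
noncomputable abbrev mr (α : Type) (φ : A →+ A') : (α →₀ A) →+ (α →₀ A') :=
  Finsupp.mapRange.addMonoidHom φ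

omit [Group G] in
lemma mr_apply {α : Type} (φ : A →+ A') (δ : α →₀ A) (p : α) : mr α φ δ p = φ (δ p) := rfl

end diff

/-- the coefficient functions of a finite chain. -/
noncomputable def cv (α : Type) : (α × G →₀ ℤ) →+ (α →₀ (G → ℝ)) := by
  classical
  exact Finsupp.liftAddHom fun p =>
    { toFun := fun n : ℤ => Finsupp.single p.1 (Pi.single p.2 (n : ℝ))
      map_zero' := by simp
      map_add' := fun m n => by
        rw [Int.cast_add, Pi.single_add, Finsupp.single_add] }

end Pool.Agent.LibRD47
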