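import Pool.Agent.LibRD47.Defs

/-!
Localisation of norms for a discrete group, in elementary terms.
-/

set_option autoImplicit false

namespace Pool.Agent.LibRD47

variable {G : Type} [Group G]

/-- The square of the norm of the image of `ξ` under the operator on `ℓ²(G)` whose kernel is
`(x, y) ↦ f (x y⁻¹) σ (x y⁻¹) x`. -/
noncomputable def tsq (f : G →₀ ℂ) (σ : G → G → ℂ) (ξ : G →₀ ℂ) : ℝ :=
  ∑' x, ‖∑ g ∈ f.support, f g * σ g x * ξ (g⁻¹ * x)‖ ^ 2

/-- Subexponential localisation: for a length function `l`, `ε > 0` and `r ≥ 0` there is a finite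
set `B` such that, for `f` supported in `{l ≤ r}`, `σ` unimodular and any set `D`, the square of
the norm of the operator with the kernel `f (x y⁻¹) σ (x y⁻¹) x 1_D (y)` is at most `C exp (ε r)`
times `N`, if `N` bounds the square of the norm of the convolution by `f` and the squares of the
norms of the restrictions of the operator to the translates of `B`. -/
def Loc (G : Type) [Group G] : Prop :=
  ∃ l : G → ℝ, (∀ g h, l (g * h) ≤ l g + l h) ∧ ∀ ε : ℝ, 0 < ε → ∃ C : ℝ, ∀ r : ℝ, 0 ≤ r →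
    ∃ B : Finset G, ∀ (f : G →₀ ℂ) (σ : G → G → ℂ) (D : Set G) (N : ℝ),
      (∀ g ∈ f.support, l g ≤ r) → (∀ g x, ‖σ g x‖ = 1) →
      (∀ ξ : G →₀ ℂ, tsq f (fun _ _ => 1) ξ ≤ N * nsq ξ) →
      (∀ (z : G) (ξ : G →₀ ℂ), (∀ y ∈ ξ.support, y ∈ D ∧ y * z⁻¹ ∈ B) →
        tsq f σ ξ ≤ N * nsq ξ) →
      ∀ ξ : G →₀ ℂ, (∀ y ∈ ξ.support, y ∈ D) → tsq f σ ξ ≤ C * Real.exp (ε * r) * N * nsq ξ

end Pool.Agent.LibRD47
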