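import Pool.Agent.LibRD47.RA1

set_option autoImplicit false

namespace Pool.Agent.LibRD47.RA2

open Pool.Agent.LibRD47.RA1
open Pool.Agent.LibZIS Pool.Agent.LibCod83 Pool.Agent.LibQF83 Pool.Agent.LibRD47 Filter Topology

universe v

variable {G B : Type} [Group G] [Group B] {c : CE G B}


theorem exists_rep_triv (c : CE G B) : ∃ R : Cr G →+* (V c →L[ℂ] V c),
    ∀ (g : G) (u : BB G) (hu : Loc c u), R (lam G g) (cl c u hu) = cl c (trB g u) (hu.trB c g) := by
  obtain ⟨R, hR⟩ := exists_ext' (ρ := opHom (triv c)) (fun φ v =>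
    norm_TW_le_of (triv c) φ (M := ‖Raw.T G G φ‖) (norm_nonneg _) (fun K C u _ η hη => by
      refine Filter.Eventually.of_forall fun r => ?_
      have h1 : ∑ g ∈ φ.coeff.support, φ.coeff g • opL (triv c) g r (u r) =
          Raw.T G G φ (u r) := by
        rw [Raw.T_apply]
        refine Finset.sum_congr rfl fun g _ => ?_
        congr 1
        refine lp.ext (funext fun x => ?_)
        rw [opL_apply]
        exact one_mul _
      rw [h1]
      have h2 := (Raw.T G G φ).le_opNorm (u r)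
      linarith) v)
  refine ⟨R, fun g u hu => ?_⟩
  rw [hR]
  have h3 : opHom (triv c) g (cl c u hu) = cl c (opB (triv c) g u) (hu.op (triv c) g) := rfl
  rw [h3]
  congr 1
  exact opB_triv g u

variable {E : Type v} [TopologicalSpace E] [PathConnectedSpace E]
  [MulAction G E] [ContinuousConstSMul G E]

theorem rcob2 (hfree : ∀ (g : G) (e : E), g • e = e → g = 1)
    (hE : H1Zero E) (h0 : ¬ Nontrivial (Hgy (lam G) E 0)) (h1 : ¬ Nontrivial (Hgy (lam G) E 1))
    (h2 : ¬ Nontrivial (Hgy (lam G) E 2))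
    (n : G → G → ℕ → G → ℂ) (hn : ∀ g h, DL c (n g h))
    (hc : ∀ g h k, DN c (fun r x => n h k r (g⁻¹ * x) - n (g * h) k r x + n g (h * k) r x -
      n g h r x)) :
    ∃ v : G → ℕ → G → ℂ, (∀ g, DL c (v g)) ∧
      ∀ g h, DN c (fun r x => n g h r x - (v h r (g⁻¹ * x) - v (g * h) r x + v g r x)) := by
  choose b hb e using fun g h => (hn g h).exists_loc
  have hbc : ∀ g h k, Nul (trB g (b h k) - b (g * h) k + b g (h * k) - b g h) := by
    intro g h k
    refine nul_of_dn (hc g h k) fun r x => ?_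
    have h2 : (trB g (b h k) - b (g * h) k + b g (h * k) - b g h) r x =
      b h k r (g⁻¹ * x) - b (g * h) k r x + b g (h * k) r x - b g h r x := rfl
    rw [h2, ← e, ← e, ← e, ← e]
    ring
  obtain ⟨R, hR⟩ := exists_rep_triv c
  let _ : Module (Cr G) (V c) := Module.compHom (V c) R
  have hsm : ∀ (g : G) (u : BB G) (hu : Loc c u), lam G g • cl c u hu =
      cl c (trB g u) (hu.trB c g) := by
    intro g u hu
    have h3 : lam G g • cl c u hu = R (lam G g) (cl c u hu) := rfl
    rw [h3, hR]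
  obtain ⟨v0, hv0⟩ := coboundary2_of_trivial (lam G) hfree hE h0 h1 h2
    (fun g h => cl c (b g h) (hb g h)) (fun g h k => by
      rw [hsm, cl_sub, cl_add, cl_sub, cl_eq_zero_iff]
      exact hbc g h k)
  choose v hv hw' using fun g => cl_surj c (v0 g)
  have hv' : ∀ g h, Nul (b g h - (trB g (v h) - v (g * h) + v g)) := by
    intro g h
    have h3 := hv0 g h
    rw [← hw' g, ← hw' h, ← hw' (g * h), hsm, cl_sub, cl_add, cl_eq_iff'] at h3
    exact h3
  refine ⟨fun g r x => ((√(c.a r) : ℝ) : ℂ) * v g r x, fun g => DL.of_loc (hv g), fun g h => ?_⟩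
  have h3 := DN.of_nul (c := c) (hv' g h)
  have h4 : (fun r x => ((√(c.a r) : ℝ) : ℂ) * (b g h - (trB g (v h) - v (g * h) + v g)) r x) =
      fun r x => n g h r x - (((√(c.a r) : ℝ) : ℂ) * v h r (g⁻¹ * x) -
        ((√(c.a r) : ℝ) : ℂ) * v (g * h) r x + ((√(c.a r) : ℝ) : ℂ) * v g r x) := by
    funext r x
    have h2 : (b g h - (trB g (v h) - v (g * h) + v g)) r x =
      b g h r x - (v h r (g⁻¹ * x) - v (g * h) r x + v g r x) := rfl
    rw [h2, ← e]
    ring
  rw [h4] at h3
  exact h3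

omit [PathConnectedSpace E] in
theorem rinv (x0 : E) (h0 : ¬ Nontrivial (Hgy (lam G) E 0))
    {n : ℕ → G → ℝ} (hn : DL c n) (hinv : ∀ g, DN c (fun r x => n r (g⁻¹ * x) - n r x)) :
    DN c n := by
  have h1 : DL c (fun r x => ((n r x : ℝ) : ℂ)) := hn.of_le 1 fun r x => by
    rw [Complex.norm_real, one_mul]
  obtain ⟨w, hw, e⟩ := h1.exists_loc
  have hinv' : ∀ g, Nul (trB g w - w) := fun g => by
    have h3 : DN c (fun r x => (((n r (g⁻¹ * x) - n r x : ℝ)) : ℂ)) := (hinv g).of_le 1
      fun r x => by rw [Complex.norm_real, one_mul]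
    refine nul_of_dn h3 fun r x => ?_
    have h4 : (trB g w - w) r x = w r (g⁻¹ * x) - w r x := rfl
    rw [h4, mul_sub, e, e]
    push_cast
    rfl
  obtain ⟨R, hR⟩ := exists_rep_triv c
  let _ : Module (Cr G) (V c) := Module.compHom (V c) R
  have h2 : cl c w hw = 0 := by
    refine invariant_zero_of_module (lam G) x0 h0 _ fun g => ?_
    have h3 : lam G g • cl c w hw = R (lam G g) (cl c w hw) := rfl
    rw [h3, hR, cl_eq_iff']
    exact hinv' g
  have h5 := DN.of_nul (c := c) ((cl_eq_zero_iff hw).1 h2)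
  refine h5.of_le 1 fun r x => ?_
  rw [e, Complex.norm_real, one_mul]

end Pool.Agent.LibRD47.RA2
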