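import Pool.Agent.LibRD47.HomD

set_option autoImplicit false

namespace Pool.Agent.LibRD47.RH1

open Pool.Agent.LibZIS Pool.Agent.LibCod83 Pool.Agent.LibQF83 Pool.Agent.LibDehn83
open Pool.Agent.LibRD47 Filter Topology
open scoped Pointwise

variable {G : Type} [Group G]

section
variable {A A' : Type} [AddCommGroup A] [AddCommGroup A']

lemma mr_D2 (τ : G → A →+ A) (τ' : G → A' →+ A') (φ : A →+ A')
    (h : ∀ g a, φ (τ g a) = τ' g (φ a)) (δ : G × G →₀ A) :
    mr G φ (D2 τ δ) = D2 τ' (mr (G × G) φ δ) := by
  induction δ using Finsupp.induction_linear with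
  | zero => simp only [map_zero]
  | add x y hx hy => simp only [map_add, hx, hy]
  | single g u =>
    have e1 : mr (G × G) φ (Finsupp.single g u) = Finsupp.single g (φ u) := by
      simp
    rw [D2_single, e1, D2_single, map_add, map_sub]
    simp only [mr, Finsupp.mapRange.addMonoidHom_apply, Finsupp.mapRange_single, h]

lemma mr_D3 (τ : G → A →+ A) (τ' : G → A' →+ A') (φ : A →+ A')
    (h : ∀ g a, φ (τ g a) = τ' g (φ a)) (δ : G × G × G →₀ A) :
    mr (G × G) φ (D3 τ δ) = D3 τ' (mr (G × G × G) φ δ) := by
  induction δ using Finsupp.induction_linear with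
  | zero => simp only [map_zero]
  | add x y hx hy => simp only [map_add, hx, hy]
  | single g u =>
    have e1 : mr (G × G × G) φ (Finsupp.single g u) = Finsupp.single g (φ u) := by
      simp
    rw [D3_single, e1, D3_single, map_sub, map_add, map_sub]
    simp only [mr, Finsupp.mapRange.addMonoidHom_apply, Finsupp.mapRange_single, h]

omit [Group G] in
lemma mr_surj {α : Type} (φ : A →+ A') (h : Function.Surjective φ) (ω : α →₀ A') :
    ∃ δ, mr α φ δ = ω := by
  induction ω using Finsupp.induction_linear with
  | zero => exact ⟨0, map_zero _⟩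
  | add x y hx hy =>
    obtain ⟨a, rfl⟩ := hx
    obtain ⟨b, rfl⟩ := hy
    exact ⟨a + b, map_add _ _ _⟩
  | single p a =>
    obtain ⟨u, rfl⟩ := h a
    exact ⟨Finsupp.single p u, by simp⟩
end

omit [Group G] in
lemma cv_single [h : DecidableEq G] {α : Type} (p : α × G) (n : ℤ) :
    cv α (Finsupp.single p n) = Finsupp.single p.1 (Pi.single p.2 (n : ℝ) : G → ℝ) := by
  have e : h = fun a b => Classical.propDecidable (a = b) := Subsingleton.elim _ _
  subst e
  unfold cv
  rw [Finsupp.liftAddHom_apply_single]
  rfl

omit [Group G] in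
lemma cv_apply {α : Type} (T : α × G →₀ ℤ) (p : α) (x : G) : cv α T p x = (T (p, x) : ℤ) := by
  classical
  induction T using Finsupp.induction_linear with
  | zero => rw [map_zero]; simp
  | add U V hU hV =>
    rw [map_add, Finsupp.add_apply, Pi.add_apply, hU, hV, Finsupp.add_apply]
    push_cast
    rfl
  | single q n =>
    rw [cv_single]
    obtain ⟨p', x'⟩ := q
    by_cases h1 : p' = p
    · subst h1
      rw [Finsupp.single_eq_same]
      by_cases h2 : x = x'
      · subst h2
        rw [Pi.single_eq_same, Finsupp.single_eq_same]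
      · rw [Pi.single_eq_of_ne h2, Finsupp.single_eq_of_ne]
        · simp
        · intro h3
          exact h2 (Prod.ext_iff.1 h3).2
    · rw [Finsupp.single_eq_of_ne (Ne.symm h1), Finsupp.single_eq_of_ne]
      · simp
      · intro h3
        exact h1 (Prod.ext_iff.1 h3).1.symm

lemma Tf_single [DecidableEq G] (g y : G) (t : ℝ) :
    Tf g⁻¹ (Pi.single y t) = (Pi.single (g⁻¹ * y) t : G → ℝ) := by
  funext z
  show (Pi.single y t : G → ℝ) (g⁻¹⁻¹ * z) = _
  by_cases h : z = g⁻¹ * y
  · subst h
    rw [Pi.single_eq_same, inv_inv, mul_inv_cancel_left, Pi.single_eq_same]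
  · rw [Pi.single_eq_of_ne h, Pi.single_eq_of_ne]
    intro h2
    apply h
    rw [← h2, inv_inv, inv_mul_cancel_left]

lemma cv_bdry (T : Tri G →₀ ℤ) : cv G (bdry T) = D2 Tf (cv (G × G) T) := by
  classical
  induction T using Finsupp.induction_linear with
  | zero => simp only [map_zero]
  | add x y hx hy => simp only [map_add, hx, hy]
  | single p n =>
    rw [bdry_single, cv_single, D2_single, map_sub, map_add, cv_single, cv_single, cv_single,
      Tf_single]
    abel

lemma cv_bd3 (Y : (G × G × G) × G →₀ ℤ) : cv (G × G) (bd3 Y) = D3 Tf (cv (G × G × G) Y) := by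
  classical
  induction Y using Finsupp.induction_linear with
  | zero => simp only [map_zero]
  | add x y hx hy => simp only [map_add, hx, hy]
  | single p n =>
    rw [bd3_single, cv_single, D3_single, map_sub, map_add, map_sub, cv_single, cv_single,
      cv_single, cv_single, Tf_single]

end Pool.Agent.LibRD47.RH1
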