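import Pool.Agent.LibRD47.HomD
import Pool.Agent.LibRD47.RH1

set_option autoImplicit false

namespace Pool.Agent.LibRD47.RH2

open Pool.Agent.LibRD47.RH1
open Pool.Agent.LibZIS Pool.Agent.LibCod83 Pool.Agent.LibQF83 Pool.Agent.LibDehn83
open Pool.Agent.LibRD47 Filter Topology
open scoped Pointwise

variable {G : Type} [Group G]

variable {B : Type} [Group B] {c : CE G B}

lemma mr_D2' (A : AddSubgroup ℝ) (δ : G × G →₀ ZA c A) :
    mr G (qm c A) (D2 (TZ c A) δ) = groupHomology.d₂₁ (RA c A) (mr (G × G) (qm c A) δ) := by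
  induction δ using Finsupp.induction_linear with
  | zero => simp only [map_zero]
  | add x y hx hy => simp only [map_add, hx, hy]
  | single g u =>
    have e1 : mr (G × G) (qm c A) (Finsupp.single g u) = Finsupp.single g (qm c A u) := by
      simp
    rw [D2_single, e1, groupHomology.d₂₁_single, map_add, map_sub]
    simp only [mr, Finsupp.mapRange.addMonoidHom_apply, Finsupp.mapRange_single]
    rfl

lemma mr_D3' (A : AddSubgroup ℝ) (δ : G × G × G →₀ ZA c A) :
    mr (G × G) (qm c A) (D3 (TZ c A) δ) =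
      groupHomology.d₃₂ (RA c A) (mr (G × G × G) (qm c A) δ) := by
  induction δ using Finsupp.induction_linear with
  | zero => simp only [map_zero]
  | add x y hx hy => simp only [map_add, hx, hy]
  | single g u =>
    have e1 : mr (G × G × G) (qm c A) (Finsupp.single g u) = Finsupp.single g (qm c A u) := by
      simp
    rw [D3_single, e1, groupHomology.d₃₂_single, map_sub, map_add, map_sub]
    simp only [mr, Finsupp.mapRange.addMonoidHom_apply, Finsupp.mapRange_single]
    rfl

theorem cycle_bound (A : AddSubgroup ℝ) (h : ¬ Nontrivial (groupHomology (RA c A) 2))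
    (τ : G × G →₀ ZA c A) (hτ : ∀ s, DN c (D2 (TZ c A) τ s).1) :
    ∃ ω : G × G × G →₀ ZA c A, ∀ q, DN c ((τ q).1 - (D3 (TZ c A) ω q).1) := by
  have hcyc : mr (G × G) (qm c A) τ ∈ groupHomology.cycles₂ (RA c A) := by
    show groupHomology.d₂₁ (RA c A) (mr (G × G) (qm c A) τ) = 0
    rw [← mr_D2']
    ext s
    rw [mr_apply, Finsupp.zero_apply, qm_eq_zero]
    exact hτ s
  have hsub : Subsingleton (groupHomology (RA c A) 2) := not_nontrivial_iff_subsingleton.1 h
  have hbd : mr (G × G) (qm c A) τ ∈ groupHomology.boundaries₂ (RA c A) :=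
    (groupHomology.H2π_eq_zero_iff (A := RA c A) ⟨mr (G × G) (qm c A) τ, hcyc⟩).1
      (Subsingleton.elim _ _)
  obtain ⟨ω₁, hω₁⟩ := hbd
  obtain ⟨ω, rfl⟩ := mr_surj (qm c A) (qm_surj A) ω₁
  refine ⟨ω, fun q => ?_⟩
  have h1 : mr (G × G) (qm c A) (τ - D3 (TZ c A) ω) = 0 := by
    rw [map_sub, mr_D3', sub_eq_zero]
    exact hω₁.symm
  have h2 := congrArg (fun f => f q) h1
  simp only [Finsupp.zero_apply] at h2
  rw [mr_apply, qm_eq_zero] at h2
  exact h2

end Pool.Agent.LibRD47.RH2
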