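import Pool.Agent.LibRD47.RF1
import Pool.Agent.LibRD47.RF2
import Pool.Agent.LibRD47.RH1
import Pool.Agent.LibRD47.RH2

set_option autoImplicit false

namespace Pool.Agent.LibRD47.RF3

open Pool.Agent.LibRD47.RF1 Pool.Agent.LibRD47.RF2 Pool.Agent.LibRD47.RH1 Pool.Agent.LibRD47.RH2
open Pool.Agent.LibZIS Pool.Agent.LibCod83 Pool.Agent.LibQF83 Pool.Agent.LibDehn83
open Pool.Agent.LibRD47 Filter Topology
open scoped Pointwise

variable {G : Type} [Group G]

/-- evaluation at an index. -/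
noncomputable def evZ (c : CE G G) (A : AddSubgroup ℝ) (r : ℕ) : ZA c A →+ (G → ℝ) where
  toFun u := u.1 r
  map_zero' := rfl
  map_add' _ _ := rfl

lemma evZ_TZ (c : CE G G) (A : AddSubgroup ℝ) (r : ℕ) (g : G) (u : ZA c A) :
    evZ c A r (TZ c A g u) = Tf g (evZ c A r u) := rfl

/-- scaling. -/
noncomputable def scf (t : ℝ) : (G → ℝ) →+ (G → ℝ) where
  toFun u := fun x => t * u x
  map_zero' := by funext x; simp
  map_add' u v := by funext x; simp [mul_add]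

lemma scf_Tf (t : ℝ) (g : G) (u : G → ℝ) : scf t (Tf g u) = Tf g (scf t u) := rfl

omit [Group G] in
lemma sq_label {α : Type} (U : α × G →₀ ℤ) (q : α) :
    (Summable fun x => ((U (q, x) : ℤ) : ℝ) ^ 2) ∧ ∑' x, ((U (q, x) : ℤ) : ℝ) ^ 2 ≤ sq U := by
  classical
  set F : Finset G := (U.support.filter fun p => p.1 = q).image Prod.snd with hF
  have h0 : ∀ x ∉ F, ((U (q, x) : ℤ) : ℝ) ^ 2 = 0 := by
    intro x hx
    have h1 : (q, x) ∉ U.support := by
      intro h2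
      exact hx (Finset.mem_image.2 ⟨(q, x), Finset.mem_filter.2 ⟨h2, rfl⟩, rfl⟩)
    rw [Finsupp.notMem_support_iff.1 h1]
    simp
  refine ⟨summable_of_ne_finset_zero (s := F) h0, ?_⟩
  rw [tsum_eq_sum (s := F) h0]
  have h2 : ∑ x ∈ F, ((U (q, x) : ℤ) : ℝ) ^ 2 =
      ∑ p ∈ U.support.filter (fun p => p.1 = q), ((U p : ℤ) : ℝ) ^ 2 := by
    rw [hF, Finset.sum_image]
    · refine Finset.sum_congr rfl fun p hp => ?_
      have h3 : p.1 = q := (Finset.mem_filter.1 hp).2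
      rw [← h3]
    · intro p hp p' hp' hpp
      have h3 : p.1 = q := (Finset.mem_filter.1 hp).2
      have h4 : p'.1 = q := (Finset.mem_filter.1 hp').2
      exact Prod.ext (h3.trans h4.symm) hpp
  rw [h2]
  exact Finset.sum_le_sum_of_subset_of_nonneg (Finset.filter_subset _ _) fun _ _ _ => sq_nonneg _

lemma sq_nn {α : Type} (U : α →₀ ℤ) : 0 ≤ sq U := Finset.sum_nonneg fun _ _ => sq_nonneg _

theorem exists_round (a : ℕ → ℝ) (ha : ∀ r, 0 < a r)
    (hd : ¬ Nontrivial (groupHomology (RA (ce G (fun _ => 1) fun _ => one_pos) ⊤) 2))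
    (Λ : Finset (G × G)) (T : ℕ → Tri G →₀ ℤ) (hΛ : ∀ r, ∀ p ∈ (T r).support, p.1 ∈ Λ)
    (hT : ∀ r, sq (T r) ≤ a r)
    (hb : Tendsto (fun r => sq (bdry (T r)) / a r) atTop (𝓝 0)) :
    ∃ (Y : ℕ → (G × G × G) × G →₀ ℤ) (Λ' : Finset (G × G)),
      (∀ r, ∀ p ∈ (T r - bd3 (Y r)).support, p.1 ∈ Λ') ∧
      ∀ q, DL (ce G a ha) (fun r x => (((T r - bd3 (Y r)) (q, x) : ℤ) : ℝ)) := by
  classical
  set c1 := ce G (fun _ => (1 : ℝ)) (fun _ => one_pos) with hc1
  set ca := ce G a ha with hca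
  have hsa : ∀ r, 0 < √(a r) := fun r => Real.sqrt_pos.2 (ha r)
  have hss : ∀ r, √(a r) ^ 2 = a r := fun r => Real.sq_sqrt (ha r).le
  -- the cycle
  have h1 : ∀ q : G × G, DL c1 (fun r x => ((T r (q, x) : ℤ) : ℝ) / √(a r)) := by
    intro q
    have e1 : ∀ r x, (((T r (q, x) : ℤ) : ℝ) / √(a r)) ^ 2 = ((T r (q, x) : ℤ) : ℝ) ^ 2 / a r := by
      intro r x
      rw [div_pow, hss]
    refine dl_of_sq _ 1 (fun r => ?_) (fun r => ?_)
    · simp only [e1]
      exact (sq_label (T r) q).1.div_const _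
    · simp only [e1]
      rw [tsum_div_const, div_le_one (ha r)]
      exact (sq_label (T r) q).2.trans (hT r)
  set τ0 : G × G → ZA c1 ⊤ := fun q => ⟨fun r x => ((T r (q, x) : ℤ) : ℝ) / √(a r), h1 q,
    fun _ _ => AddSubgroup.mem_top _⟩ with hτ0
  set τ : G × G →₀ ZA c1 ⊤ := Finsupp.onFinset Λ (fun q => if q ∈ Λ then τ0 q else 0)
    (fun q hq => by
      by_contra hc
      exact hq (if_neg hc)) with hτ
  have hT0 : ∀ r q x, q ∉ Λ → T r (q, x) = 0 := by
    intro r q x hq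
    by_contra hne
    exact hq (hΛ r (q, x) (Finsupp.mem_support_iff.2 hne))
  have hτv : ∀ q r x, (τ q).1 r x = ((T r (q, x) : ℤ) : ℝ) / √(a r) := by
    intro q r x
    rw [hτ, Finsupp.onFinset_apply]
    split_ifs with hq
    · rfl
    · rw [hT0 r q x hq]
      show (0 : ℝ) = _
      simp
  have hcvτ : ∀ r, cv (G × G) (T r) = mr (G × G) ((scf (√(a r))).comp (evZ c1 ⊤ r)) τ := by
    intro r
    ext q x
    rw [cv_apply, mr_apply]
    show _ = √(a r) * (τ q).1 r x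
    rw [hτv, mul_div_cancel₀ _ (hsa r).ne']
  have hD2 : ∀ s, DN c1 (D2 (TZ c1 ⊤) τ s).1 := by
    intro s
    have e1 : ∀ r x, ((bdry (T r) (s, x) : ℤ) : ℝ) = √(a r) * (D2 (TZ c1 ⊤) τ s).1 r x := by
      intro r x
      have e2 := congrArg (fun f => f s x) (cv_bdry (T r))
      simp only [cv_apply] at e2
      rw [e2, hcvτ, ← mr_D2 (TZ c1 ⊤) Tf _ (fun g u => rfl) τ, mr_apply]
      rfl
    have e3 : ∀ r x, (D2 (TZ c1 ⊤) τ s).1 r x = ((bdry (T r) (s, x) : ℤ) : ℝ) / √(a r) := by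
      intro r x
      rw [e1, mul_div_cancel_left₀ _ (hsa r).ne']
    have e4 : ∀ r x, ((D2 (TZ c1 ⊤) τ s).1 r x) ^ 2 = ((bdry (T r) (s, x) : ℤ) : ℝ) ^ 2 / a r := by
      intro r x
      rw [e3, div_pow, hss]
    refine dn_of_sq _ _ _ (fun r => ?_) ?_
    · simp only [e4]
      exact (sq_label (bdry (T r)) s).1.div_const _
    · refine squeeze_zero (fun r => ?_) (fun r => ?_) hb
      · exact div_nonneg (tsum_nonneg fun x => sq_nonneg _) zero_le_one
      · rw [div_one]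
        simp only [e4]
        rw [tsum_div_const]
        have := (sq_label (bdry (T r)) s).2
        have h6 := ha r
        gcongr
  obtain ⟨ω, hω⟩ := cycle_bound ⊤ hd τ hD2
  -- the fractional parts and the integral parts
  have hfr : ∀ p, DL ca (fun r x => √(a r) * (ω p).1 r x - (round (√(a r) * (ω p).1 r x) : ℝ)) :=
    fun p => dl_frac a ha _ (ω p).2.1
  set e : G × G × G →₀ ZA ca ⊤ := Finsupp.onFinset ω.support
    (fun p => if p ∈ ω.support then ⟨_, hfr p, fun _ _ => AddSubgroup.mem_top _⟩ else 0)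
    (fun q hq => by
      by_contra hc
      exact hq (if_neg hc)) with he
  have hev : ∀ p r x, (e p).1 r x =
      √(a r) * (ω p).1 r x - (round (√(a r) * (ω p).1 r x) : ℝ) := by
    intro p r x
    rw [he, Finsupp.onFinset_apply]
    split_ifs with hp
    · rfl
    · rw [Finsupp.notMem_support_iff.1 hp]
      show (0 : ℝ) = √(a r) * 0 - (round (√(a r) * (0 : ℝ)) : ℝ)
      simp
  have hY : ∀ r, ∃ Y : (G × G × G) × G →₀ ℤ, ∀ p x,
      ((Y (p, x) : ℤ) : ℝ) = (round (√(a r) * (ω p).1 r x) : ℝ) := by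
    intro r
    refine exists_chain ω.support (fun p x => (round (√(a r) * (ω p).1 r x) : ℝ)) (fun p hp => ?_)
      (fun p x => ⟨_, rfl⟩) (fun p => ?_)
    · funext x
      rw [Finsupp.notMem_support_iff.1 hp]
      show ((round (√(a r) * (0 : ℝ)) : ℤ) : ℝ) = 0
      simp
    · obtain ⟨C, hC⟩ := sq_of_dl _ _ _ (ω p).2.1
      refine Summable.of_nonneg_of_le (fun x => sq_nonneg _) (fun x => ?_)
        ((hC r).1.mul_left (4 * a r))
      set t := √(a r) * (ω p).1 r x with ht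
      have h3 : |(round t : ℝ)| ≤ 2 * |t| := by
        have h4 := round_le t 0
        rw [Int.cast_zero, sub_zero] at h4
        have h5 : (round t : ℝ) = t - (t - round t) := by ring
        rw [h5]
        refine (abs_sub _ _).trans ?_
        linarith
      have h6 : ((round t : ℤ) : ℝ) ^ 2 ≤ (2 * |t|) ^ 2 := by
        rw [← sq_abs ((round t : ℤ) : ℝ)]
        exact pow_le_pow_left₀ (abs_nonneg _) h3 2
      refine h6.trans (le_of_eq ?_)
      rw [mul_pow, sq_abs, ht, mul_pow, hss]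
      ring
  choose Y hY using hY
  have hcvY : ∀ r, cv (G × G × G) (Y r) =
      mr _ ((scf (√(a r))).comp (evZ c1 ⊤ r)) ω - mr _ (evZ ca ⊤ r) e := by
    intro r
    ext p x
    rw [cv_apply, hY, Finsupp.sub_apply, mr_apply, mr_apply]
    show _ = √(a r) * (ω p).1 r x - (e p).1 r x
    rw [hev]
    ring
  have key : ∀ r q x, (((T r - bd3 (Y r)) (q, x) : ℤ) : ℝ) =
      √(a r) * ((τ q).1 - (D3 (TZ c1 ⊤) ω q).1) r x + (D3 (TZ ca ⊤) e q).1 r x := by
    intro r q x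
    have e1 : cv (G × G) (T r - bd3 (Y r)) = mr _ ((scf (√(a r))).comp (evZ c1 ⊤ r)) τ -
        (mr _ ((scf (√(a r))).comp (evZ c1 ⊤ r)) (D3 (TZ c1 ⊤) ω) -
          mr _ (evZ ca ⊤ r) (D3 (TZ ca ⊤) e)) := by
      rw [map_sub, cv_bd3, hcvτ, hcvY, map_sub, mr_D3 (TZ c1 ⊤) Tf _ (fun g u => rfl) ω,
        mr_D3 (TZ ca ⊤) Tf _ (fun g u => rfl) e]
    have e2 := congrArg (fun f => f q x) e1
    simp only [cv_apply] at e2
    rw [e2]
    show √(a r) * (τ q).1 r x - (√(a r) * (D3 (TZ c1 ⊤) ω q).1 r x - (D3 (TZ ca ⊤) e q).1 r x) =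
      √(a r) * ((τ q).1 r x - (D3 (TZ c1 ⊤) ω q).1 r x) + (D3 (TZ ca ⊤) e q).1 r x
    ring
  refine ⟨Y, Λ ∪ (D3 (TZ c1 ⊤) ω).support ∪ (D3 (TZ ca ⊤) e).support, ?_, ?_⟩
  · rintro r ⟨q, x⟩ hp
    by_contra hq
    simp only [Finset.mem_union, not_or] at hq
    apply Finsupp.mem_support_iff.1 hp
    have h3 := key r q x
    have h4 : τ q = 0 := by
      rw [hτ, Finsupp.onFinset_apply, if_neg hq.1.1]
    rw [h4, Finsupp.notMem_support_iff.1 hq.1.2, Finsupp.notMem_support_iff.1 hq.2] at h3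
    have h5 : √(a r) * (((0 : ZA c1 ⊤)).1 - ((0 : ZA c1 ⊤)).1) r x + ((0 : ZA ca ⊤)).1 r x = 0 := by
      show √(a r) * ((0 : ℝ) - 0) + 0 = 0
      ring
    rw [h5] at h3
    exact_mod_cast h3
  · intro q
    have h3 := (dn_scale a ha _ (hω q)).dl.add (D3 (TZ ca ⊤) e q).2.1
    have h4 : (fun r x => (((T r - bd3 (Y r)) (q, x) : ℤ) : ℝ)) =
        fun r x => √(a r) * ((τ q).1 - (D3 (TZ c1 ⊤) ω q).1) r x + (D3 (TZ ca ⊤) e q).1 r x := by
      funext r x
      exact key r q x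
    rw [h4]
    exact h3

end Pool.Agent.LibRD47.RF3
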