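import Pool.Agent.LibRD47.RF1
import Pool.Agent.LibRD47.RF2
import Pool.Agent.LibRD47.RH1
import Pool.Agent.LibRD47.RH2

set_option autoImplicit false

namespace Pool.Agent.LibRD47.RF4

open Pool.Agent.LibRD47.RF1 Pool.Agent.LibRD47.RF2 Pool.Agent.LibRD47.RH1 Pool.Agent.LibRD47.RH2
open Pool.Agent.LibZIS Pool.Agent.LibCod83 Pool.Agent.LibQF83 Pool.Agent.LibDehn83
open Pool.Agent.LibRD47 Filter Topology
open scoped Pointwise

variable {G : Type} [Group G]

/-- evaluation at an index. -/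
noncomputable def evZ (c : CE G G) (A : AddSubgroup ℝ) (r : ℕ) : ZA c A →+ (G → ℝ) where
  toFun u := u.1 r
  map_zero' := rfl
  map_add' _ _ := rfl

omit [Group G] in
lemma sq_label {α : Type} (U : α × G →₀ ℤ) (q : α) :
    (Summable fun x => ((U (q, x) : ℤ) : ℝ) ^ 2) ∧ ∑' x, ((U (q, x) : ℤ) : ℝ) ^ 2 ≤ sq U := by
  classical
  set F : Finset G := (U.support.filter fun p => p.1 = q).image Prod.snd with hF
  have h0 : ∀ x ∉ F, ((U (q, x) : ℤ) : ℝ) ^ 2 = 0 := by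
    intro x hx
    have h1 : (q, x) ∉ U.support := by
      intro h2
      exact hx (Finset.mem_image.2 ⟨(q, x), Finset.mem_filter.2 ⟨h2, rfl⟩, rfl⟩)
    rw [Finsupp.notMem_support_iff.1 h1]
    simp
  refine ⟨summable_of_ne_finset_zero (s := F) h0, ?_⟩
  rw [tsum_eq_sum (s := F) h0]
  have h2 : ∑ x ∈ F, ((U (q, x) : ℤ) : ℝ) ^ 2 =
      ∑ p ∈ U.support.filter (fun p => p.1 = q), ((U p : ℤ) : ℝ) ^ 2 := by
    rw [hF, Finset.sum_image]
    · refine Finset.sum_congr rfl fun p hp => ?_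
      have h3 : p.1 = q := (Finset.mem_filter.1 hp).2
      rw [← h3]
    · intro p hp p' hp' hpp
      have h3 : p.1 = q := (Finset.mem_filter.1 hp).2
      have h4 : p'.1 = q := (Finset.mem_filter.1 hp').2
      exact Prod.ext (h3.trans h4.symm) hpp
  rw [h2]
  exact Finset.sum_le_sum_of_subset_of_nonneg (Finset.filter_subset _ _) fun _ _ _ => sq_nonneg _

omit [Group G] in
lemma sq_eq_labels {α : Type} (U : α × G →₀ ℤ) (Λ : Finset α) (h : ∀ p ∈ U.support, p.1 ∈ Λ) :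
    sq U = ∑ q ∈ Λ, ∑' x, ((U (q, x) : ℤ) : ℝ) ^ 2 := by
  classical
  set F : Finset G := U.support.image Prod.snd with hF
  have h1 : U.support ⊆ Λ ×ˢ F := fun p hp =>
    Finset.mem_product.2 ⟨h p hp, Finset.mem_image_of_mem _ hp⟩
  have h0 : ∀ q, ∀ x ∉ F, ((U (q, x) : ℤ) : ℝ) ^ 2 = 0 := by
    intro q x hx
    have h1 : (q, x) ∉ U.support := fun h2 => hx (Finset.mem_image_of_mem Prod.snd h2)
    rw [Finsupp.notMem_support_iff.1 h1]
    simp
  have h2 : sq U = ∑ p ∈ Λ ×ˢ F, ((U p : ℤ) : ℝ) ^ 2 := by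
    unfold LibDehn83.sq
    refine Finset.sum_subset h1 fun p _ hp => ?_
    rw [Finsupp.notMem_support_iff.1 hp]
    simp
  rw [h2, Finset.sum_product]
  exact Finset.sum_congr rfl fun q _ => (tsum_eq_sum (s := F) (h0 q)).symm

theorem exists_small (a : ℕ → ℝ) (ha : ∀ r, 0 < a r)
    (hd : ¬ Nontrivial (groupHomology (RA (ce G a ha) ZI) 2))
    (Λ : Finset (G × G)) (T : ℕ → Tri G →₀ ℤ) (hΛ : ∀ r, ∀ p ∈ (T r).support, p.1 ∈ Λ)
    (hT : ∀ q, DL (ce G a ha) (fun r x => (((T r) (q, x) : ℤ) : ℝ)))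
    (hb : Tendsto (fun r => sq (bdry (T r)) / a r) atTop (𝓝 0)) :
    ∃ (W : ℕ → (G × G × G) × G →₀ ℤ) (Λ' : Finset (G × G)),
      (∀ r, ∀ p ∈ (T r - bd3 (W r)).support, p.1 ∈ Λ') ∧
      Tendsto (fun r => sq (T r - bd3 (W r)) / a r) atTop (𝓝 0) := by
  classical
  set ca := ce G a ha with hca
  set τ0 : G × G → ZA ca ZI := fun q => ⟨fun r x => (((T r) (q, x) : ℤ) : ℝ), hT q,
    fun _ _ => (mem_ZI _).2 ⟨_, rfl⟩⟩ with hτ0
  set τ : G × G →₀ ZA ca ZI := Finsupp.onFinset Λ (fun q => if q ∈ Λ then τ0 q else 0)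
    (fun q hq => by
      by_contra hc
      exact hq (if_neg hc)) with hτ
  have hT0 : ∀ r q x, q ∉ Λ → T r (q, x) = 0 := by
    intro r q x hq
    by_contra hne
    exact hq (hΛ r (q, x) (Finsupp.mem_support_iff.2 hne))
  have hτv : ∀ q r x, (τ q).1 r x = ((T r (q, x) : ℤ) : ℝ) := by
    intro q r x
    rw [hτ, Finsupp.onFinset_apply]
    split_ifs with hq
    · rfl
    · rw [hT0 r q x hq]
      show (0 : ℝ) = _
      simp
  have hcvτ : ∀ r, cv (G × G) (T r) = mr (G × G) (evZ ca ZI r) τ := by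
    intro r
    ext q x
    rw [cv_apply, mr_apply]
    show _ = (τ q).1 r x
    rw [hτv]
  have hD2 : ∀ s, DN ca (D2 (TZ ca ZI) τ s).1 := by
    intro s
    have e1 : ∀ r x, (D2 (TZ ca ZI) τ s).1 r x = ((bdry (T r) (s, x) : ℤ) : ℝ) := by
      intro r x
      have e2 := congrArg (fun f => f s x) (cv_bdry (T r))
      simp only [cv_apply] at e2
      rw [e2, hcvτ, ← mr_D2 (TZ ca ZI) Tf _ (fun g u => rfl) τ, mr_apply]
      rfl
    refine dn_of_sq _ _ _ (fun r => ?_) ?_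
    · simp only [e1]
      exact (sq_label (bdry (T r)) s).1
    · refine squeeze_zero (fun r => ?_) (fun r => ?_) hb
      · exact div_nonneg (tsum_nonneg fun x => sq_nonneg _) (ha r).le
      · simp only [e1]
        have := (sq_label (bdry (T r)) s).2
        have h6 := ha r
        gcongr
  obtain ⟨ω, hω⟩ := cycle_bound ZI hd τ hD2
  have hW : ∀ r, ∃ W : (G × G × G) × G →₀ ℤ, ∀ p x,
      ((W (p, x) : ℤ) : ℝ) = (ω p).1 r x := by
    intro r
    refine exists_chain ω.support (fun p x => (ω p).1 r x) (fun p hp => ?_)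
      (fun p x => (mem_ZI _).1 ((ω p).2.2 r x)) (fun p => ?_)
    · funext x
      rw [Finsupp.notMem_support_iff.1 hp]
      rfl
    · obtain ⟨C, hC⟩ := sq_of_dl _ _ _ (ω p).2.1
      exact (hC r).1
  choose W hW using hW
  have hcvW : ∀ r, cv (G × G × G) (W r) = mr _ (evZ ca ZI r) ω := by
    intro r
    ext p x
    rw [cv_apply, hW, mr_apply]
    rfl
  have key : ∀ r q x, (((T r - bd3 (W r)) (q, x) : ℤ) : ℝ) =
      ((τ q).1 - (D3 (TZ ca ZI) ω q).1) r x := by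
    intro r q x
    have e1 : cv (G × G) (T r - bd3 (W r)) = mr _ (evZ ca ZI r) τ -
        mr _ (evZ ca ZI r) (D3 (TZ ca ZI) ω) := by
      rw [map_sub, cv_bd3, hcvτ, hcvW, mr_D3 (TZ ca ZI) Tf _ (fun g u => rfl) ω]
    have e2 := congrArg (fun f => f q x) e1
    simp only [cv_apply] at e2
    rw [e2]
    rfl
  have hlab : ∀ r, ∀ p ∈ (T r - bd3 (W r)).support, p.1 ∈ Λ ∪ (D3 (TZ ca ZI) ω).support := by
    rintro r ⟨q, x⟩ hp
    by_contra hq
    simp only [Finset.mem_union, not_or] at hq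
    apply Finsupp.mem_support_iff.1 hp
    have h3 := key r q x
    have h4 : τ q = 0 := by
      rw [hτ, Finsupp.onFinset_apply, if_neg hq.1]
    rw [h4, Finsupp.notMem_support_iff.1 hq.2] at h3
    have h5 : (((0 : ZA ca ZI)).1 - ((0 : ZA ca ZI)).1) r x = 0 := by
      show (0 : ℝ) - 0 = 0
      ring
    rw [h5] at h3
    exact_mod_cast h3
  refine ⟨W, Λ ∪ (D3 (TZ ca ZI) ω).support, hlab, ?_⟩
  have h5 : ∀ r, sq (T r - bd3 (W r)) / a r = ∑ q ∈ Λ ∪ (D3 (TZ ca ZI) ω).support,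
      (∑' x, (((τ q).1 - (D3 (TZ ca ZI) ω q).1) r x) ^ 2) / a r := by
    intro r
    rw [sq_eq_labels _ _ (hlab r), Finset.sum_div]
    refine Finset.sum_congr rfl fun q _ => ?_
    simp only [key]
  simp only [h5]
  have h6 := tendsto_finsetSum (Λ ∪ (D3 (TZ ca ZI) ω).support) fun q _ =>
    (sq_of_dn a ha _ (hω q)).2
  simpa using h6

end Pool.Agent.LibRD47.RF4
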