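import Pool.Agent.LibRD47.HomD

set_option autoImplicit false

namespace Pool.Agent.LibRD47.RF5

open Pool.Agent.LibZIS Pool.Agent.LibCod83 Pool.Agent.LibQF83 Pool.Agent.LibDehn83
open Pool.Agent.LibRD47 Filter Topology
open scoped Pointwise

variable {G : Type} [Group G]


/-- the part of a chain with the label `q`, moved by the triangle `t`. -/
private noncomputable def rf5_M [DecidableEq G] (q : G × G) (t : Tri G) :
    (Tri G →₀ ℤ) →+ (Tri G →₀ ℤ) :=
  (Finsupp.mapDomain.addMonoidHom (fun p : Tri G => ((t.1, t.2 * p.2) : Tri G))).comp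
    (Finsupp.filterAddHom (fun p : Tri G => p.1 = q))

private lemma rf5_M_single [DecidableEq G] (q : G × G) (t : Tri G) (p : Tri G) (n : ℤ) :
    rf5_M q t (Finsupp.single p n) =
      if p.1 = q then Finsupp.single (t.1, t.2 * p.2) n else 0 := by
  show Finsupp.mapDomain (fun p : Tri G => ((t.1, t.2 * p.2) : Tri G))
    (Finsupp.filter (fun p : Tri G => p.1 = q) (Finsupp.single p n)) = _
  split_ifs with h
  · rw [Finsupp.filter_single_of_pos (fun p : Tri G => p.1 = q) h,
      Finsupp.mapDomain_single]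
  · rw [Finsupp.filter_single_of_neg (fun p : Tri G => p.1 = q) h,
      Finsupp.mapDomain_zero]

private lemma rf5_sq_M [DecidableEq G] (q : G × G) (t : Tri G) (T : Tri G →₀ ℤ) :
    sq (rf5_M q t T) ≤ sq T := by
  set u : Tri G →₀ ℤ := Finsupp.filter (fun p : Tri G => p.1 = q) T with hu
  let ι : Tri G → Tri G := fun p => (t.1, t.2 * p.2)
  have hM : rf5_M q t T = Finsupp.mapDomain ι u := rfl
  have hinj : Set.InjOn ι (u.support : Set (Tri G)) := by
    intro a ha b hb hab
    have ha1 : a.1 = q := by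
      have h1 : a ∈ (Finsupp.filter (fun p : Tri G => p.1 = q) T).support := ha
      rw [Finsupp.support_filter, Finset.mem_filter] at h1
      exact h1.2
    have hb1 : b.1 = q := by
      have h1 : b ∈ (Finsupp.filter (fun p : Tri G => p.1 = q) T).support := hb
      rw [Finsupp.support_filter, Finset.mem_filter] at h1
      exact h1.2
    have h2 : t.2 * a.2 = t.2 * b.2 := congrArg Prod.snd hab
    exact Prod.ext (ha1.trans hb1.symm) (mul_left_cancel h2)
  have h1 : sq (rf5_M q t T) = sq u := by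
    rw [hM]
    unfold LibDehn83.sq
    rw [Finsupp.mapDomain_support_of_injOn u hinj, Finset.sum_image hinj]
    refine Finset.sum_congr rfl fun x hx => ?_
    rw [Finsupp.mapDomain_apply' (S := (u.support : Set (Tri G))) u (le_refl _) hinj hx]
  rw [h1]
  unfold LibDehn83.sq
  have h2 : u.support ⊆ T.support := by
    rw [hu, Finsupp.support_filter]
    exact Finset.filter_subset _ _
  have h3 : ∀ x ∈ u.support, ((u x : ℤ) : ℝ) ^ 2 = ((T x : ℤ) : ℝ) ^ 2 := by
    intro x hx
    have h4 : x.1 = q := by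
      rw [hu, Finsupp.support_filter, Finset.mem_filter] at hx
      exact hx.2
    rw [hu, Finsupp.filter_apply_pos (fun p : Tri G => p.1 = q) T h4]
  rw [Finset.sum_congr rfl h3]
  exact Finset.sum_le_sum_of_subset_of_nonneg h2 fun _ _ _ => by positivity

private lemma rf5_sq_zsmul {α : Type} (n : ℤ) (u : α →₀ ℤ) :
    sq (n • u) ≤ (n : ℝ) ^ 2 * sq u := by
  classical
  have h1 : (n • u).support ⊆ u.support := Finsupp.support_smul
  unfold LibDehn83.sq
  rw [Finset.mul_sum]
  refine (Finset.sum_le_sum_of_subset_of_nonneg h1 fun _ _ _ => by positivity).trans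
    (le_of_eq ?_)
  refine Finset.sum_congr rfl fun x _ => ?_
  rw [Finsupp.smul_apply, smul_eq_mul]
  push_cast
  ring

private lemma rf5_sq_nonneg {α : Type} (u : α →₀ ℤ) : 0 ≤ sq u :=
  Finset.sum_nonneg fun _ _ => by positivity

/-- finite sums of bounded maps are bounded. -/
private lemma rf5_sum {α β ι : Type} (I : Finset ι) (f : ι → (α →₀ ℤ) → (β →₀ ℤ))
    (h : ∀ i ∈ I, ∃ N : ℝ, 0 ≤ N ∧ ∀ T, sq (f i T) ≤ N * sq T) :
    ∃ N : ℝ, 0 ≤ N ∧ ∀ T, sq (∑ i ∈ I, f i T) ≤ N * sq T := by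
  classical
  induction I using Finset.induction_on with
  | empty =>
    refine ⟨0, le_rfl, fun T => ?_⟩
    simp [LibDehn83.sq]
  | insert a I ha ih =>
    obtain ⟨N, hN0, hN⟩ := ih fun i hi => h i (Finset.mem_insert_of_mem hi)
    obtain ⟨M, hM0, hM⟩ := h a (Finset.mem_insert_self a I)
    refine ⟨2 * M + 2 * N, by positivity, fun T => ?_⟩
    rw [Finset.sum_insert ha]
    refine (sq_add_le _ _).trans ?_
    have h1 := hN T
    have h2 := hM T
    nlinarith

theorem exists_push_sq [DecidableEq G] {S : Finset G} (hS : Sys S) :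
    ∃ P : (Tri G →₀ ℤ) →+ (Tri G →₀ ℤ),
    (∀ T, InS S (P T)) ∧ (∀ T T', InS S T → bdry T' = bdry T → bdry (P T') = bdry T) ∧
    ∀ Λ : Finset (G × G), ∃ N : ℝ, ∀ T : Tri G →₀ ℤ, (∀ q ∈ T.support, q.1 ∈ Λ) →
      sq (P T) ≤ N * sq T := by
  obtain ⟨W, F, hW, -, hF, hF1⟩ := exists_choices hS
  have hbd : bdry.comp (P4_P F) = (P4_Q W).comp bdry := by
    apply Finsupp.addHom_ext
    intro p n
    rw [AddMonoidHom.comp_apply, AddMonoidHom.comp_apply, P4_P_single, map_zsmul, bdry_shT,
      (hF p.1.1 p.1.2).2, map_sub, map_add, shE_chn, shE_chn, shE_chn, shE_chn, bdry_single,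
      map_sub, map_add, P4_Q_single, P4_Q_single, P4_Q_single, smul_sub, smul_add, one_mul,
      one_mul]
  have hid : ∀ T, InS S T → P4_P F T = T := by
    intro T hT
    rw [P4_P_eq]
    conv_rhs => rw [show T = ∑ p ∈ T.support, Finsupp.single p (T p) from T.sum_single.symm]
    refine Finset.sum_congr rfl fun p hp => ?_
    obtain ⟨h1, h2, h3⟩ := hT p hp
    rw [hF1 p.1.1 p.1.2 h1 h2 h3, shT_single, one_mul, Finsupp.smul_single, smul_eq_mul, mul_one]
  refine ⟨P4_P F, ?_, ?_, ?_⟩
  · intro T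
    rw [P4_P_eq]
    exact P4_InS_sum _ _ fun p _ => P4_InS_zsmul ((hF p.1.1 p.1.2).1.shT p.2) _
  · intro T T' hT hTT
    have h1 : ∀ U, bdry (P4_P F U) = P4_Q W (bdry U) := fun U => DFunLike.congr_fun hbd U
    rw [h1, hTT, ← h1, hid T hT]
  · intro Λ
    have key : ∃ N : ℝ, 0 ≤ N ∧ ∀ T : Tri G →₀ ℤ, sq (∑ q ∈ Λ, ∑ t ∈ (F q.1 q.2).support,
        (F q.1 q.2 t) • rf5_M q t T) ≤ N * sq T := by
      refine rf5_sum Λ (fun q T => ∑ t ∈ (F q.1 q.2).support, (F q.1 q.2 t) • rf5_M q t T) ?_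
      intro q _
      refine rf5_sum (F q.1 q.2).support (fun t T => (F q.1 q.2 t) • rf5_M q t T) ?_
      intro t _
      refine ⟨((F q.1 q.2 t : ℤ) : ℝ) ^ 2, by positivity, fun T => ?_⟩
      refine (rf5_sq_zsmul _ _).trans ?_
      exact mul_le_mul_of_nonneg_left (rf5_sq_M q t T) (by positivity)
    obtain ⟨N, -, hN⟩ := key
    refine ⟨N, fun T hT => ?_⟩
    have h1 : P4_P F T = ∑ q ∈ Λ, ∑ t ∈ (F q.1 q.2).support, (F q.1 q.2 t) • rf5_M q t T := by
      have h2 : ∀ q t, rf5_M q t T = ∑ p ∈ T.support, rf5_M q t (Finsupp.single p (T p)) := by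
        intro q t
        conv_lhs => rw [show T = ∑ p ∈ T.support, Finsupp.single p (T p) from T.sum_single.symm]
        rw [map_sum]
      have h3 : ∑ q ∈ Λ, ∑ t ∈ (F q.1 q.2).support, (F q.1 q.2 t) • rf5_M q t T =
          ∑ p ∈ T.support, ∑ q ∈ Λ, ∑ t ∈ (F q.1 q.2).support,
            (F q.1 q.2 t) • rf5_M q t (Finsupp.single p (T p)) := by
        rw [Finset.sum_comm]
        refine Finset.sum_congr rfl fun q _ => ?_
        rw [Finset.sum_comm]
        refine Finset.sum_congr rfl fun t _ => ?_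
        rw [h2 q t, Finset.smul_sum]
      rw [h3, P4_P_eq]
      refine Finset.sum_congr rfl fun p hp => ?_
      rw [Finset.sum_eq_single p.1]
      · conv_lhs => rw [show F p.1.1 p.1.2 = ∑ t ∈ (F p.1.1 p.1.2).support,
          Finsupp.single t (F p.1.1 p.1.2 t) from (F p.1.1 p.1.2).sum_single.symm]
        rw [map_sum, Finset.smul_sum]
        refine Finset.sum_congr rfl fun t _ => ?_
        rw [rf5_M_single, if_pos rfl, shT_single, Finsupp.smul_single, Finsupp.smul_single,
          smul_eq_mul, smul_eq_mul, mul_comm]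
      · intro q _ hq
        refine Finset.sum_eq_zero fun t _ => ?_
        rw [rf5_M_single, if_neg (Ne.symm hq), smul_zero]
      · intro h
        exact absurd (hT p hp) h
    rw [h1]
    exact hN T

end Pool.Agent.LibRD47.RF5
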