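import Pool.Agent.LibRD47.RF3
import Pool.Agent.LibRD47.RF4
import Pool.Agent.LibRD47.RF5

set_option autoImplicit false

namespace Pool.Agent.LibRD47.RF6

open Pool.Agent.LibRD47.RF3 Pool.Agent.LibRD47.RF4 Pool.Agent.LibRD47.RF5
open Pool.Agent.LibZIS Pool.Agent.LibCod83 Pool.Agent.LibQF83 Pool.Agent.LibDehn83
open Pool.Agent.LibRD47 Filter Topology
open scoped Pointwise

variable {G : Type} [Group G]

/-- the sum of squares as a natural number. -/
noncomputable def rf6_sN {α : Type} (T : α →₀ ℤ) : ℕ := ∑ x ∈ T.support, (T x).natAbs ^ 2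

lemma rf6_sq_eq {α : Type} (T : α →₀ ℤ) : sq T = (rf6_sN T : ℝ) := by
  unfold Pool.Agent.LibDehn83.sq rf6_sN
  push_cast
  refine Finset.sum_congr rfl fun x _ => ?_
  rw [Nat.cast_natAbs, Int.cast_abs, sq_abs]

lemma rf6_nonneg {α : Type} (T : α →₀ ℤ) : 0 ≤ sq T := by
  rw [rf6_sq_eq]
  exact Nat.cast_nonneg _

theorem lin_two [DecidableEq G] {S : Finset G} (hS : Sys S)
    (hR : ¬ Nontrivial (groupHomology (RA (ce G (fun _ => 1) fun _ => one_pos) ⊤) 2))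
    (hI : ∀ (a : ℕ → ℝ) (ha : ∀ r, 0 < a r),
      ¬ Nontrivial (groupHomology (RA (ce G a ha) ZI) 2)) :
    ∃ C : ℝ, ∀ T : Tri G →₀ ℤ, InS S T → ∃ T' : Tri G →₀ ℤ, InS S T' ∧ bdry T' = bdry T ∧
      sq T' ≤ C * sq (bdry T) := by
  classical
  by_contra hcon
  have hmin : ∀ r : ℕ, ∃ T : Tri G →₀ ℤ, InS S T ∧
      (∀ T' : Tri G →₀ ℤ, InS S T' → bdry T' = bdry T → rf6_sN T ≤ rf6_sN T') ∧
      (r : ℝ) * sq (bdry T) < sq T := by
    intro r
    by_contra hr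
    apply hcon
    refine ⟨r, fun T0 h0 => ?_⟩
    have hex : ∃ n, ∃ T' : Tri G →₀ ℤ, InS S T' ∧ bdry T' = bdry T0 ∧ rf6_sN T' = n :=
      ⟨_, T0, h0, rfl, rfl⟩
    obtain ⟨T, hT, hb, hn⟩ := Nat.find_spec hex
    refine ⟨T, hT, hb, ?_⟩
    by_contra hlt
    apply hr
    refine ⟨T, hT, fun T' hT' hb' => ?_, ?_⟩
    · rw [hn]
      exact Nat.find_min' hex ⟨T', hT', hb'.trans hb, rfl⟩
    · rw [hb]
      exact lt_of_not_ge hlt
  choose T hT hTm hTs using hmin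
  have hapos : ∀ r, 0 < sq (T r) := fun r =>
    lt_of_le_of_lt (mul_nonneg (Nat.cast_nonneg r) (rf6_nonneg _)) (hTs r)
  have hb : Tendsto (fun r => sq (bdry (T r)) / sq (T r)) atTop (𝓝 0) := by
    refine squeeze_zero' (Eventually.of_forall fun r => div_nonneg (rf6_nonneg _) (hapos r).le)
      ?_ tendsto_one_div_atTop_nhds_zero_nat
    filter_upwards [eventually_gt_atTop 0] with r hr
    have hr' : (0 : ℝ) < r := by exact_mod_cast hr
    rw [div_le_div_iff₀ (hapos r) hr', one_mul, mul_comm]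
    exact (hTs r).le
  obtain ⟨Y, Λ', h1, h2⟩ := exists_round (fun r => sq (T r)) hapos hR (RS S) T
    (fun r p hp => by
      have h := hT r p hp
      unfold RS
      rw [Finset.mem_filter, Finset.mem_product]
      exact ⟨⟨h.1, h.2.1⟩, h.2.2⟩) (fun r => le_rfl) hb
  have hb1 : ∀ r, bdry (T r - bd3 (Y r)) = bdry (T r) := fun r => by
    rw [map_sub, bdry_bd3, sub_zero]
  obtain ⟨W, Λ'', h3, h4⟩ := exists_small (fun r => sq (T r)) hapos (hI _ hapos) Λ'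
    (fun r => T r - bd3 (Y r)) h1 h2 (by
      simp only [hb1]
      exact hb)
  have hb2 : ∀ r, bdry (T r - bd3 (Y r) - bd3 (W r)) = bdry (T r) := fun r => by
    rw [map_sub, hb1, bdry_bd3, sub_zero]
  obtain ⟨P, hP1, hP2, hP3⟩ := exists_push_sq hS
  obtain ⟨N, hN⟩ := hP3 Λ''
  have hpos : (0 : ℝ) < 1 / (|N| + 1) := by positivity
  obtain ⟨r, hr⟩ := (h4.eventually_lt_const hpos).exists
  have h5 : sq (P (T r - bd3 (Y r) - bd3 (W r))) < sq (T r) := by
    have h6 := hN _ (h3 r)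
    have h7 : sq (T r - bd3 (Y r) - bd3 (W r)) / sq (T r) < 1 / (|N| + 1) := hr
    rw [div_lt_div_iff₀ (hapos r) (by positivity), one_mul] at h7
    have h8 := rf6_nonneg (T r - bd3 (Y r) - bd3 (W r))
    have h9 : N * sq (T r - bd3 (Y r) - bd3 (W r)) ≤
        |N| * sq (T r - bd3 (Y r) - bd3 (W r)) :=
      mul_le_mul_of_nonneg_right (le_abs_self N) h8
    nlinarith
  have h6 := hTm r _ (hP1 (T r - bd3 (Y r) - bd3 (W r))) (hP2 _ _ (hT r) (hb2 r))
  rw [rf6_sq_eq, rf6_sq_eq (T r)] at h5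
  have h7 : rf6_sN (P (T r - bd3 (Y r) - bd3 (W r))) < rf6_sN (T r) := by exact_mod_cast h5
  omega

end Pool.Agent.LibRD47.RF6
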