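import Pool.Agent.LibRD47.TwD

set_option autoImplicit false

namespace Pool.Agent.LibRD47.RT1

open Pool.Agent.LibZIS Pool.Agent.LibCod83 Pool.Agent.LibQF83 Pool.Agent.LibDehn83
open Pool.Agent.LibRD47 Filter Topology
open scoped Pointwise

universe v

variable {G : Type} [Group G]

/-- matrix powers -/
noncomputable def Yp [DecidableEq G] (S : Finset G) (X : G → G → MA G) : ℕ → G → G → MA G
  | 0, s, s' => if s = s' then 1 else 0
  | j + 1, s, s' => ∑ u ∈ S, X s u * Yp S X j u s'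

lemma Yp_supp [DecidableEq G] {S : Finset G} (X : G → G → MA G) {R : ℕ}
    (hX : ∀ s ∈ S, ∀ s' ∈ S, (X s s').coeff.support ⊆ S ^ R) :
    ∀ j : ℕ, ∀ s ∈ S, ∀ s' ∈ S, (Yp S X j s s').coeff.support ⊆ S ^ (R * j) := by
  intro j
  induction j with
  | zero =>
    intro s hs s' hs'
    rw [mul_zero, pow_zero]
    by_cases h : s = s'
    · rw [Yp, if_pos h]
      exact MonoidAlgebra.support_coeff_one_subset
    · rw [Yp, if_neg h]
      intro x hx
      rw [Finsupp.mem_support_iff] at hx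
      exact absurd rfl hx
  | succ j ih =>
    intro s hs s' hs' x hx
    rw [Yp, MonoidAlgebra.coeff_sum] at hx
    have h1 := Finsupp.support_finsetSum hx
    rw [Finset.mem_biUnion] at h1
    obtain ⟨u, hu, hxu⟩ := h1
    have h2 := MonoidAlgebra.support_coeff_mul_subset _ _ hxu
    rw [mul_add, mul_one, add_comm, pow_add]
    exact Finset.mul_subset_mul (hX s hs u hu) (ih u hu s' hs') h2

lemma Yp_norm [DecidableEq G] {S : Finset G} (X : G → G → MA G) {ε : ℝ}
    (hX : ∀ s ∈ S, ∀ s' ∈ S, ‖Raw.T G G (X s s')‖ ≤ ε) (hε : (S.card : ℝ) * ε = 1 / 4) :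
    ∀ j : ℕ, ∀ s ∈ S, ∀ s' ∈ S, ‖Raw.T G G (Yp S X j s s')‖ ≤ (1 / 4 : ℝ) ^ j := by
  intro j
  induction j with
  | zero =>
    intro s hs s' hs'
    rw [pow_zero]
    by_cases h : s = s'
    · rw [Yp, if_pos h, map_one]
      exact ContinuousLinearMap.norm_id_le
    · rw [Yp, if_neg h, map_zero, norm_zero]
      exact zero_le_one
  | succ j ih =>
    intro s hs s' hs'
    rw [Yp, map_sum]
    refine (norm_sum_le _ _).trans ?_
    have h1 : ∀ u ∈ S, ‖Raw.T G G (X s u * Yp S X j u s')‖ ≤ ε * (1 / 4 : ℝ) ^ j := by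
      intro u hu
      rw [map_mul]
      refine (norm_mul_le _ _).trans ?_
      exact mul_le_mul (hX s hs u hu) (ih u hu s' hs') (norm_nonneg _)
        ((norm_nonneg _).trans (hX s hs u hu))
    refine (Finset.sum_le_sum h1).trans ?_
    rw [Finset.sum_const, nsmul_eq_mul, ← mul_assoc, hε, pow_succ, mul_comm]

section

variable {W : Type} [NormedAddCommGroup W] [NormedSpace ℂ W] (ρ : G →* (W →L[ℂ] W))

lemma TW_og (g : G) : TW ρ (og G g) = ρ g := by
  rw [TW]
  exact MonoidAlgebra.lift_of _ _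

lemma coc_one {b : G → W} (hb : ∀ g h, b (g * h) = b g + ρ g (b h)) : b 1 = 0 := by
  have h := hb 1 1
  rw [mul_one, map_one] at h
  have h1 : (1 : W →L[ℂ] W) (b 1) = b 1 := rfl
  rw [h1] at h
  exact left_eq_add.1 h

lemma sum_relA [DecidableEq G] {S : Finset G} {b : G → W}
    (hb : ∀ g h, b (g * h) = b g + ρ g (b h)) {p : G × G} (hp : p ∈ RS S) :
    ∑ s' ∈ S, TW ρ (relA (og G) p s') (b s') = 0 := by
  rw [RS, Finset.mem_filter, Finset.mem_product] at hp
  obtain ⟨⟨h1, h2⟩, h3⟩ := hp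
  have h4 : ∀ s' ∈ S, TW ρ (relA (og G) p s') (b s') =
      (if p.1 = s' then b s' else 0) + (if p.2 = s' then ρ p.1 (b s') else 0) -
        (if p.1 * p.2 = s' then b s' else 0) := by
    intro s' _
    rw [relA, map_sub, map_add, map_mul, TW_og]
    have e1 : ∀ (P : Prop) [Decidable P], TW ρ (if P then (1 : MA G) else 0) (b s') =
        if P then b s' else 0 := by
      intro P _
      split_ifs
      · rw [map_one]
        rfl
      · rw [map_zero]
        rfl
    have e2 : (TW ρ (if p.1 = s' then (1 : MA G) else 0) +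
        ρ p.1 * TW ρ (if p.2 = s' then (1 : MA G) else 0) -
        TW ρ (if p.1 * p.2 = s' then (1 : MA G) else 0)) (b s') =
        TW ρ (if p.1 = s' then (1 : MA G) else 0) (b s') +
        ρ p.1 (TW ρ (if p.2 = s' then (1 : MA G) else 0) (b s')) -
        TW ρ (if p.1 * p.2 = s' then (1 : MA G) else 0) (b s') := rfl
    rw [e2, e1, e1, e1]
    split_ifs <;> simp
  rw [Finset.sum_congr rfl h4, Finset.sum_sub_distrib, Finset.sum_add_distrib,
    Finset.sum_ite_eq, Finset.sum_ite_eq, Finset.sum_ite_eq, if_pos h1, if_pos h2, if_pos h3, hb,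
    sub_self]

/-- the vector of a cocycle -/
noncomputable def vec (S : Finset G) (a : G → MA G) (b : G → W) : W :=
  ∑ s' ∈ S, TW ρ (a s') (b s')

/-- the next cocycle -/
noncomputable def nxt (S : Finset G) (a : G → MA G) (b : G → W) (g : G) : W :=
  b g - (ρ g (vec ρ S a b) - vec ρ S a b)

lemma nxt_coc (S : Finset G) (a : G → MA G) {b : G → W}
    (hb : ∀ g h, b (g * h) = b g + ρ g (b h)) (g h : G) :
    nxt ρ S a b (g * h) = nxt ρ S a b g + ρ g (nxt ρ S a b h) := by
  rw [nxt, nxt, nxt, hb, map_mul, map_sub, map_sub]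
  have e : (ρ g * ρ h) (vec ρ S a b) = ρ g (ρ h (vec ρ S a b)) := rfl
  rw [e]
  abel

lemma nxt_eq [DecidableEq G] {S : Finset G} {a : G → MA G} {t : G → G × G → MA G}
    {X : G → G → MA G}
    (h : ∀ s ∈ S, ∀ s' ∈ S, (if s = s' then (1 : MA G) else 0) = (og G s - 1) * a s' +
        ∑ p ∈ RS S, t s p * relA (og G) p s' + X s s')
    {b : G → W} (hb : ∀ g h, b (g * h) = b g + ρ g (b h)) {s : G} (hs : s ∈ S) :
    nxt ρ S a b s = ∑ u ∈ S, TW ρ (X s u) (b u) := by
  have h1 : b s = ∑ s' ∈ S, TW ρ (if s = s' then (1 : MA G) else 0) (b s') := by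
    have e1 : ∀ s' ∈ S, TW ρ (if s = s' then (1 : MA G) else 0) (b s') =
        if s = s' then b s' else 0 := by
      intro s' _
      split_ifs
      · rw [map_one]
        rfl
      · rw [map_zero]
        rfl
    rw [Finset.sum_congr rfl e1, Finset.sum_ite_eq, if_pos hs]
  have h2 : ∀ s' ∈ S, TW ρ (if s = s' then (1 : MA G) else 0) (b s') =
      (ρ s (TW ρ (a s') (b s')) - TW ρ (a s') (b s')) +
        ∑ p ∈ RS S, TW ρ (t s p) (TW ρ (relA (og G) p s') (b s')) + TW ρ (X s s') (b s') := by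
    intro s' hs'
    rw [h s hs s' hs', map_add, map_add, map_mul, map_sub, map_one, TW_og, map_sum]
    have e2 : ((ρ s - 1) * TW ρ (a s') + ∑ p ∈ RS S, TW ρ (t s p * relA (og G) p s') +
        TW ρ (X s s')) (b s') = (ρ s (TW ρ (a s') (b s')) - TW ρ (a s') (b s')) +
        (∑ p ∈ RS S, TW ρ (t s p * relA (og G) p s')) (b s') + TW ρ (X s s') (b s') := rfl
    rw [e2]
    congr 2
    rw [ContinuousLinearMap.sum_apply]
    apply Finset.sum_congr rfl
    intro p _
    rw [map_mul]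
    rfl
  rw [Finset.sum_congr rfl h2, Finset.sum_add_distrib, Finset.sum_add_distrib,
    Finset.sum_sub_distrib, Finset.sum_comm] at h1
  have h3 : ∑ p ∈ RS S, ∑ s' ∈ S, TW ρ (t s p) (TW ρ (relA (og G) p s') (b s')) = 0 := by
    apply Finset.sum_eq_zero
    intro p hp
    rw [← map_sum, sum_relA ρ hb hp, map_zero]
  rw [h3, add_zero, ← map_sum] at h1
  rw [nxt]
  have h4 : vec ρ S a b = ∑ s' ∈ S, TW ρ (a s') (b s') := rfl
  rw [h4]
  nth_rewrite 1 [h1]
  abel

/-- the sequence of cocycles -/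
noncomputable def seqb (S : Finset G) (a : G → MA G) (b : G → W) : ℕ → G → W
  | 0 => b
  | j + 1 => nxt ρ S a (seqb S a b j)

lemma seqb_coc (S : Finset G) (a : G → MA G) {b : G → W}
    (hb : ∀ g h, b (g * h) = b g + ρ g (b h)) (j : ℕ) :
    ∀ g h, seqb ρ S a b j (g * h) = seqb ρ S a b j g + ρ g (seqb ρ S a b j h) := by
  induction j with
  | zero => exact hb
  | succ j ih => exact nxt_coc ρ S a ih

lemma seqb_eq [DecidableEq G] {S : Finset G} {a : G → MA G} {t : G → G × G → MA G}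
    {X : G → G → MA G}
    (h : ∀ s ∈ S, ∀ s' ∈ S, (if s = s' then (1 : MA G) else 0) = (og G s - 1) * a s' +
        ∑ p ∈ RS S, t s p * relA (og G) p s' + X s s')
    {b : G → W} (hb : ∀ g h, b (g * h) = b g + ρ g (b h)) (j : ℕ) :
    ∀ s ∈ S, seqb ρ S a b j s = ∑ s' ∈ S, TW ρ (Yp S X j s s') (b s') := by
  induction j with
  | zero =>
    intro s hs
    have e1 : ∀ s' ∈ S, TW ρ (Yp S X 0 s s') (b s') = if s = s' then b s' else 0 := by
      intro s' _
      rw [Yp]
      split_ifs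
      · rw [map_one]
        rfl
      · rw [map_zero]
        rfl
    rw [Finset.sum_congr rfl e1, Finset.sum_ite_eq, if_pos hs]
    rfl
  | succ j ih =>
    intro s hs
    have e1 : seqb ρ S a b (j + 1) s = nxt ρ S a (seqb ρ S a b j) s := rfl
    rw [e1, nxt_eq ρ h (seqb_coc ρ S a hb j) hs]
    have e2 : ∀ u ∈ S, TW ρ (X s u) (seqb ρ S a b j u) =
        ∑ s' ∈ S, TW ρ (X s u * Yp S X j u s') (b s') := by
      intro u hu
      rw [ih u hu, map_sum]
      apply Finset.sum_congr rfl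
      intro s' _
      rw [map_mul]
      rfl
    rw [Finset.sum_congr rfl e2, Finset.sum_comm]
    apply Finset.sum_congr rfl
    intro s' _
    rw [Yp, map_sum, ContinuousLinearMap.sum_apply]

lemma seqb_tele (S : Finset G) (a : G → MA G) (b : G → W) (j : ℕ) (g : G) :
    seqb ρ S a b j g = b g - (ρ g (∑ i ∈ Finset.range j, vec ρ S a (seqb ρ S a b i)) -
      ∑ i ∈ Finset.range j, vec ρ S a (seqb ρ S a b i)) := by
  induction j with
  | zero =>
    rw [Finset.range_zero, Finset.sum_empty, map_zero, sub_zero, sub_zero]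
    rfl
  | succ j ih =>
    have e1 : seqb ρ S a b (j + 1) g = seqb ρ S a b j g -
        (ρ g (vec ρ S a (seqb ρ S a b j)) - vec ρ S a (seqb ρ S a b j)) := rfl
    rw [e1, ih, Finset.sum_range_succ, map_add]
    abel

end

theorem cob_of_norm [DecidableEq G] {W : Type} [NormedAddCommGroup W] [NormedSpace ℂ W]
    [CompleteSpace W] (ρ : G →* (W →L[ℂ] W)) {S : Finset G} (hS : Sys S)
    (hg : ∀ ε : ℝ, 0 < ε → ∃ (a : G → MA G) (t : G → G × G → MA G) (X : G → G → MA G),
      (∀ s ∈ S, ∀ s' ∈ S, ‖Raw.T G G (X s s')‖ ≤ ε) ∧ ∀ s ∈ S, ∀ s' ∈ S,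
      (if s = s' then (1 : MA G) else 0) = (og G s - 1) * a s' +
        ∑ p ∈ RS S, t s p * relA (og G) p s' + X s s')
    (hN : ∀ ε : ℝ, 0 < ε → ∃ C : ℝ, ∀ (n : ℕ) (f : MA G), f.coeff.support ⊆ S ^ n → ∀ v : W,
      ‖TW ρ f v‖ ≤ C * Real.exp (ε * n) * ‖Raw.T G G f‖ * ‖v‖)
    (b : G → W) (hb : ∀ g h, b (g * h) = b g + ρ g (b h)) :
    ∃ v, ∀ g, b g = ρ g v - v := by
  have hm : 0 < S.card := Finset.card_pos.2 ⟨1, hS.one⟩
  have hm' : (0 : ℝ) < S.card := Nat.cast_pos.2 hm
  obtain ⟨a, t, X, hX, hid⟩ := hg (1 / (4 * S.card)) (by positivity)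
  have hε0 : (S.card : ℝ) * (1 / (4 * S.card)) = 1 / 4 := by
    field_simp
  obtain ⟨R, hR⟩ := exists_subset_pow hS
    (S.biUnion fun s => S.biUnion fun s' => (X s s').coeff.support)
  have hXR : ∀ s ∈ S, ∀ s' ∈ S, (X s s').coeff.support ⊆ S ^ R := by
    intro s hs s' hs' x hx
    apply hR
    rw [Finset.mem_biUnion]
    refine ⟨s, hs, ?_⟩
    rw [Finset.mem_biUnion]
    exact ⟨s', hs', hx⟩
  have hlog : 0 < Real.log 2 := Real.log_pos (by norm_num)
  obtain ⟨C, hC⟩ := hN (Real.log 2 / (R + 1)) (by positivity)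
  have hexp : ∀ j : ℕ, Real.exp (Real.log 2 / (R + 1) * ((R * j : ℕ) : ℝ)) ≤ 2 ^ j := by
    intro j
    have h1 : Real.log 2 / (R + 1) * ((R * j : ℕ) : ℝ) ≤ j * Real.log 2 := by
      rw [div_mul_eq_mul_div, div_le_iff₀ (by positivity)]
      push_cast
      have : (0 : ℝ) ≤ j * Real.log 2 := by positivity
      nlinarith
    calc Real.exp (Real.log 2 / (R + 1) * ((R * j : ℕ) : ℝ)) ≤ Real.exp (j * Real.log 2) :=
          Real.exp_le_exp.2 h1
      _ = 2 ^ j := by
          rw [mul_comm, Real.exp_mul, Real.exp_log (by norm_num), Real.rpow_natCast]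
  set M : ℝ := ∑ s' ∈ S, ‖b s'‖ with hM
  have hM0 : 0 ≤ M := Finset.sum_nonneg fun _ _ => norm_nonneg _
  have hbs : ∀ j : ℕ, ∀ s ∈ S, ‖seqb ρ S a b j s‖ ≤ |C| * M * (1 / 2 : ℝ) ^ j := by
    intro j s hs
    rw [seqb_eq ρ hid hb j s hs]
    refine (norm_sum_le _ _).trans ?_
    have h1 : ∀ s' ∈ S, ‖TW ρ (Yp S X j s s') (b s')‖ ≤ |C| * (1 / 2 : ℝ) ^ j * ‖b s'‖ := by
      intro s' hs'
      refine (hC (R * j) _ (Yp_supp X hXR j s hs s' hs') (b s')).trans ?_
      apply mul_le_mul_of_nonneg_right _ (norm_nonneg _)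
      have h2 := Yp_norm X hX hε0 j s hs s' hs'
      have h3 : (1 / 2 : ℝ) ^ j = 2 ^ j * (1 / 4 : ℝ) ^ j := by
        rw [← mul_pow]
        norm_num
      rw [h3, ← mul_assoc]
      apply mul_le_mul _ h2 (norm_nonneg _) (by positivity)
      exact (mul_le_mul_of_nonneg_right (le_abs_self C) (Real.exp_pos _).le).trans
        (mul_le_mul_of_nonneg_left (hexp j) (abs_nonneg C))
    refine (Finset.sum_le_sum h1).trans ?_
    rw [← Finset.mul_sum]
    apply le_of_eq
    ring
  set A : ℝ := ∑ s' ∈ S, ‖TW ρ (a s')‖ with hA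
  have hv : ∀ j : ℕ, ‖vec ρ S a (seqb ρ S a b j)‖ ≤ A * (|C| * M) * (1 / 2 : ℝ) ^ j := by
    intro j
    rw [vec]
    refine (norm_sum_le _ _).trans ?_
    have h1 : ∀ s' ∈ S, ‖TW ρ (a s') (seqb ρ S a b j s')‖ ≤
        ‖TW ρ (a s')‖ * (|C| * M * (1 / 2 : ℝ) ^ j) := by
      intro s' hs'
      exact (ContinuousLinearMap.le_opNorm _ _).trans
        (mul_le_mul_of_nonneg_left (hbs j s' hs') (norm_nonneg _))
    refine (Finset.sum_le_sum h1).trans ?_
    rw [← Finset.sum_mul]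
    apply le_of_eq
    ring
  have hsum : Summable fun j => vec ρ S a (seqb ρ S a b j) := by
    apply Summable.of_norm_bounded (g := fun j : ℕ => A * (|C| * M) * (1 / 2 : ℝ) ^ j) _ hv
    exact (summable_geometric_of_lt_one (by norm_num) (by norm_num)).mul_left _
  have htend := hsum.hasSum.tendsto_sum_nat
  set v : W := ∑' j, vec ρ S a (seqb ρ S a b j) with hvdef
  have hS1 : ∀ s ∈ S, b s = ρ s v - v := by
    intro s hs
    have h1 : Tendsto (fun j => seqb ρ S a b j s) atTop (𝓝 0) := by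
      apply squeeze_zero_norm (hbs · s hs)
      have h2 := (tendsto_pow_atTop_nhds_zero_of_lt_one (r := (1 / 2 : ℝ)) (by norm_num)
        (by norm_num)).const_mul (|C| * M)
      rwa [mul_zero] at h2
    have h3 : Tendsto (fun j => seqb ρ S a b j s) atTop (𝓝 (b s - (ρ s v - v))) := by
      have h4 : (fun j => seqb ρ S a b j s) = fun j => b s -
          (ρ s (∑ i ∈ Finset.range j, vec ρ S a (seqb ρ S a b i)) -
            ∑ i ∈ Finset.range j, vec ρ S a (seqb ρ S a b i)) := by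
        funext j
        exact seqb_tele ρ S a b j s
      rw [h4]
      exact tendsto_const_nhds.sub ((((ρ s).continuous.tendsto v).comp htend).sub htend)
    have h5 := tendsto_nhds_unique h1 h3
    exact (sub_eq_zero.1 h5.symm)
  refine ⟨v, fun g => ?_⟩
  obtain ⟨w, hw, rfl⟩ := hS.gen g
  induction w with
  | nil =>
    rw [List.prod_nil, coc_one ρ hb, map_one]
    exact (sub_self v).symm
  | cons s w ih =>
    rw [List.prod_cons, hb, ih fun x hx => hw x (List.mem_cons_of_mem _ hx),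
      hS1 s (hw s List.mem_cons_self), map_mul, map_sub]
    have e : (ρ s * ρ w.prod) v = ρ s (ρ w.prod v) := rfl
    rw [e]
    abel

end Pool.Agent.LibRD47.RT1
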