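import Pool.Agent.LibRD47.VanD
import Pool.Agent.LibRD47.RA2

set_option autoImplicit false

namespace Pool.Agent.LibRD47.RV1

open Pool.Agent.LibRD47.RA2
open Pool.Agent.LibZIS Pool.Agent.LibCod83 Pool.Agent.LibQF83 Pool.Agent.LibRD47 Filter Topology

universe v

variable {G B : Type} [Group G] [Group B] {c : CE G B}

variable {E : Type v} [TopologicalSpace E] [PathConnectedSpace E]
  [MulAction G E] [ContinuousConstSMul G E]


theorem rvan2 (hT : TV c) (hfree : ∀ (g : G) (e : E), g • e = e → g = 1) (hE : H1Zero E)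
    (h0 : ¬ Nontrivial (Hgy (lam G) E 0)) (h1 : ¬ Nontrivial (Hgy (lam G) E 1))
    (h2 : ¬ Nontrivial (Hgy (lam G) E 2))
    (u : G → G → ℕ → G → ℝ) (hu : ∀ g h, DL c (u g h)) (hi : ∀ g h r x, ∃ k : ℤ, u g h r x = k)
    (huc : ∀ g h k, DN c (fun r x => u h k r (g⁻¹ * x) - u (g * h) k r x + u g (h * k) r x -
      u g h r x)) :
    ∃ m : G → ℕ → G → ℝ, (∀ g, DL c (m g)) ∧ (∀ g r x, ∃ k : ℤ, m g r x = k) ∧
      ∀ g h, DN c (fun r x => u g h r x - (m h r (g⁻¹ * x) - m (g * h) r x + m g r x)) := by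
  obtain ⟨x0⟩ : Nonempty E := inferInstance
  obtain ⟨v, hv, hv'⟩ := rcob2 hfree hE h0 h1 h2
    (fun g h r x => ((u g h r x : ℝ) : ℂ))
    (fun g h => (hu g h).of_le 1 fun r x => by
      rw [Complex.norm_real, one_mul])
    (fun g h k => (huc g h k).of_le 1 fun r x => by
      rw [one_mul, ← Complex.norm_real]
      refine le_of_eq (congrArg norm ?_)
      push_cast
      ring)
  set β : G → ℕ → G → ℝ := fun g r x => (v g r x).re with hβ
  have hβl : ∀ g, DL c (β g) := fun g => (hv g).of_le 1 fun r x => by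
    rw [one_mul]
    exact Complex.abs_re_le_norm _
  have hβ1 : ∀ g h, DN c (fun r x => u g h r x -
      (β h r (g⁻¹ * x) - β (g * h) r x + β g r x)) := by
    intro g h
    refine (hv' g h).of_le 1 fun r x => ?_
    rw [one_mul]
    have h3 := Complex.abs_re_le_norm (((u g h r x : ℝ) : ℂ) -
      (v h r (g⁻¹ * x) - v (g * h) r x + v g r x))
    refine le_trans (le_of_eq ?_) h3
    rw [Real.norm_eq_abs]
    congr 1
  -- the unimodular cocycle
  have hσ0 : ∀ g h, DN c (fun r x => ex (β (g * h) r x) - ex (β g r x) * ex (β h r (g⁻¹ * x))) := by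
    intro g h
    refine (hβ1 g h).of_le (2 * Real.pi) fun r x => ?_
    obtain ⟨k, hk⟩ := hi g h r x
    rw [← ex_add, hk]
    refine (norm_ex_sub _ _ (-k)).trans (le_of_eq ?_)
    rw [Real.norm_eq_abs]
    congr 2
    push_cast
    ring
  obtain ⟨s, hs⟩ := exists_acoc (c := c) (fun g r x => ex (β g r x)) (fun g r x => norm_ex _) hσ0
  have hσ : ∀ g r x, s.σ g r x = ex (β g r x) := fun g r x => by rw [hs]
  obtain ⟨w', hw', hw1⟩ := hT s (fun g r x => ex (β g r x) - 1)
    (fun g => (hβl g).of_le (2 * Real.pi) fun r x => norm_ex_sub_one _)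
    (fun g h => (hσ0 g h).of_le 1 fun r x => by
      rw [one_mul, hσ]
      refine le_of_eq (congrArg norm ?_)
      ring)
  set w : ℕ → G → ℂ := fun r x => 1 - w' r x with hw
  have hw2 : ∀ g, DN c (fun r x => ex (β g r x) * w r (g⁻¹ * x) - w r x) := by
    intro g
    refine (hw1 g).of_le 1 fun r x => ?_
    rw [one_mul, hσ, hw]
    refine le_of_eq (congrArg norm ?_)
    ring
  -- the modulus
  have he : DN c (fun r x => ‖w r x‖ - 1) := by
    refine rinv x0 h0 (hw'.of_le 1 fun r x => ?_) fun g => ?_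
    · rw [one_mul, Real.norm_eq_abs]
      have h3 := abs_norm_sub_norm_le (w r x) 1
      rw [norm_one] at h3
      refine h3.trans (le_of_eq ?_)
      rw [hw]
      simp only
      rw [sub_sub_cancel_left, norm_neg]
    · refine (hw2 g).of_le 1 fun r x => ?_
      rw [one_mul, Real.norm_eq_abs]
      have h3 := abs_norm_sub_norm_le (ex (β g r x) * w r (g⁻¹ * x)) (w r x)
      rw [norm_mul, norm_ex, one_mul] at h3
      refine le_trans (le_of_eq ?_) h3
      congr 1
      ring
  set y : ℕ → G → ℂ := fun r x => if w r x = 0 then 1 else w r x / ‖w r x‖ with hy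
  have hyn : ∀ r x, ‖y r x‖ = 1 := by
    intro r x
    rw [hy]
    simp only
    split_ifs with h
    · exact norm_one
    · rw [norm_div, Complex.norm_real, norm_norm]
      exact div_self (norm_ne_zero_iff.2 h)
  have hyw : ∀ r x, ‖y r x - w r x‖ = |‖w r x‖ - 1| := by
    intro r x
    rw [hy]
    simp only
    split_ifs with h
    · rw [h]; simp
    · have h3 : ((‖w r x‖ : ℝ) : ℂ) ≠ 0 := by exact_mod_cast norm_ne_zero_iff.2 h
      have h4 : w r x / ((‖w r x‖ : ℝ) : ℂ) - w r x =
          (w r x / ((‖w r x‖ : ℝ) : ℂ)) * ((1 - ‖w r x‖ : ℝ) : ℂ) := by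
        push_cast
        field_simp
      rw [h4, norm_mul, norm_div, Complex.norm_real, norm_norm,
        div_self (norm_ne_zero_iff.2 h), one_mul, Complex.norm_real, Real.norm_eq_abs,
        abs_sub_comm]
  have hyw' : DN c (fun r x => y r x - w r x) := he.of_le 1 fun r x => by
    rw [hyw, one_mul, Real.norm_eq_abs]
  have hy1 : DL c (fun r x => y r x - 1) := by
    refine (hyw'.dl.sub hw').of_le 1 fun r x => ?_
    rw [one_mul, hw]
    refine le_of_eq (congrArg norm ?_)
    ring
  choose l hl hl' using fun r x => exists_log (y r x) (hyn r x)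
  have hll : DL c l := hy1.of_le 1 fun r x => by
    rw [one_mul, Real.norm_eq_abs]
    exact hl' r x
  -- the approximate coboundary
  have hex : ∀ g r x, ‖ex (β g r x + l r (g⁻¹ * x) - l r x) - 1‖ =
      ‖ex (β g r x) * y r (g⁻¹ * x) - y r x‖ := by
    intro g r x
    have h3 : ex (β g r x + l r (g⁻¹ * x) - l r x) - 1 =
        (ex (β g r x) * y r (g⁻¹ * x) - y r x) * (y r x)⁻¹ := by
      have h4 : y r x ≠ 0 := by
        rw [← norm_ne_zero_iff, hyn]
        exact one_ne_zero
      rw [sub_eq_add_neg (β g r x + l r (g⁻¹ * x)), ex_add, ex_add, ex_neg, hl, hl, sub_mul,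
        mul_inv_cancel₀ h4]
    rw [h3, norm_mul, norm_inv, hyn, inv_one, mul_one]
  have hexn : ∀ g, DN c (fun r x => ex (β g r x + l r (g⁻¹ * x) - l r x) - 1) := by
    intro g
    have h3 : DN c (fun r x => ex (β g r x) * (y r (g⁻¹ * x) - w r (g⁻¹ * x))) :=
      (hyw'.trans g).of_le 1 fun r x => by rw [norm_mul, norm_ex]
    refine ((h3.add (hw2 g)).sub hyw').of_le 1 fun r x => ?_
    rw [hex, one_mul]
    refine le_of_eq (congrArg norm ?_)
    ring
  choose l' hl1 hl2 using fun g r x =>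
    exists_log (ex (β g r x + l r (g⁻¹ * x) - l r x)) (norm_ex _)
  have hln : ∀ g, DN c (l' g) := fun g => (hexn g).of_le 1 fun r x => by
    rw [one_mul, Real.norm_eq_abs]
    exact hl2 g r x
  refine ⟨fun g r x => β g r x + l r (g⁻¹ * x) - l r x - l' g r x,
    fun g => (((hβl g).add (hll.trans g)).sub hll).sub (hln g).dl, fun g r x => ?_,
    fun g h => ?_⟩
  · refine exists_int_of_ex_eq_one _ ?_
    show ex (β g r x + l r (g⁻¹ * x) - l r x - l' g r x) = 1
    rw [sub_eq_add_neg (β g r x + l r (g⁻¹ * x) - l r x), ex_add, ex_neg, hl1]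
    apply mul_inv_cancel₀
    rw [← norm_ne_zero_iff, norm_ex]
    exact one_ne_zero
  · have h3 := (hβ1 g h).add ((((hln h).trans g).sub (hln (g * h))).add (hln g))
    refine h3.of_le 1 fun r x => ?_
    rw [one_mul]
    refine le_of_eq (congrArg norm ?_)
    simp only
    rw [mul_inv_rev, mul_assoc]
    ring

theorem rreal2 (hfree : ∀ (g : G) (e : E), g • e = e → g = 1) (hE : H1Zero E)
    (h0 : ¬ Nontrivial (Hgy (lam G) E 0)) (h1 : ¬ Nontrivial (Hgy (lam G) E 1))
    (h2 : ¬ Nontrivial (Hgy (lam G) E 2))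
    (u : G → G → ℕ → G → ℝ) (hu : ∀ g h, DL c (u g h))
    (huc : ∀ g h k, DN c (fun r x => u h k r (g⁻¹ * x) - u (g * h) k r x + u g (h * k) r x -
      u g h r x)) :
    ∃ m : G → ℕ → G → ℝ, (∀ g, DL c (m g)) ∧
      ∀ g h, DN c (fun r x => u g h r x - (m h r (g⁻¹ * x) - m (g * h) r x + m g r x)) := by
  obtain ⟨v, hv, hv'⟩ := rcob2 hfree hE h0 h1 h2
    (fun g h r x => ((u g h r x : ℝ) : ℂ))
    (fun g h => (hu g h).of_le 1 fun r x => by
      rw [Complex.norm_real, one_mul])
    (fun g h k => (huc g h k).of_le 1 fun r x => by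
      rw [one_mul, ← Complex.norm_real]
      refine le_of_eq (congrArg norm ?_)
      push_cast
      ring)
  refine ⟨fun g r x => (v g r x).re, fun g => (hv g).of_le 1 fun r x => by
    rw [one_mul]
    exact Complex.abs_re_le_norm _, fun g h => ?_⟩
  refine (hv' g h).of_le 1 fun r x => ?_
  rw [one_mul]
  have h3 := Complex.abs_re_le_norm (((u g h r x : ℝ) : ℂ) -
    (v h r (g⁻¹ * x) - v (g * h) r x + v g r x))
  refine le_trans (le_of_eq ?_) h3
  rw [Real.norm_eq_abs]
  congr 1

end Pool.Agent.LibRD47.RV1
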