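import Pool.Agent.LibRD47.Base
import Pool.Agent.LibDehn83.Oper

/-!
Conditions for the twisted vanishing in degree one: definitions.
-/

set_option autoImplicit false

namespace Pool.Agent.LibRD47

open Pool.Agent.LibZIS Pool.Agent.LibCod83 Pool.Agent.LibQF83 Pool.Agent.LibDehn83 Filter Topology
open scoped Pointwise

variable {G : Type} [Group G]

/-- The subgroup `H` is not amenable (Kesten's criterion): a convex combination of the translations
by elements of `H` has norm less than one on `ℓ²(G)`. -/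
def NonAm (H : Subgroup G) : Prop :=
  ∃ (F : Finset G) (p : G → ℝ) (q : ℝ), (∀ g ∈ F, g ∈ H) ∧ (∀ g ∈ F, 0 ≤ p g) ∧
    ∑ g ∈ F, p g = 1 ∧ q < 1 ∧
    ∀ ξ : Raw.L2 G, ‖∑ g ∈ F, ((p g : ℝ) : ℂ) • (Raw.tr g ξ : Raw.L2 G)‖ ≤ q * ‖ξ‖

/-- The subgroups which are reached from `K` by adding elements `g`, one after the other, such that
the intersection of the subgroup with its conjugate by `g` is not amenable. -/
inductive Reach (K : Subgroup G) : Subgroup G → Prop
  | base : Reach K K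
  | step (L : Subgroup G) (g : G) (h : Reach K L)
      (hg : NonAm (L ⊓ L.map (MulAut.conj g).toMonoidHom)) : Reach K (L ⊔ Subgroup.zpowers g)

/-- There are commuting non-amenable subgroups one of which reaches the whole group. -/
def Comm (G : Type) [Group G] : Prop :=
  ∃ H K : Subgroup G, NonAm H ∧ NonAm K ∧ (∀ h ∈ H, ∀ k ∈ K, h * k = k * h) ∧ Reach K ⊤

/-- the operator with the kernel `f (x y⁻¹) σ (x y⁻¹, x)`. -/
noncomputable def twO (σ : G → G → ℂ) (hσ : ∀ g x, ‖σ g x‖ = 1) (f : MA G) :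
    Raw.L2 G →L[ℂ] Raw.L2 G :=
  ∑ g ∈ f.coeff.support, f.coeff g • ((mulU (σ g) (hσ g)).toContinuousLinearMap * Raw.tr g)

/-- Subexponential operator norm localisation: the norm of an operator with the kernel
`f (x y⁻¹) σ (x y⁻¹, x) 1_D (y)`, where `f` is supported in the ball of radius `n` and `σ` is
unimodular, is bounded by `C exp (ε n)` times the maximum of the norm of `f` and of the norms of
the restrictions of the operator to the translates of a finite set which depends only on `n`. -/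
def SubLoc [DecidableEq G] (S : Finset G) : Prop :=
  ∀ ε : ℝ, 0 < ε → ∃ C : ℝ, ∀ n : ℕ, ∃ B : Finset G,
    ∀ (f : MA G), f.coeff.support ⊆ S ^ n →
    ∀ (σ : G → G → ℂ) (hσ : ∀ g x, ‖σ g x‖ = 1) (D : Set G) (N : ℝ),
      ‖Raw.T G G f‖ ≤ N →
      (∀ (x : G) (ξ : Raw.L2 G), ‖twO σ hσ f (cut (D ∩ {y | y * x⁻¹ ∈ B}) ξ)‖ ≤ N * ‖ξ‖) →
      ∀ ξ : Raw.L2 G, ‖twO σ hσ f (cut D ξ)‖ ≤ C * Real.exp (ε * n) * N * ‖ξ‖

/-- Rapid decay with a subexponential loss, for some length function. -/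
def SubRD (G : Type) [Group G] : Prop :=
  ∃ l : G → ℝ, (∀ g h, l (g * h) ≤ l g + l h) ∧ ∀ ε : ℝ, 0 < ε → ∃ C : ℝ, ∀ (r : ℝ) (f : MA G),
    0 ≤ r → (∀ g ∈ f.coeff.support, l g ≤ r) → ∀ ξ : Raw.L2 G,
      ‖Raw.T G G f ξ‖ ≤ C * Real.exp (ε * r) * √(∑ g ∈ f.coeff.support, ‖f.coeff g‖ ^ 2) * ‖ξ‖

end Pool.Agent.LibRD47
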