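import Pool.Agent.LibRD47.Base

/-!
The modules of the sequences with values in a subgroup of the reals.
-/

set_option autoImplicit false

namespace Pool.Agent.LibRD47

open Pool.Agent.LibZIS Pool.Agent.LibCod83 Pool.Agent.LibQF83 Filter Topology

variable {G B : Type} [Group G] [Group B] {c : CE G B}

/-- The concentrated sequences with values in the subgroup `A` of the reals. -/
noncomputable def ZA (c : CE G B) (A : AddSubgroup ℝ) : AddSubgroup (ℕ → G → ℝ) where
  carrier := {n | DL c n ∧ ∀ r x, n r x ∈ A}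
  add_mem' := fun ha hb => ⟨ha.1.add hb.1, fun r x => A.add_mem (ha.2 r x) (hb.2 r x)⟩
  zero_mem' := ⟨(DN.of_nul (c := c) (w := 0) (by
      show Tendsto (fun r => ‖(0 : BB G) r‖) atTop (𝓝 0)
      have h : (fun r => ‖(0 : BB G) r‖) = fun _ => (0 : ℝ) := by
        funext r
        show ‖(0 : Raw.L2 G)‖ = 0
        exact norm_zero
      rw [h]
      exact tendsto_const_nhds)).dl.of_le 1 fun r x => by simp, fun r x => A.zero_mem⟩
  neg_mem' := fun ha => ⟨ha.1.neg, fun r x => A.neg_mem (ha.2 r x)⟩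

/-- The null sequences. -/
noncomputable def NA (c : CE G B) (A : AddSubgroup ℝ) : AddSubgroup (ZA c A) where
  carrier := {n | DN c n.1}
  add_mem' := fun ha hb => ha.add hb
  zero_mem' := (DN.of_nul (c := c) (w := 0) (by
      show Tendsto (fun r => ‖(0 : BB G) r‖) atTop (𝓝 0)
      have h : (fun r => ‖(0 : BB G) r‖) = fun _ => (0 : ℝ) := by
        funext r
        show ‖(0 : Raw.L2 G)‖ = 0
        exact norm_zero
      rw [h]
      exact tendsto_const_nhds)).of_le 1 fun r x => by simp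
  neg_mem' := fun ha => ha.neg

lemma mem_ZA {A : AddSubgroup ℝ} {n : ℕ → G → ℝ} : n ∈ ZA c A ↔ DL c n ∧ ∀ r x, n r x ∈ A :=
  Iff.rfl

lemma mem_NA {A : AddSubgroup ℝ} {n : ZA c A} : n ∈ NA c A ↔ DN c n.1 := Iff.rfl

/-- the module. -/
abbrev MA' (c : CE G B) (A : AddSubgroup ℝ) : Type := ZA c A ⧸ NA c A

/-- the translations of functions. -/
def Tf (g : G) : (G → ℝ) →+ (G → ℝ) where
  toFun n := fun x => n (g⁻¹ * x)
  map_zero' := rfl
  map_add' _ _ := rfl

/-- the translations of sequences. -/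
def TZ (c : CE G B) (A : AddSubgroup ℝ) (g : G) : ZA c A →+ ZA c A where
  toFun n := ⟨fun r x => n.1 r (g⁻¹ * x), n.2.1.trans g, fun r x => n.2.2 r (g⁻¹ * x)⟩
  map_zero' := rfl
  map_add' _ _ := rfl

lemma TZ_val (A : AddSubgroup ℝ) (g : G) (n : ZA c A) (r : ℕ) : (TZ c A g n).1 r = Tf g (n.1 r) :=
  rfl

lemma TZ_mul (A : AddSubgroup ℝ) (g h : G) (n : ZA c A) :
    TZ c A (g * h) n = TZ c A g (TZ c A h n) := by
  apply Subtype.ext
  funext r x
  show n.1 r ((g * h)⁻¹ * x) = n.1 r (h⁻¹ * (g⁻¹ * x))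
  rw [mul_inv_rev, mul_assoc]

lemma TZ_one (A : AddSubgroup ℝ) (n : ZA c A) : TZ c A 1 n = n := by
  apply Subtype.ext
  funext r x
  show n.1 r ((1 : G)⁻¹ * x) = n.1 r x
  rw [inv_one, one_mul]

/-- the class of a sequence. -/
noncomputable def qm (c : CE G B) (A : AddSubgroup ℝ) : ZA c A →+ MA' c A :=
  QuotientAddGroup.mk' (NA c A)

lemma qm_surj (A : AddSubgroup ℝ) (y : MA' c A) : ∃ n, qm c A n = y :=
  QuotientAddGroup.mk'_surjective _ y

lemma qm_eq_zero (A : AddSubgroup ℝ) (n : ZA c A) : qm c A n = 0 ↔ DN c n.1 :=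
  QuotientAddGroup.eq_zero_iff n

/-- the action on the module. -/
noncomputable def TM (c : CE G B) (A : AddSubgroup ℝ) (g : G) : MA' c A →+ MA' c A :=
  QuotientAddGroup.map _ _ (TZ c A g) fun _ hn => DN.trans hn g

lemma TM_qm (A : AddSubgroup ℝ) (g : G) (n : ZA c A) : TM c A g (qm c A n) = qm c A (TZ c A g n) :=
  rfl

/-- the representation. -/
noncomputable def repA (c : CE G B) (A : AddSubgroup ℝ) : Representation ℤ G (MA' c A) where
  toFun g := (TM c A g).toIntLinearMap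
  map_one' := by
    refine LinearMap.ext fun y => ?_
    obtain ⟨u, rfl⟩ := qm_surj A y
    show TM c A 1 (qm c A u) = qm c A u
    rw [TM_qm, TZ_one]
  map_mul' g h := by
    refine LinearMap.ext fun y => ?_
    obtain ⟨u, rfl⟩ := qm_surj A y
    show TM c A (g * h) (qm c A u) = TM c A g (TM c A h (qm c A u))
    rw [TM_qm, TM_qm, TM_qm, TZ_mul]

lemma repA_qm (A : AddSubgroup ℝ) (g : G) (n : ZA c A) :
    repA c A g (qm c A n) = qm c A (TZ c A g n) := rfl

/-- the module as an object. -/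
noncomputable abbrev RA (c : CE G B) (A : AddSubgroup ℝ) : Rep.{0} ℤ G := Rep.of (repA c A)

/-- the integers. -/
def ZI : AddSubgroup ℝ := (Int.castAddHom ℝ).range

lemma mem_ZI (t : ℝ) : t ∈ ZI ↔ ∃ k : ℤ, t = k := by
  constructor
  · rintro ⟨k, rfl⟩
    exact ⟨k, rfl⟩
  · rintro ⟨k, rfl⟩
    exact ⟨k, rfl⟩

end Pool.Agent.LibRD47
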